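import Pool.Agent.K7.H98.EW.Law

set_option autoImplicit false

/-!
The backward branching chain.
-/

open MeasureTheory Set Filter Topology
open scoped ENNReal

namespace Pool.Agent.K7.H98.EW

open Pool.Agent.Helper964.Cons

/-- the shift -/
def sh (η : ℕ → Stk) : ℕ → Stk := fun i => η (i + 1)

lemma sh_cons (s : Stk) (η : ℕ → Stk) : sh (cons (s, η)) = η := rfl

lemma meas_sh : Measurable sh := measurable_pi_lambda _ fun _ => measurable_pi_apply _

/-- the chain at level `L` -/
noncomputable def f : ℕ → (ℕ → Stk) → ℕ∞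
  | 0, _ => 0
  | (L + 1), η => F (η 0) (f L (sh η) + 1)

/-- its limit -/
noncomputable def D (η : ℕ → Stk) : ℕ∞ := ⨆ L, f L η

lemma f_le_succ (L : ℕ) : ∀ η, f L η ≤ f (L + 1) η := by
  induction L with
  | zero => intro η; exact zero_le
  | succ L ih =>
    intro η
    show F (η 0) (f L (sh η) + 1) ≤ F (η 0) (f (L + 1) (sh η) + 1)
    have := ih (sh η)
    exact F_mono _ (by gcongr)

lemma f_mono (η : ℕ → Stk) : Monotone (fun L => f L η) := monotone_nat_of_le_succ fun L => f_le_succ L η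

lemma f_le_D (L : ℕ) (η : ℕ → Stk) : f L η ≤ D η := le_iSup (fun L => f L η) L

lemma D_eq (η : ℕ → Stk) : D η = F (η 0) (D (sh η) + 1) := by
  have h1 : D η = ⨆ L, f (L + 1) η := ((f_mono η).iSup_nat_add 1).symm
  rw [h1, D, add_one_iSup (f_mono (sh η)), F_iSup]
  · rfl
  · intro a b hab
    have := f_mono (sh η) hab
    simp only at this ⊢
    gcongr

lemma meas_f (L : ℕ) : Measurable (f L) := by
  induction L with
  | zero => exact measurable_const
  | succ L ih =>
    have h1 : Measurable (fun η : ℕ → Stk => (η 0, f L (sh η) + 1)) :=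
      (measurable_pi_apply 0).prodMk ((measurable_of_countable (fun y : ℕ∞ => y + 1)).comp
        (ih.comp meas_sh))
    exact meas_F2.comp h1

lemma meas_D : Measurable D := by
  refine measurable_to_countable' fun k => ?_
  have h1 : Measurable (fun η => (D η : ℝ≥0∞)) := by
    have : (fun η => (D η : ℝ≥0∞)) = fun η => ⨆ L, p1 (f L η) := by
      funext η
      exact map_iSup_enat p1_mono p1_top_le (f_mono η)
    rw [this]
    exact Measurable.iSup fun L => (meas_enat_fun p1).comp (meas_f L)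
  have : D ⁻¹' {k} = (fun η => (D η : ℝ≥0∞)) ⁻¹' {(k : ℝ≥0∞)} := by
    ext x
    simp
  rw [this]
  exact h1 (measurableSet_singleton _)

/-- the law of a sequence of stacks -/
noncomputable abbrev PP (ρ : Measure Stk) : Measure (ℕ → Stk) := Measure.infinitePi (fun _ : ℕ => ρ)

/-- the transition operator -/
noncomputable def KK (ρ : Measure Stk) (φ : ℕ∞ → ℝ≥0∞) (x : ℕ∞) : ℝ≥0∞ := ∫⁻ s, φ (F s (x + 1)) ∂ρ

section
variable (ρ : Measure Stk) [IsProbabilityMeasure ρ]

lemma rec_gen (φ : ℕ∞ → ℝ≥0∞) {g : (ℕ → Stk) → ℕ∞} (hg : Measurable g) :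
    ∫⁻ η, φ (F (η 0) (g (sh η) + 1)) ∂(PP ρ) = ∫⁻ η, KK ρ φ (g η) ∂(PP ρ) := by
  have hm : Measurable (fun p : Stk × (ℕ → Stk) => φ (F p.1 (g p.2 + 1))) := by
    have h1 : Measurable (fun p : Stk × (ℕ → Stk) => (p.1, g p.2 + 1)) :=
      measurable_fst.prodMk ((measurable_of_countable (fun y : ℕ∞ => y + 1)).comp
        (hg.comp measurable_snd))
    exact (meas_enat_fun φ).comp (meas_F2.comp h1)
  have hm2 : Measurable (fun η : ℕ → Stk => φ (F (η 0) (g (sh η) + 1))) :=
    hm.comp ((measurable_pi_apply 0).prodMk meas_sh)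
  rw [lint_cons ρ hm2]
  simp only [cons_zero, sh_cons, KK]
  rw [lintegral_lintegral_swap hm.aemeasurable]

lemma rec_f (φ : ℕ∞ → ℝ≥0∞) (L : ℕ) :
    ∫⁻ η, φ (f (L + 1) η) ∂(PP ρ) = ∫⁻ η, KK ρ φ (f L η) ∂(PP ρ) := rec_gen ρ φ (meas_f L)

lemma rec_D (φ : ℕ∞ → ℝ≥0∞) : ∫⁻ η, φ (D η) ∂(PP ρ) = ∫⁻ η, KK ρ φ (D η) ∂(PP ρ) := by
  rw [← rec_gen ρ φ meas_D]
  simp_rw [← D_eq]

lemma lint_D (φ : ℕ∞ → ℝ≥0∞) (hφ : Monotone φ) (ht : φ ⊤ ≤ ⨆ j : ℕ, φ j) :
    ∫⁻ η, φ (D η) ∂(PP ρ) = ⨆ L, ∫⁻ η, φ (f L η) ∂(PP ρ) := by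
  have h1 : ∀ η, φ (D η) = ⨆ L, φ (f L η) := fun η => map_iSup_enat hφ ht (f_mono η)
  simp_rw [h1]
  exact lintegral_iSup (fun L => (meas_enat_fun φ).comp (meas_f L))
    (fun a b hab η => hφ (f_mono η hab))

end

/-- pointwise bounds on naturals extend -/
lemma bound_ext {g h : ℕ∞ → ℝ≥0∞} (hn : ∀ x : ℕ, g x ≤ h x) (ht : h ⊤ = ⊤) (x : ℕ∞) : g x ≤ h x := by
  induction x using ENat.recTopCoe with
  | top => rw [ht]; exact le_top
  | coe n => exact hn n

/-- `δ > 2` -/
theorem D_fin (κ : Measure Stk) [IsProbabilityMeasure κ] (M : ℕ)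
    (hM : 2 < ∫⁻ B, (T B M : ℝ≥0∞) ∂κ) : ∫⁻ η, p1 (D η) ∂(PP (rho κ)) < ⊤ := by
  set ρ := rho κ with hρ
  set d := ∫⁻ B, (T B M : ℝ≥0∞) ∂κ with hd
  have hdt : d ≠ ⊤ := by
    refine ne_top_of_le_ne_top (ENNReal.natCast_ne_top M) ?_
    calc d ≤ ∫⁻ _, (M : ℝ≥0∞) ∂κ := lintegral_mono fun B => Nat.cast_le.2 (T_le_self B M)
      _ = M := by simp
  obtain ⟨C, hC⟩ := S3 κ M
  set a : ℕ → ℝ≥0∞ := fun L => ∫⁻ η, p1 (f L η) ∂(PP ρ) with ha
  set b : ℕ → ℝ≥0∞ := fun L => ∫⁻ η, p2 (f L η) ∂(PP ρ) with hb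
  have mp1 : ∀ L, Measurable (fun η => p1 (f L η)) := fun L => (meas_enat_fun p1).comp (meas_f L)
  have mp2 : ∀ L, Measurable (fun η => p2 (f L η)) := fun L => (meas_enat_fun p2).comp (meas_f L)
  have hafin : ∀ L, a L ≠ ⊤ := by
    intro L
    induction L with
    | zero => simp [ha, f, p1]
    | succ L ih =>
      have h1 : a (L + 1) ≤ a L + 1 := by
        calc a (L + 1) = ∫⁻ η, KK ρ p1 (f L η) ∂(PP ρ) := rec_f ρ p1 L
          _ ≤ ∫⁻ η, (p1 (f L η) + 1) ∂(PP ρ) := by
              refine lintegral_mono fun η => bound_ext (h := fun x => p1 x + 1) (fun x => ?_)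
                (by simp [p1]) _
              have := S1a κ (x + 1)
              push_cast at this
              rw [p1_nat]
              exact this
          _ = a L + 1 := by
              rw [lintegral_add_right _ measurable_const]; simp [ha]
      exact ne_top_of_le_ne_top (by simpa using ih) h1
  have hbfin : ∀ L, b L ≠ ⊤ := by
    intro L
    induction L with
    | zero => simp [hb, f, p2]
    | succ L ih =>
      have h1 : b (L + 1) ≤ b L + (4 * a L + 2) := by
        calc b (L + 1) = ∫⁻ η, KK ρ p2 (f L η) ∂(PP ρ) := rec_f ρ p2 L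
          _ ≤ ∫⁻ η, (p2 (f L η) + (4 * p1 (f L η) + 2)) ∂(PP ρ) := by
              refine lintegral_mono fun η => bound_ext (h := fun x => p2 x + (4 * p1 x + 2))
                (fun x => ?_) (by simp [p2]) _
              have := S1b κ (x + 1)
              refine le_trans (le_of_eq ?_) (this.trans ?_)
              · simp [KK, hρ]
              · rw [p1_nat, p2_nat]
                have h2 := nat_sq x
                have h3 : (x + 1) * (x + 1 + 1) = x * (x - 1) + (4 * x + 2) := by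
                  rw [← add_assoc, h2]; ring
                exact_mod_cast h3.le
          _ = b L + (4 * a L + 2) := by
              rw [lintegral_add_left (mp2 L), lintegral_add_left ((mp1 L).const_mul 4),
                lintegral_const_mul _ (mp1 L)]
              simp [ha, hb]
      refine ne_top_of_le_ne_top ?_ h1
      have := hafin L
      finiteness
  have hstep : ∀ L, 2 * d * a L ≤ 4 * a L + C := by
    intro L
    have h1 : b (L + 1) + 2 * d * a L ≤ b L + (4 * a L + C) := by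
      calc b (L + 1) + 2 * d * a L = ∫⁻ η, (KK ρ p2 (f L η) + 2 * d * p1 (f L η)) ∂(PP ρ) := by
            rw [lintegral_add_right _ ((mp1 L).const_mul _), lintegral_const_mul _ (mp1 L)]
            rw [← rec_f ρ p2 L]
        _ ≤ ∫⁻ η, (p2 (f L η) + (4 * p1 (f L η) + C)) ∂(PP ρ) := by
            refine lintegral_mono fun η => bound_ext (g := fun x => KK ρ p2 x + 2 * d * p1 x)
              (h := fun x => p2 x + (4 * p1 x + C)) (fun x => ?_) (by simp [p2]) _
            have := hC x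
            rw [p1_nat, p2_nat]
            calc KK ρ p2 x + 2 * d * x = ∫⁻ s, p2 (F s ((x + 1 : ℕ) : ℕ∞)) ∂(rho κ) +
                (2 * x : ℕ) * ∫⁻ B, (T B M : ℝ≥0∞) ∂κ := by
                  simp only [KK]; push_cast; ring
              _ ≤ _ := this
              _ = _ := by push_cast; ring
        _ = b L + (4 * a L + C) := by
            rw [lintegral_add_left (mp2 L), lintegral_add_left ((mp1 L).const_mul 4),
              lintegral_const_mul _ (mp1 L)]
            simp [ha, hb]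
    have h2 : b L ≤ b (L + 1) := lintegral_mono fun η => p2_mono (f_le_succ L η)
    have h3 : b L + 2 * d * a L ≤ b L + (4 * a L + C) := (by gcongr : _ ≤ _).trans h1
    exact (ENNReal.add_le_add_iff_left (hbfin L)).1 h3
  -- to the reals
  have hbound : ∀ L, a L ≤ ENNReal.ofReal (C / (2 * d.toReal - 4)) := by
    intro L
    have h1 := hstep L
    have h2 := hafin L
    have hd2 : 2 < d.toReal := by
      have := (ENNReal.toReal_lt_toReal (by norm_num) hdt).2 hM
      simpa using this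
    rw [← ENNReal.ofReal_toReal h2]
    apply ENNReal.ofReal_le_ofReal
    rw [le_div_iff₀ (by linarith)]
    have h3 := (ENNReal.toReal_le_toReal (by finiteness) (by finiteness)).2 h1
    rw [ENNReal.toReal_add (by finiteness) (by finiteness), ENNReal.toReal_mul, ENNReal.toReal_mul,
      ENNReal.toReal_mul] at h3
    simp only [ENNReal.toReal_ofNat, ENNReal.toReal_natCast] at h3
    nlinarith
  rw [lint_D ρ p1 p1_mono p1_top_le]
  exact lt_of_le_of_lt (iSup_le hbound) ENNReal.ofReal_lt_top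

/-- the reflected chain has infinite mean -/
theorem D_inf_refl (ρ : Measure Stk) [IsProbabilityMeasure ρ]
    (h : ∀ m : ℕ, (m : ℝ≥0∞) ≤ ∫⁻ s, p1 (F s m) ∂ρ) : ∫⁻ η, p1 (D η) ∂(PP ρ) = ⊤ := by
  have hK : ∀ x : ℕ∞, p1 x + 1 ≤ KK ρ p1 x := by
    intro x
    induction x using ENat.recTopCoe with
    | top =>
      have : KK ρ p1 ⊤ = ⊤ := by
        refine ENNReal.eq_top_of_forall_nnreal_le fun r => ?_
        obtain ⟨n, hn⟩ := exists_nat_ge r
        calc (r : ℝ≥0∞) ≤ n := by exact_mod_cast hn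
          _ ≤ ∫⁻ s, p1 (F s n) ∂ρ := h n
          _ ≤ _ := lintegral_mono fun s => p1_mono (F_mono s (by simp))
      rw [this]; exact le_top
    | coe n =>
      have := h (n + 1)
      rw [p1_nat]
      push_cast at this
      exact this
  have ha : ∀ L : ℕ, (L : ℝ≥0∞) ≤ ∫⁻ η, p1 (f L η) ∂(PP ρ) := by
    intro L
    induction L with
    | zero => simp
    | succ L ih =>
      rw [rec_f ρ p1 L]
      calc ((L + 1 : ℕ) : ℝ≥0∞) = L + 1 := by push_cast; ring
        _ ≤ ∫⁻ η, p1 (f L η) ∂(PP ρ) + 1 := by gcongr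
        _ = ∫⁻ η, (p1 (f L η) + 1) ∂(PP ρ) := by
            rw [lintegral_add_right _ measurable_const]; simp
        _ ≤ _ := lintegral_mono fun η => hK _
  rw [lint_D ρ p1 p1_mono p1_top_le]
  refine ENNReal.eq_top_of_forall_nnreal_le fun r => ?_
  obtain ⟨n, hn⟩ := exists_nat_ge r
  calc (r : ℝ≥0∞) ≤ n := by exact_mod_cast hn
    _ ≤ _ := (ha n).trans (le_iSup (fun L => ∫⁻ η, p1 (f L η) ∂(PP ρ)) n)

end Pool.Agent.K7.H98.EW
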