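import Pool.Agent.K7.H98.EW.Chain

set_option autoImplicit false

/-!
The limit has infinite mean when the expected number of forced arrows is at most two.
-/

open MeasureTheory Set Filter Topology
open scoped ENNReal

namespace Pool.Agent.K7.H98.EW

open Pool.Agent.Helper964.Cons

/-- the truncated tail -/
noncomputable def rK (K : ℕ) (x : ℕ∞) : ℝ≥0∞ := p2 (x - K)

/-- the truncated square -/
noncomputable def qK (K : ℕ) (x : ℕ∞) : ℝ≥0∞ := p2 x - rK K x

lemma rK_nat (K n : ℕ) : rK K n = (((n - K) * (n - K - 1) : ℕ) : ℝ≥0∞) := by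
  have : ((n : ℕ∞) - (K : ℕ∞)) = ((n - K : ℕ) : ℕ∞) := by norm_cast
  rw [rK, this, p2_nat]

lemma rK_mono (K : ℕ) : Monotone (rK K) := fun _ _ h => p2_mono (tsub_le_tsub_right h _)

lemma rK_le (K : ℕ) (x : ℕ∞) : rK K x ≤ p2 x := p2_mono tsub_le_self

lemma nat_q (K n : ℕ) : n * (n - 1) ≤ (n - K) * (n - K - 1) + 2 * K * n := by
  rcases Nat.le_total K n with h | h
  · obtain ⟨k, rfl⟩ := Nat.exists_eq_add_of_le' h
    have e : k + K - K = k := by omega
    rw [e]
    cases k with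
    | zero =>
      cases K with
      | zero => simp
      | succ K => simp only [Nat.zero_add, Nat.add_sub_cancel]; nlinarith
    | succ k =>
      have e1 : k + 1 + K - 1 = k + K := by omega
      rw [e1]
      simp only [Nat.add_sub_cancel]
      nlinarith
  · have e : n - K = 0 := by omega
    rw [e]
    have : n * (n - 1) ≤ n * K := Nat.mul_le_mul_left n (by omega)
    nlinarith

lemma qK_nat_le (K n : ℕ) : qK K n ≤ 2 * K * p1 n := by
  rw [qK, p2_nat, rK_nat, p1_nat]
  rw [tsub_le_iff_left]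
  exact_mod_cast nat_q K n

lemma qK_add (K n : ℕ) : qK K n + rK K n = p2 n := by
  rw [qK]
  exact tsub_add_cancel_of_le (rK_le K n)

lemma nat_r (K n : ℕ) : (n - K) * (n - K - 1) + 2 * K * n ≤ n * (n - 1) + (K * K + K) := by
  rcases Nat.le_total K n with h | h
  · obtain ⟨k, rfl⟩ := Nat.exists_eq_add_of_le' h
    have e : k + K - K = k := by omega
    rw [e]
    cases k with
    | zero =>
      cases K with
      | zero => simp
      | succ K => simp only [Nat.zero_add, Nat.add_sub_cancel]; nlinarith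
    | succ k =>
      have e1 : k + 1 + K - 1 = k + K := by omega
      rw [e1]
      simp only [Nat.add_sub_cancel]
      nlinarith
  · obtain ⟨k, rfl⟩ := Nat.exists_eq_add_of_le' h
    have e : n - (k + n) = 0 := by omega
    rw [e]
    cases n with
    | zero => simp
    | succ n =>
      simp only [Nat.add_sub_cancel]
      nlinarith

lemma nat_r2 {K x : ℕ} (h : K ≤ x) : (x + 1) * (x + 1 + 1) + (K * K + K) ≤
    ((x - K) * (x - K - 1) + (4 * x + 2)) + 2 * K * (x + 1) := by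
  obtain ⟨k, rfl⟩ := Nat.exists_eq_add_of_le' h
  have e : k + K - K = k := by omega
  rw [e]
  cases k with
  | zero => nlinarith
  | succ k =>
    simp only [Nat.add_sub_cancel]
    nlinarith

/-- the error for fair coins -/
lemma fair_r (K x : ℕ) : ∫⁻ s, rK K (F s ((x + 1 : ℕ) : ℕ∞)) ∂nu ≤ rK K x + (4 * x + 2 : ℕ) := by
  have hfin : ∀ m : ℕ, ∀ᵐ s ∂nu, F s m ≠ ⊤ := by
    intro m
    have h1 : ∀ᵐ s ∂nu, p1 (F s m) < ⊤ :=
      ae_lt_top (meas_pF p1 m) (ne_top_of_le_ne_top (ENNReal.natCast_ne_top m) (m1_le m))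
    filter_upwards [h1] with s hs h
    rw [h] at hs
    simp [p1] at hs
  have hgen : ∀ K' m : ℕ, ∫⁻ s, rK K' (F s m) ∂nu + (2 * K' * m : ℕ) ≤
      (m * (m + 1) + (K' * K' + K') : ℕ) := by
    intro K' m
    calc ∫⁻ s, rK K' (F s m) ∂nu + (2 * K' * m : ℕ)
        = ∫⁻ s, rK K' (F s m) ∂nu + ((2 * K' : ℕ) : ℝ≥0∞) * ∫⁻ s, p1 (F s m) ∂nu := by
          rw [m1_eq]; push_cast; ring
      _ = ∫⁻ s, (rK K' (F s m) + ((2 * K' : ℕ) : ℝ≥0∞) * p1 (F s m)) ∂nu := by
          rw [lintegral_add_left (meas_pF (rK K') m), lintegral_const_mul _ (meas_pF p1 m)]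
      _ ≤ ∫⁻ s, (p2 (F s m) + ((K' * K' + K' : ℕ) : ℝ≥0∞)) ∂nu := by
          refine lintegral_mono_ae ?_
          filter_upwards [hfin m] with s hs
          obtain ⟨n, hn⟩ := ENat.ne_top_iff_exists.1 hs
          rw [← hn, rK_nat, p1_nat, p2_nat]
          exact_mod_cast nat_r K' n
      _ = _ := by
          rw [lintegral_add_right _ measurable_const, m2_eq]
          simp only [lintegral_const, measure_univ, mul_one]
          push_cast; ring
  rcases Nat.lt_or_ge x K with h | h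
  · -- `x < K`
    have h1 := hgen (x + 1) (x + 1)
    have h2 : ∫⁻ s, rK K (F s ((x + 1 : ℕ) : ℕ∞)) ∂nu ≤
        ∫⁻ s, rK (x + 1) (F s ((x + 1 : ℕ) : ℕ∞)) ∂nu := by
      refine lintegral_mono fun s => p2_mono (tsub_le_tsub_left ?_ _)
      exact_mod_cast h
    have h3 : (((x + 1) * (x + 1 + 1) + ((x + 1) * (x + 1) + (x + 1)) : ℕ) : ℝ≥0∞) ≤
        ((4 * x + 2 : ℕ) : ℝ≥0∞) + ((2 * (x + 1) * (x + 1) : ℕ) : ℝ≥0∞) := by
      have : (x + 1) * (x + 1 + 1) + ((x + 1) * (x + 1) + (x + 1)) ≤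
        (4 * x + 2) + (2 * (x + 1) * (x + 1)) := by nlinarith
      exact_mod_cast this
    have h4 : ∫⁻ s, rK (x + 1) (F s ((x + 1 : ℕ) : ℕ∞)) ∂nu ≤ ((4 * x + 2 : ℕ) : ℝ≥0∞) :=
      (ENNReal.add_le_add_iff_right (ENNReal.natCast_ne_top _)).1 (h1.trans h3)
    exact (h2.trans h4).trans le_add_self
  · have h1 := hgen K (x + 1)
    have h3 : (((x + 1) * (x + 1 + 1) + (K * K + K) : ℕ) : ℝ≥0∞) ≤
        (rK K x + ((4 * x + 2 : ℕ) : ℝ≥0∞)) + ((2 * K * (x + 1) : ℕ) : ℝ≥0∞) := by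
      rw [rK_nat]
      exact_mod_cast nat_r2 h
    exact (ENNReal.add_le_add_iff_right (ENNReal.natCast_ne_top _)).1 (h1.trans h3)

/-- `δ ≤ 2` -/
theorem D_inf (κ : Measure Stk) [IsProbabilityMeasure κ] (hu : ∫⁻ B, (uS B : ℝ≥0∞) ∂κ ≤ 2)
    (h0 : 0 < κ {B | uS B = 0}) : ∫⁻ η, p1 (D η) ∂(PP (rho κ)) = ⊤ := by
  by_contra hfin
  set ρ := rho κ with hρ
  set c : ℝ≥0∞ := 2 * κ {B | uS B = 0} with hc
  have hc0 : 0 < c := by
    rw [hc]; exact ENNReal.mul_pos (by norm_num) h0.ne'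
  have hDfin : ∀ᵐ η ∂(PP ρ), D η ≠ ⊤ := by
    have h1 : ∀ᵐ η ∂(PP ρ), p1 (D η) < ⊤ :=
      ae_lt_top ((meas_enat_fun p1).comp meas_D) hfin
    filter_upwards [h1] with η hη h
    rw [h] at hη
    simp [p1] at hη
  have hFfin : ∀ m : ℕ, ∀ᵐ s ∂ρ, F s m ≠ ⊤ := by
    intro m
    have h1 : ∀ᵐ s ∂ρ, p1 (F s m) < ⊤ :=
      ae_lt_top (meas_pF p1 m) (ne_top_of_le_ne_top (ENNReal.natCast_ne_top m) (S1a κ m))
    filter_upwards [h1] with s hs h
    rw [h] at hs
    simp [p1] at hs
  -- the error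
  set e : ℕ → ℕ∞ → ℝ≥0∞ := fun K x => KK ρ (rK K) x - rK K x with he
  have hrfin : ∀ K n : ℕ, rK K n ≠ ⊤ := fun K n => by
    rw [rK_nat]; exact ENNReal.natCast_ne_top _
  have heK : ∀ K n : ℕ, KK ρ (rK K) n ≤ rK K n + (4 * n + 2 : ℕ) := by
    intro K n
    have h1 := dom_le κ (rK_mono K) ((n + 1 : ℕ) : ℕ∞)
    have h2 := fair_r K n
    have h3 := h1.trans h2
    push_cast at h3 ⊢
    exact h3
  have hle : ∀ K n : ℕ, e K n ≤ ((4 * n + 2 : ℕ) : ℝ≥0∞) := by
    intro K n
    rw [he]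
    simp only
    rw [tsub_le_iff_left]
    exact heK K n
  have hKKmain : ∀ K n : ℕ, qK K n + c ≤ KK ρ (qK K) n + e K n := by
    intro K n
    have h1 : KK ρ (qK K) n + KK ρ (rK K) n = KK ρ p2 n := by
      simp only [KK]
      rw [← lintegral_add_left (meas_pF (qK K) _)]
      refine lintegral_congr_ae ?_
      have := hFfin (n + 1)
      push_cast at this
      filter_upwards [this] with s hs
      obtain ⟨j, hj⟩ := ENat.ne_top_iff_exists.1 hs
      rw [← hj]
      exact qK_add K j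
    have h2 : p2 n + c ≤ KK ρ p2 n := by
      have := S2 κ hu n
      rw [p2_nat, hc]
      refine this.trans (le_of_eq ?_)
      simp [KK, hρ]
    have h3 : qK K n + c + rK K n ≤ KK ρ (qK K) n + e K n + rK K n := by
      calc qK K n + c + rK K n = p2 n + c := by rw [← qK_add K n]; ring
        _ ≤ KK ρ (qK K) n + KK ρ (rK K) n := by rw [h1]; exact h2
        _ ≤ KK ρ (qK K) n + (rK K n + e K n) := by gcongr; exact le_add_tsub
        _ = _ := by ring
    exact (ENNReal.add_le_add_iff_right (hrfin K n)).1 h3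
  have mD : ∀ φ : ℕ∞ → ℝ≥0∞, Measurable (fun η => φ (D η)) := fun φ =>
    (meas_enat_fun φ).comp meas_D
  have hq : ∀ K : ℕ, ∫⁻ η, qK K (D η) ∂(PP ρ) ≠ ⊤ := by
    intro K
    refine ne_top_of_le_ne_top (b := ∫⁻ η, 2 * K * p1 (D η) ∂(PP ρ)) ?_ ?_
    · rw [lintegral_const_mul _ (mD p1)]
      finiteness
    · refine lintegral_mono_ae ?_
      filter_upwards [hDfin] with η hη
      obtain ⟨j, hj⟩ := ENat.ne_top_iff_exists.1 hη
      rw [← hj]
      exact qK_nat_le K j
  have hce : ∀ K : ℕ, c ≤ ∫⁻ η, e K (D η) ∂(PP ρ) := by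
    intro K
    have h1 : ∫⁻ η, qK K (D η) ∂(PP ρ) + c ≤
        ∫⁻ η, qK K (D η) ∂(PP ρ) + ∫⁻ η, e K (D η) ∂(PP ρ) := by
      calc ∫⁻ η, qK K (D η) ∂(PP ρ) + c = ∫⁻ η, (qK K (D η) + c) ∂(PP ρ) := by
            rw [lintegral_add_right _ measurable_const]; simp
        _ ≤ ∫⁻ η, (KK ρ (qK K) (D η) + e K (D η)) ∂(PP ρ) := by
            refine lintegral_mono_ae ?_
            filter_upwards [hDfin] with η hη
            obtain ⟨j, hj⟩ := ENat.ne_top_iff_exists.1 hη
            rw [← hj]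
            exact hKKmain K j
        _ = ∫⁻ η, KK ρ (qK K) (D η) ∂(PP ρ) + ∫⁻ η, e K (D η) ∂(PP ρ) :=
            lintegral_add_left (mD _) _
        _ = _ := by rw [← rec_D ρ (qK K)]
    exact (ENNReal.add_le_add_iff_left (hq K)).1 h1
  -- the error tends to zero
  have hlim : ∀ n : ℕ, Tendsto (fun K => e K n) atTop (𝓝 0) := by
    intro n
    have h1 : Tendsto (fun K : ℕ => KK ρ (rK K) n) atTop (𝓝 0) := by
      have h2 : Tendsto (fun K : ℕ => ∫⁻ s, rK K (F s ((n : ℕ∞) + 1)) ∂ρ) atTop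
          (𝓝 (∫⁻ _, 0 ∂ρ)) := by
        refine tendsto_lintegral_of_dominated_convergence
          (fun s => p2 (F s ((n : ℕ∞) + 1))) (fun K => meas_pF _ _)
          (fun K => Eventually.of_forall fun s => rK_le K _) ?_ ?_
        · have := S1b κ (n + 1)
          push_cast at this
          exact ne_top_of_le_ne_top (by finiteness) this
        · have := hFfin (n + 1)
          push_cast at this
          filter_upwards [this] with s hs
          obtain ⟨j, hj⟩ := ENat.ne_top_iff_exists.1 hs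
          refine tendsto_const_nhds.congr' ?_
          filter_upwards [eventually_ge_atTop j] with K hK
          rw [← hj, rK_nat]
          have : j - K = 0 := by omega
          rw [this]; simp
      rw [lintegral_zero] at h2
      exact h2
    refine tendsto_of_tendsto_of_tendsto_of_le_of_le tendsto_const_nhds h1 (fun _ => zero_le)
      (fun K => ?_)
    exact tsub_le_self
  have hlim2 : Tendsto (fun K : ℕ => ∫⁻ η, e K (D η) ∂(PP ρ)) atTop (𝓝 (∫⁻ _, 0 ∂(PP ρ))) := by
    refine tendsto_lintegral_of_dominated_convergence (fun η => 4 * p1 (D η) + 2)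
      (fun K => mD _) (fun K => ?_) ?_ ?_
    · filter_upwards [hDfin] with η hη
      obtain ⟨j, hj⟩ := ENat.ne_top_iff_exists.1 hη
      rw [← hj, p1_nat]
      exact (hle K j).trans (by push_cast; exact le_rfl)
    · rw [lintegral_add_right _ measurable_const, lintegral_const_mul _ (mD p1)]
      simp only [lintegral_const, measure_univ, mul_one]
      finiteness
    · filter_upwards [hDfin] with η hη
      obtain ⟨j, hj⟩ := ENat.ne_top_iff_exists.1 hη
      rw [← hj]
      exact hlim j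
  rw [lintegral_zero] at hlim2
  have := ge_of_tendsto hlim2 (Eventually.of_forall hce)
  exact absurd this (not_le.2 hc0)

end Pool.Agent.K7.H98.EW
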