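import Pool.Agent.K7.H98.EW.Ext
import Pool.Agent.H543R3.Cyl

set_option autoImplicit false

/-!
Deterministic facts on the walk on the integers driven by stacks of arrows.
-/

open Set

namespace Pool.Agent.K7.H98.EW

open Pool.H543.ERW (Geo W C W_succ C_succ W_zero C_zero)

/-- the geometry of the integers -/
def gz : Geo ℤ Bool where
  u b := if b then 1 else -1
  N := Int.natAbs
  N_zero := rfl
  N_neg := Int.natAbs_neg
  N_add := Int.natAbs_add_le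
  N_fin R := by
    refine (finite_Icc (-(R : ℤ)) R).subset fun x hx => ?_
    have : x.natAbs ≤ R := hx
    constructor <;> omega
  N_u e := by cases e <;> simp
  L := AddMonoidHom.id ℤ
  L_le x := by simp
  up := true
  L_up := rfl
  travel v h := ⟨[], by simp, by simpa using h.symm⟩

lemma gz_u (b : Bool) : gz.u b = if b then 1 else -1 := rfl

/-- number of arrows to the left among the first `c` -/
def TF (s : Stk) (c : ℕ) : ℕ := Nat.count (fun j => s j = false) c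

lemma TF_zero (s : Stk) : TF s 0 = 0 := rfl

lemma TF_succ (s : Stk) (i : ℕ) : TF s (i + 1) = TF s i + if s i = false then 1 else 0 := by
  unfold TF; rw [Nat.count_succ]

lemma T_add_TF (s : Stk) (c : ℕ) : T s c + TF s c = c := T_add_count s c

lemma TF_encard (s : Stk) (c : ℕ) : ((TF s c : ℕ) : ℕ∞) = {i | i < c ∧ s i = false}.encard := by
  have : {i | i < c ∧ s i = false} = ((Finset.range c).filter (fun j => s j = false) : Set ℕ) := by
    ext i; simp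
  rw [this, encard_coe_eq_coe_finsetCard, TF, Nat.count_eq_card_filter_range]

lemma F1 (s : Stk) (c : ℕ) : F s (T s c) ≤ TF s c := by
  rw [TF_encard]
  refine encard_le_encard fun i hi => ⟨?_, hi.2.1⟩
  have h : T s i < T s c := by exact_mod_cast hi.2.2
  by_contra hic
  exact absurd (T_mono s (not_lt.1 hic)) (not_le.2 h)

lemma F2 (s : Stk) (c : ℕ) : (TF s c : ℕ∞) ≤ F s (T s c + 1) := by
  rw [TF_encard]
  refine encard_le_encard fun i hi => ⟨ENat.natCast_lt_top _, hi.2, ?_⟩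
  have h : T s i ≤ T s c := T_mono s hi.1.le
  norm_cast; omega

lemma F3 (s : Stk) (c : ℕ) (h : c = 0 ∨ s (c - 1) = true) : (TF s c : ℕ∞) ≤ F s (T s c) := by
  rcases h with rfl | h
  · simp [TF_zero]
  · rw [TF_encard]
    refine encard_le_encard fun i hi => ⟨ENat.natCast_lt_top _, hi.2, ?_⟩
    have hne : i ≠ c - 1 := by
      rintro rfl
      have h5 : s (c - 1) = false := hi.2
      rw [h] at h5
      exact absurd h5 (by simp)
    have hi1 : i < c := hi.1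
    have h1 : T s i ≤ T s (c - 1) := T_mono s (by omega)
    have h2 := T_succ s (c - 1)
    rw [if_pos h, show c - 1 + 1 = c by omega] at h2
    norm_cast; omega

variable (ξ : ℤ → ℕ → Bool)

/-- position at time `t` -/
def Wz (t : ℕ) : ℤ := W gz ξ t

/-- departures from `k` before time `t` -/
def Cz (t : ℕ) (k : ℤ) : ℕ := C gz ξ t k

lemma Wz_zero : Wz ξ 0 = 0 := rfl
lemma Cz_zero (k : ℤ) : Cz ξ 0 k = 0 := rfl

lemma Wz_succ (t : ℕ) : Wz ξ (t + 1) = Wz ξ t + if ξ (Wz ξ t) (Cz ξ t (Wz ξ t)) then 1 else -1 := by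
  unfold Wz Cz; rw [W_succ]; rfl

lemma Cz_succ_self (t : ℕ) : Cz ξ (t + 1) (Wz ξ t) = Cz ξ t (Wz ξ t) + 1 := by
  unfold Wz Cz; rw [C_succ]; simp

lemma Cz_succ_of_ne (t : ℕ) {k : ℤ} (h : k ≠ Wz ξ t) : Cz ξ (t + 1) k = Cz ξ t k := by
  unfold Wz Cz at *; rw [C_succ]; rw [Function.update_of_ne h]

/-- right steps from `k` -/
def Rz (t : ℕ) (k : ℤ) : ℕ := T (ξ k) (Cz ξ t k)

/-- left steps from `k` -/
def Lz (t : ℕ) (k : ℤ) : ℕ := TF (ξ k) (Cz ξ t k)

lemma step_cases (t : ℕ) :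
    (ξ (Wz ξ t) (Cz ξ t (Wz ξ t)) = true ∧ Wz ξ (t + 1) = Wz ξ t + 1 ∧
      Rz ξ (t + 1) (Wz ξ t) = Rz ξ t (Wz ξ t) + 1 ∧ Lz ξ (t + 1) (Wz ξ t) = Lz ξ t (Wz ξ t)) ∨
    (ξ (Wz ξ t) (Cz ξ t (Wz ξ t)) = false ∧ Wz ξ (t + 1) = Wz ξ t - 1 ∧
      Rz ξ (t + 1) (Wz ξ t) = Rz ξ t (Wz ξ t) ∧ Lz ξ (t + 1) (Wz ξ t) = Lz ξ t (Wz ξ t) + 1) := by
  have h1 := Wz_succ ξ t
  have h2 := Cz_succ_self ξ t
  cases h : ξ (Wz ξ t) (Cz ξ t (Wz ξ t))
  · right
    rw [h] at h1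
    refine ⟨rfl, by simpa [sub_eq_add_neg] using h1, ?_, ?_⟩
    · rw [Rz, h2, T_succ, h]; simp [Rz]
    · rw [Lz, h2, TF_succ, h]; simp [Lz]
  · left
    rw [h] at h1
    refine ⟨rfl, by simpa using h1, ?_, ?_⟩
    · rw [Rz, h2, T_succ, h]; simp [Rz]
    · rw [Lz, h2, TF_succ, h]; simp [Lz]

lemma Rz_ne (t : ℕ) {k : ℤ} (h : k ≠ Wz ξ t) : Rz ξ (t + 1) k = Rz ξ t k := by
  rw [Rz, Cz_succ_of_ne ξ t h]; rfl

lemma Lz_ne (t : ℕ) {k : ℤ} (h : k ≠ Wz ξ t) : Lz ξ (t + 1) k = Lz ξ t k := by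
  rw [Lz, Cz_succ_of_ne ξ t h]; rfl

lemma balance (t : ℕ) (k : ℤ) : (Rz ξ t k : ℤ) + (if k < 0 then 1 else 0) =
    Lz ξ t (k + 1) + (if k < Wz ξ t then 1 else 0) := by
  induction t with
  | zero =>
    rw [Wz_zero]
    rfl
  | succ t ih =>
    by_cases h1 : k = Wz ξ t
    · have h2 : k + 1 ≠ Wz ξ t := by omega
      rw [Lz_ne ξ t h2]
      subst h1
      rcases step_cases ξ t with ⟨_, hW, hR, _⟩ | ⟨_, hW, hR, _⟩
      · rw [hR, hW]
        rw [if_neg (lt_irrefl _)] at ih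
        rw [if_pos (show Wz ξ t < Wz ξ t + 1 by omega)]
        push_cast; omega
      · rw [hR, hW]
        rw [if_neg (lt_irrefl _)] at ih
        rw [if_neg (show ¬ Wz ξ t < Wz ξ t - 1 by omega)]
        exact ih
    · rw [Rz_ne ξ t h1]
      by_cases h2 : k + 1 = Wz ξ t
      · rw [h2] at ih ⊢
        have hk : k < Wz ξ t := by omega
        rw [if_pos hk] at ih
        rcases step_cases ξ t with ⟨_, hW, _, hL⟩ | ⟨_, hW, _, hL⟩
        · rw [hL, hW, if_pos (show k < Wz ξ t + 1 by omega)]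
          exact ih
        · rw [hL, hW, if_neg (show ¬ k < Wz ξ t - 1 by omega)]
          push_cast; omega
      · rw [Lz_ne ξ t h2, ih]
        have : (k < Wz ξ (t + 1)) ↔ (k < Wz ξ t) := by
          rcases step_cases ξ t with ⟨_, hW, _⟩ | ⟨_, hW, _⟩ <;> rw [hW] <;> omega
        simp only [this]

lemma last_right (t : ℕ) (k : ℤ) (hk : k < Wz ξ t) :
    Cz ξ t k = 0 ∨ ξ k (Cz ξ t k - 1) = true := by
  induction t with
  | zero => left; rfl
  | succ t ih =>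
    by_cases h1 : k = Wz ξ t
    · right
      rcases step_cases ξ t with ⟨hx, _⟩ | ⟨_, hW, _⟩
      · rw [h1, Cz_succ_self]
        simpa using hx
      · omega
    · rw [Cz_succ_of_ne ξ t h1]
      apply ih
      rcases step_cases ξ t with ⟨_, hW, _⟩ | ⟨_, hW, _⟩ <;> omega

/-- one step of the chain to the right of the origin -/
lemma chain_pos (t : ℕ) (k : ℤ) (hk : 0 ≤ k) : (Lz ξ t k : ℕ∞) ≤ F (ξ k) (Lz ξ t (k + 1) + 1) := by
  have hb := balance ξ t k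
  rw [if_neg (by omega)] at hb
  by_cases h : k < Wz ξ t
  · rw [if_pos h] at hb
    have h1 : Rz ξ t k = Lz ξ t (k + 1) + 1 := by omega
    have h2 := F3 (ξ k) (Cz ξ t k) (last_right ξ t k h)
    have h3 : ((Lz ξ t (k + 1) : ℕ∞) + 1) = ((T (ξ k) (Cz ξ t k) : ℕ) : ℕ∞) := by
      have : T (ξ k) (Cz ξ t k) = Lz ξ t (k + 1) + 1 := h1
      rw [this]; norm_cast
    rw [h3]
    exact h2
  · rw [if_neg h] at hb
    have h1 : Rz ξ t k = Lz ξ t (k + 1) := by omega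
    have h2 := F2 (ξ k) (Cz ξ t k)
    have h3 : T (ξ k) (Cz ξ t k) = Lz ξ t (k + 1) := h1
    rw [h3] at h2
    exact h2

/-- one step of the chain to the left of the origin -/
lemma chain_neg (t : ℕ) (k : ℤ) (hk : k < 0) : (Lz ξ t k : ℕ∞) ≤ F (ξ k) (Lz ξ t (k + 1)) := by
  have hb := balance ξ t k
  rw [if_pos hk] at hb
  by_cases h : k < Wz ξ t
  · rw [if_pos h] at hb
    have h1 : T (ξ k) (Cz ξ t k) = Lz ξ t (k + 1) := by
      have : Rz ξ t k = Lz ξ t (k + 1) := by omega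
      exact this
    have h2 := F3 (ξ k) (Cz ξ t k) (last_right ξ t k h)
    rw [h1] at h2
    exact h2
  · rw [if_neg h] at hb
    have h1 : T (ξ k) (Cz ξ t k) + 1 = Lz ξ t (k + 1) := by
      have : Rz ξ t k + 1 = Lz ξ t (k + 1) := by omega
      exact this
    have h2 := F2 (ξ k) (Cz ξ t k)
    rw [← h1]
    exact_mod_cast h2

lemma chain_ge (t : ℕ) (k : ℤ) (hk : 0 ≤ k) (hW : k < Wz ξ t) :
    F (ξ k) (Lz ξ t (k + 1) + 1) ≤ Lz ξ t k := by
  have hb := balance ξ t k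
  rw [if_neg (by omega), if_pos hW] at hb
  have h1 : T (ξ k) (Cz ξ t k) = Lz ξ t (k + 1) + 1 := by
    have : Rz ξ t k = Lz ξ t (k + 1) + 1 := by omega
    exact this
  have h2 := F1 (ξ k) (Cz ξ t k)
  rw [h1] at h2
  exact_mod_cast h2

/-- the stacks to the right of `k` -/
def sk (k : ℤ) : ℕ → Stk := fun i => ξ (k + i)

lemma sk_zero (k : ℤ) : sk ξ k 0 = ξ k := by simp [sk]

lemma sh_sk (k : ℤ) : sh (sk ξ k) = sk ξ (k + 1) := by
  funext i
  simp only [sh, sk]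
  congr 1
  push_cast; ring

lemma f_sk (L : ℕ) (k : ℤ) : f (L + 1) (sk ξ k) = F (ξ k) (f L (sk ξ (k + 1)) + 1) := by
  show F (sk ξ k 0) (f L (sh (sk ξ k)) + 1) = _
  rw [sk_zero, sh_sk]

lemma D_sk (k : ℤ) : D (sk ξ k) = F (ξ k) (D (sk ξ (k + 1)) + 1) := by
  rw [D_eq, sk_zero, sh_sk]

lemma Wz_abs (t : ℕ) : |Wz ξ t| ≤ t := by
  induction t with
  | zero => simp [Wz_zero]
  | succ t ih =>
    rw [abs_le] at ih ⊢
    rcases step_cases ξ t with ⟨_, hW, _⟩ | ⟨_, hW, _⟩ <;> rw [hW] <;> push_cast <;> omega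

lemma time_eq (t N : ℕ) (hN : t ≤ N) :
    (t : ℤ) = Wz ξ t + 2 * ∑ k ∈ Finset.Icc (-(N : ℤ)) N, (Lz ξ t k : ℤ) := by
  induction t with
  | zero => simp [Lz, Cz_zero, TF_zero, Wz_zero]
  | succ t ih =>
    have h0 := ih (by omega)
    have hmem : Wz ξ t ∈ Finset.Icc (-(N : ℤ)) N := by
      have := abs_le.1 (Wz_abs ξ t)
      rw [Finset.mem_Icc]; omega
    have h1 := Finset.add_sum_erase _ (fun k => (Lz ξ t k : ℤ)) hmem
    have h2 := Finset.add_sum_erase _ (fun k => (Lz ξ (t + 1) k : ℤ)) hmem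
    have h3 : ∑ k ∈ (Finset.Icc (-(N : ℤ)) N).erase (Wz ξ t), (Lz ξ (t + 1) k : ℤ) =
        ∑ k ∈ (Finset.Icc (-(N : ℤ)) N).erase (Wz ξ t), (Lz ξ t k : ℤ) :=
      Finset.sum_congr rfl fun k hk => by rw [Lz_ne ξ t (Finset.ne_of_mem_erase hk)]
    rw [← h2, h3]
    rw [← h1] at h0
    rcases step_cases ξ t with ⟨_, hW, _, hL⟩ | ⟨_, hW, _, hL⟩
    · rw [hW, hL]; push_cast; omega
    · rw [hW, hL]; push_cast; omega

lemma not_beyond (n : ℕ) (t : ℕ) :
    ((∀ k : ℤ, (n : ℤ) ≤ k → Cz ξ t k = 0) ∧ Wz ξ t ≤ n) ∨ ∃ s < t, Wz ξ s = n := by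
  induction t with
  | zero => left; exact ⟨fun k _ => rfl, by rw [Wz_zero]; positivity⟩
  | succ t ih =>
    rcases ih with ⟨h1, h2⟩ | ⟨s, hs, hs2⟩
    · rcases eq_or_lt_of_le h2 with h | h
      · right; exact ⟨t, by omega, h⟩
      · left
        refine ⟨fun k hk => ?_, ?_⟩
        · rw [Cz_succ_of_ne ξ t (by omega)]; exact h1 k hk
        · rcases step_cases ξ t with ⟨_, hW, _⟩ | ⟨_, hW, _⟩ <;> omega
    · right; exact ⟨s, by omega, hs2⟩

lemma up_bound (n t : ℕ) (hC : Cz ξ t n = 0) (j : ℕ) (hj : j ≤ n) :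
    (Lz ξ t ((n : ℤ) - j) : ℕ∞) ≤ f j (sk ξ ((n : ℤ) - j)) := by
  induction j with
  | zero => simp [Lz, hC, TF_zero]
  | succ j ih =>
    have h0 := ih (by omega)
    have h1 := chain_pos ξ t ((n : ℤ) - (j + 1 : ℕ)) (by push_cast; omega)
    rw [f_sk]
    have e : (n : ℤ) - ((j + 1 : ℕ) : ℤ) + 1 = (n : ℤ) - j := by push_cast; ring
    rw [e] at h1 ⊢
    refine h1.trans (F_mono _ ?_)
    gcongr

lemma low_bound (n t : ℕ) (hW : Wz ξ t = n) (j : ℕ) (hj : j ≤ n) :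
    f j (sk ξ ((n : ℤ) - j)) ≤ (Lz ξ t ((n : ℤ) - j) : ℕ∞) := by
  induction j with
  | zero => exact zero_le
  | succ j ih =>
    have h0 := ih (by omega)
    have h1 := chain_ge ξ t ((n : ℤ) - (j + 1 : ℕ)) (by push_cast; omega) (by rw [hW]; push_cast; omega)
    rw [f_sk]
    have e : (n : ℤ) - ((j + 1 : ℕ) : ℤ) + 1 = (n : ℤ) - j := by push_cast; ring
    rw [e] at h1 ⊢
    refine (F_mono _ ?_).trans h1
    gcongr

/-- the stacks to the left of the origin -/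
def lk : ℕ → Stk := fun j => ξ (-((j : ℤ) + 1))

lemma left_bound (t : ℕ) (x : ℕ∞) (hx : (Lz ξ t 0 : ℕ∞) ≤ x) (j : ℕ) :
    (Lz ξ t (-(j : ℤ)) : ℕ∞) ≤ U j (lk ξ) x := by
  induction j with
  | zero => simpa [U] using hx
  | succ j ih =>
    rw [U_succ]
    have h1 := chain_neg ξ t (-((j + 1 : ℕ) : ℤ)) (by push_cast; omega)
    have e : -((j + 1 : ℕ) : ℤ) + 1 = -(j : ℤ) := by push_cast; ring
    have e2 : lk ξ j = ξ (-((j + 1 : ℕ) : ℤ)) := by simp [lk]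
    rw [e] at h1
    rw [e2]
    exact h1.trans (F_mono _ ih)

end Pool.Agent.K7.H98.EW
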