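import Pool.Agent.K7.H98.EW.Det
import Pool.Agent.R243.Erg.Max
import Pool.Agent.Y560.BE.Erg

set_option autoImplicit false

/-!
Ergodic averages along the field of stacks.
-/

open MeasureTheory Set Filter Topology
open scoped ENNReal

namespace Pool.Agent.K7.H98.EW

open Pool.Agent.R243.Erg (av birkhoff_L1)
open Pool.Agent.Y560.BE (cm cm_iter mp_cm erg_cm move_off)

/-- the law of the field of stacks -/
noncomputable abbrev MM (ρ : Measure Stk) : Measure (ℤ → Stk) := Measure.infinitePi (fun _ : ℤ => ρ)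

section
variable (ρ : Measure Stk) [IsProbabilityMeasure ρ]

lemma meas_sk (k : ℤ) : Measurable (fun ξ : ℤ → Stk => sk ξ k) :=
  measurable_pi_lambda _ fun _ => measurable_pi_apply _

lemma map_sk (k : ℤ) : (MM ρ).map (fun ξ : ℤ → Stk => sk ξ k) = PP ρ :=
  Measure.map_infinitePi_infinitePi_of_inj (P := fun _ : ℤ => ρ)
    (f := fun i : ℕ => k + (i : ℤ)) (fun a b h => by simpa using h)

lemma meas_lk : Measurable (fun ξ : ℤ → Stk => lk ξ) :=
  measurable_pi_lambda _ fun _ => measurable_pi_apply _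

lemma map_lk : (MM ρ).map (fun ξ : ℤ → Stk => lk ξ) = PP ρ :=
  Measure.map_infinitePi_infinitePi_of_inj (P := fun _ : ℤ => ρ)
    (f := fun i : ℕ => -((i : ℤ) + 1)) (fun a b h => by simpa using h)

/-- the shift by one -/
def Tr : (ℤ → Stk) → (ℤ → Stk) := cm (Equiv.addRight (1 : ℤ))

lemma Tr_iter (k : ℕ) (ξ : ℤ → Stk) : sk (Tr^[k] ξ) 0 = sk ξ k := by
  rw [Tr, cm_iter]
  funext i
  simp only [sk]
  congr 1
  have : ∀ (k : ℕ) (z : ℤ), (Equiv.addRight (1 : ℤ))^[k] z = z + k := by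
    intro k
    induction k with
    | zero => intro z; simp
    | succ k ih => intro z; rw [Function.iterate_succ_apply, ih]; simp; ring
  rw [this]
  ring

theorem erg_Tr : Ergodic Tr (MM ρ) := by
  refine erg_cm ρ (Equiv.addRight (1 : ℤ)) (move_off _ fun i n h => ?_)
  have : ∀ (k : ℕ) (z : ℤ), (Equiv.addRight (1 : ℤ))^[k] z = z + k := by
    intro k
    induction k with
    | zero => intro z; simp
    | succ k ih => intro z; rw [Function.iterate_succ_apply, ih]; simp; ring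
  rw [this] at h
  push_cast at h
  omega

/-- ergodic averages -/
theorem erg_avg {g : (ℕ → Stk) → ℝ} (hg : Measurable g) (hi : Integrable g (PP ρ)) :
    ∀ᵐ ξ ∂(MM ρ), Tendsto (fun n : ℕ => (∑ k ∈ Finset.range n, g (sk ξ k)) / n) atTop
      (𝓝 (∫ η, g η ∂(PP ρ))) := by
  set h : (ℤ → Stk) → ℝ := fun ξ => g (sk ξ 0) with hh
  have hm : Measurable h := hg.comp (meas_sk 0)
  have hmp : MeasurePreserving (fun ξ : ℤ → Stk => sk ξ 0) (MM ρ) (PP ρ) := ⟨meas_sk 0, map_sk ρ 0⟩
  have hint : Integrable h (MM ρ) := (hmp.integrable_comp hg.aestronglyMeasurable).2 hi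
  have herg := erg_Tr ρ
  have h1 := birkhoff_L1 herg.toMeasurePreserving hm hint
  set E := (MM ρ)[h | MeasurableSpace.invariants Tr] with hE
  have hEm : Measurable[MeasurableSpace.invariants Tr] E := stronglyMeasurable_condExp.measurable
  have hle : MeasurableSpace.invariants Tr ≤ MeasurableSpace.pi := MeasurableSpace.invariants_le Tr
  have hinv : E ∘ Tr = E := MeasurableSpace.comp_eq_of_measurable_invariants hEm
  obtain ⟨c, hc⟩ := herg.toPreErgodic.ae_eq_const_of_ae_eq_comp (hEm.mono hle le_rfl) hinv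
  have hcv : c = ∫ η, g η ∂(PP ρ) := by
    have h2 : ∫ ξ, E ξ ∂(MM ρ) = c := by
      rw [integral_congr_ae hc]; simp
    rw [← h2, hE, integral_condExp hle]
    rw [← map_sk ρ 0, integral_map (meas_sk 0).aemeasurable hg.aestronglyMeasurable]
  filter_upwards [h1, hc] with ξ hξ1 hξ2
  have h3 : E ξ = c := hξ2
  rw [h3, hcv] at hξ1
  refine hξ1.congr fun n => ?_
  rw [av, inv_mul_eq_div]
  congr 1
  refine Finset.sum_congr rfl fun k _ => ?_
  rw [hh]
  simp only
  rw [Tr_iter]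

/-- truncated chain -/
noncomputable def gL (L : ℕ) (η : ℕ → Stk) : ℕ∞ := min (f L η) L

lemma gL_mono (η : ℕ → Stk) : Monotone (fun L => gL L η) := fun a b hab =>
  min_le_min (f_mono η hab) (by exact_mod_cast hab)

lemma gL_sup (η : ℕ → Stk) : ⨆ L, gL L η = D η := by
  apply le_antisymm
  · exact iSup_le fun L => (min_le_left _ _).trans (f_le_D L η)
  · refine le_of_forall_nat fun k hk => ?_
    have hex : ∃ L, (k : ℕ∞) ≤ f L η := by
      rcases enat_iSup_cases (f_mono η) with ⟨n, hn⟩ | ⟨_, h2⟩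
      · exact ⟨n, by rw [hn n le_rfl]; exact hk⟩
      · exact h2 k
    obtain ⟨L, hL⟩ := hex
    refine le_trans ?_ (le_iSup (fun L => gL L η) (max L k))
    exact le_min (hL.trans (f_mono η (le_max_left _ _))) (by exact_mod_cast le_max_right L k)

lemma meas_gL (L : ℕ) : Measurable (gL L) := by
  exact (measurable_of_countable (fun y : ℕ∞ => min y (L : ℕ∞))).comp (meas_f L)

/-- real version -/
noncomputable def hL (L : ℕ) (η : ℕ → Stk) : ℝ := ((gL L η).toNat : ℝ)

lemma gL_ne_top (L : ℕ) (η : ℕ → Stk) : gL L η ≠ ⊤ :=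
  ne_top_of_le_ne_top (ENat.natCast_ne_top L) (min_le_right _ _)

lemma hL_nonneg (L : ℕ) (η : ℕ → Stk) : 0 ≤ hL L η := Nat.cast_nonneg _

lemma hL_ofReal (L : ℕ) (η : ℕ → Stk) : ENNReal.ofReal (hL L η) = p1 (gL L η) := by
  obtain ⟨n, hn⟩ := ENat.ne_top_iff_exists.1 (gL_ne_top L η)
  rw [hL, ← hn, p1_nat]
  simp

lemma meas_hL (L : ℕ) : Measurable (hL L) :=
  (measurable_of_countable (fun y : ℕ∞ => ((y.toNat : ℕ) : ℝ))).comp (meas_gL L)

lemma hL_le (L : ℕ) (η : ℕ → Stk) : hL L η ≤ L := by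
  have : gL L η ≤ L := min_le_right _ _
  obtain ⟨n, hn⟩ := ENat.ne_top_iff_exists.1 (gL_ne_top L η)
  rw [hL, ← hn]
  rw [← hn] at this
  simp only [ENat.toNat_natCast]
  exact_mod_cast this

lemma hL_int (L : ℕ) : Integrable (hL L) (PP ρ) :=
  Integrable.of_bound (meas_hL L).aestronglyMeasurable (L : ℝ) (Eventually.of_forall fun η => by
    rw [Real.norm_eq_abs, abs_of_nonneg (hL_nonneg L η)]; exact hL_le L η)

lemma hL_sup : ⨆ L, ENNReal.ofReal (∫ η, hL L η ∂(PP ρ)) = ∫⁻ η, p1 (D η) ∂(PP ρ) := by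
  have h1 : ∀ L, ENNReal.ofReal (∫ η, hL L η ∂(PP ρ)) = ∫⁻ η, p1 (gL L η) ∂(PP ρ) := by
    intro L
    rw [ofReal_integral_eq_lintegral_ofReal (hL_int ρ L) (Eventually.of_forall (hL_nonneg L))]
    simp_rw [hL_ofReal]
  simp_rw [h1]
  have h2 : ∀ η, p1 (D η) = ⨆ L, p1 (gL L η) := by
    intro η
    rw [← gL_sup]
    exact map_iSup_enat p1_mono p1_top_le (gL_mono η)
  simp_rw [h2]
  exact (lintegral_iSup (f := fun L η => p1 (gL L η)) (fun L => (meas_enat_fun p1).comp (meas_gL L))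
    (fun a b hab η => p1_mono (gL_mono η hab))).symm

end

end Pool.Agent.K7.H98.EW
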