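import Pool.Agent.K7.H98.EW.Chain

set_option autoImplicit false

/-!
Extinction to the left of the origin.
-/

open MeasureTheory Set Filter Topology
open scoped ENNReal

namespace Pool.Agent.K7.H98.EW

open Pool.Agent.Helper964.Cons

/-- the chain without immigration -/
noncomputable def U : ℕ → (ℕ → Stk) → ℕ∞ → ℕ∞
  | 0, _, x => x
  | (j + 1), ζ, x => U j (sh ζ) (F (ζ 0) x)

lemma U_succ (j : ℕ) : ∀ (ζ : ℕ → Stk) (x : ℕ∞), U (j + 1) ζ x = F (ζ j) (U j ζ x) := by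
  induction j with
  | zero => intro ζ x; rfl
  | succ j ih =>
    intro ζ x
    show U (j + 1) (sh ζ) (F (ζ 0) x) = _
    rw [ih]
    rfl

lemma U_mono (j : ℕ) (ζ : ℕ → Stk) : Monotone (U j ζ) := by
  induction j with
  | zero => exact fun _ _ h => h
  | succ j ih =>
    intro a b h
    rw [U_succ, U_succ]
    exact F_mono _ (ih h)

lemma meas_U (j : ℕ) : Measurable (fun p : (ℕ → Stk) × ℕ∞ => U j p.1 p.2) := by
  induction j with
  | zero => exact measurable_snd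
  | succ j ih =>
    simp only [U_succ]
    exact meas_F2.comp ((((measurable_pi_apply j).comp measurable_fst)).prodMk ih)

lemma U_zero_of (j k : ℕ) (ζ : ℕ → Stk) (x : ℕ∞) (h : U j ζ x = 0) : U (j + k) ζ x = 0 := by
  induction k with
  | zero => exact h
  | succ k ih =>
    rw [← add_assoc, U_succ, ih, F_zero]

section
variable (κ : Measure Stk) [IsProbabilityMeasure κ]

lemma meas_Uz (j : ℕ) (x : ℕ∞) : MeasurableSet {ζ : ℕ → Stk | U j ζ x = 0} :=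
  ((meas_U j).comp (measurable_id.prodMk measurable_const)) (measurableSet_singleton 0)

lemma ratio_eq (j : ℕ) : (((j + 1 : ℕ) : ℝ≥0∞) / ((j + 2 : ℕ) : ℝ≥0∞)) * 2 =
    1 + (((j + 1 : ℕ) : ℝ≥0∞) / ((j + 2 : ℕ) : ℝ≥0∞)) * ((j : ℝ≥0∞) / ((j + 1 : ℕ) : ℝ≥0∞)) := by
  have h1 : ((j + 1 : ℕ) : ℝ≥0∞) ≠ 0 := by exact_mod_cast Nat.succ_ne_zero j
  have h2 : ((j + 2 : ℕ) : ℝ≥0∞) ≠ 0 := by exact_mod_cast Nat.succ_ne_zero (j + 1)
  have e1 : (((j + 1 : ℕ) : ℝ≥0∞) / ((j + 2 : ℕ) : ℝ≥0∞)) * ((j : ℝ≥0∞) / ((j + 1 : ℕ) : ℝ≥0∞)) =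
      (j : ℝ≥0∞) / ((j + 2 : ℕ) : ℝ≥0∞) := by
    rw [div_eq_mul_inv, div_eq_mul_inv, div_eq_mul_inv]
    calc ((j + 1 : ℕ) : ℝ≥0∞) * ((j + 2 : ℕ) : ℝ≥0∞)⁻¹ * ((j : ℝ≥0∞) * ((j + 1 : ℕ) : ℝ≥0∞)⁻¹)
        = (((j + 1 : ℕ) : ℝ≥0∞) * ((j + 1 : ℕ) : ℝ≥0∞)⁻¹) * ((j : ℝ≥0∞) * ((j + 2 : ℕ) : ℝ≥0∞)⁻¹) := by
          ring
      _ = _ := by rw [ENNReal.mul_inv_cancel h1 (ENNReal.natCast_ne_top _), one_mul]
  rw [e1]
  have e2 : (1 : ℝ≥0∞) = ((j + 2 : ℕ) : ℝ≥0∞) / ((j + 2 : ℕ) : ℝ≥0∞) :=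
    (ENNReal.div_self h2 (ENNReal.natCast_ne_top _)).symm
  rw [e2, ENNReal.div_add_div_same, div_eq_mul_inv, div_eq_mul_inv, mul_right_comm]
  congr 1
  push_cast
  ring

lemma ext_prob (j : ℕ) : ∀ x : ℕ∞,
    gs ((j : ℝ≥0∞) / ((j + 1 : ℕ) : ℝ≥0∞)) x ≤ PP (rho κ) {ζ | U j ζ x = 0} := by
  induction j with
  | zero =>
    intro x
    induction x using ENat.recTopCoe with
    | top => rw [gs_top]; exact zero_le
    | coe n =>
      rw [gs_nat]
      cases n with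
      | zero =>
        have : {ζ : ℕ → Stk | U 0 ζ ((0 : ℕ) : ℕ∞) = 0} = univ := by
          ext ζ; simp [U]
        rw [this]; simp
      | succ n => simp
  | succ j ih =>
    intro x
    induction x using ENat.recTopCoe with
    | top => rw [gs_top]; exact zero_le
    | coe n =>
      rw [gs_nat]
      have h1 : PP (rho κ) {ζ | U (j + 1) ζ n = 0} =
          ∫⁻ s, PP (rho κ) {ζ | U j ζ (F s n) = 0} ∂(rho κ) := by
        rw [← lintegral_indicator_one (meas_Uz (j + 1) n),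
          lint_cons (rho κ) (measurable_one.indicator (meas_Uz (j + 1) n))]
        refine lintegral_congr fun s => ?_
        rw [← lintegral_indicator_one (meas_Uz j _)]
        rfl
      rw [h1]
      have hr : ((j : ℝ≥0∞) / ((j + 1 : ℕ) : ℝ≥0∞)) ≤ 1 := by
        rw [ENNReal.div_le_iff (by exact_mod_cast Nat.succ_ne_zero j) (ENNReal.natCast_ne_top _),
          one_mul]
        exact Nat.cast_le.2 (by omega)
      have hr1 : ((j + 1 : ℕ) : ℝ≥0∞) / ((j + 1 + 1 : ℕ) : ℝ≥0∞) ≤ 1 := by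
        rw [ENNReal.div_le_iff (by exact_mod_cast Nat.succ_ne_zero (j + 1))
          (ENNReal.natCast_ne_top _), one_mul]
        exact Nat.cast_le.2 (by omega)
      have h2 := S5 κ hr (ratio_eq j) hr1 n
      exact h2.trans (lintegral_mono fun s => ih _)

lemma F_fin_ae (m : ℕ) : ∀ᵐ s ∂(rho κ), F s m ≠ ⊤ := by
  have h1 : ∀ᵐ s ∂(rho κ), p1 (F s m) < ⊤ :=
    ae_lt_top (meas_pF p1 m) (ne_top_of_le_ne_top (ENNReal.natCast_ne_top m) (S1a κ m))
  filter_upwards [h1] with s hs h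
  rw [h] at hs
  simp [p1] at hs

/-- the chain without immigration dies out -/
theorem ext_ae (x : ℕ) : ∀ᵐ ζ ∂(PP (rho κ)), ∃ j, U j ζ x = 0 := by
  have hlim : Tendsto (fun j : ℕ => ((j : ℝ≥0∞) / ((j + 1 : ℕ) : ℝ≥0∞)) ^ x) atTop (𝓝 1) := by
    have h1 : Tendsto (fun j : ℕ => ((j : ℝ) / ((j : ℝ) + 1)) ^ x) atTop (𝓝 (1 ^ x)) :=
      tendsto_natCast_div_add_atTop (1 : ℝ) |>.pow x
    have h2 := (ENNReal.continuous_ofReal.tendsto _).comp h1
    rw [one_pow, ENNReal.ofReal_one] at h2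
    refine h2.congr fun j => ?_
    simp only [Function.comp]
    rw [ENNReal.ofReal_pow (by positivity), ENNReal.ofReal_div_of_pos (by positivity),
      ENNReal.ofReal_natCast, ENNReal.ofReal_add (by positivity) (by positivity),
      ENNReal.ofReal_natCast, ENNReal.ofReal_one]
    push_cast
    rfl
  have h3 : PP (rho κ) {ζ | ∃ j, U j ζ x = 0} = 1 := by
    refine le_antisymm prob_le_one ?_
    refine le_of_tendsto hlim (Eventually.of_forall fun j => ?_)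
    have h4 := ext_prob κ j x
    rw [gs_nat] at h4
    exact h4.trans (measure_mono fun ζ hζ => ⟨j, hζ⟩)
  have hm : MeasurableSet {ζ : ℕ → Stk | ∃ j, U j ζ x = 0} := by
    have : {ζ : ℕ → Stk | ∃ j, U j ζ x = 0} = ⋃ j, {ζ | U j ζ x = 0} := by ext; simp
    rw [this]
    exact MeasurableSet.iUnion fun j => meas_Uz j x
  have h5 := (prob_compl_eq_zero_iff hm).2 h3
  exact h5

/-- the total progeny is finite -/
theorem sum_fin : ∀ᵐ ζ ∂(PP (rho κ)), ∀ x : ℕ, ∑' j, (U j ζ x : ℝ≥0∞) < ⊤ := by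
  have h1 : ∀ᵐ ζ ∂(PP (rho κ)), ∀ x : ℕ, ∃ j, U j ζ x = 0 := ae_all_iff.2 fun x => ext_ae κ x
  have h2 : ∀ᵐ ζ ∂(PP (rho κ)), ∀ j m : ℕ, F (ζ j) m ≠ ⊤ := by
    refine ae_all_iff.2 fun j => ae_all_iff.2 fun m => ?_
    exact (measurePreserving_eval_infinitePi (fun _ : ℕ => rho κ) j).quasiMeasurePreserving.ae
      (F_fin_ae κ m)
  filter_upwards [h1, h2] with ζ hz hF x
  obtain ⟨j, hj⟩ := hz x
  have hfin : ∀ i, U i ζ x ≠ ⊤ := by
    intro i
    induction i with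
    | zero => exact ENat.natCast_ne_top x
    | succ i ih =>
      obtain ⟨k, hk⟩ := ENat.ne_top_iff_exists.1 ih
      rw [U_succ, ← hk]
      exact hF i k
  rw [tsum_eq_sum (s := Finset.range j)]
  · rw [ENNReal.sum_lt_top]
    intro i _
    obtain ⟨k, hk⟩ := ENat.ne_top_iff_exists.1 (hfin i)
    rw [← hk]
    simp
  · intro i hi
    have hij : j ≤ i := by simpa using hi
    obtain ⟨k, rfl⟩ := Nat.exists_eq_add_of_le hij
    rw [U_zero_of j k ζ x hj]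
    simp

end

end Pool.Agent.K7.H98.EW
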