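import Mathlib
import Pool.Agent.Helper964.Cons

set_option autoImplicit false

/-!
The number of arrows to the left before the `m`-th arrow to the right in a stack of arrows.
-/

open MeasureTheory Set
open scoped ENNReal

namespace Pool.Agent.K7.H98.EW

open Pool.Agent.Helper964.Cons

/-- stacks of arrows: `true` is a step to the right -/
abbrev Stk : Type := ℕ → Bool

/-- number of arrows to the right among the first `i` -/
def T (s : Stk) (i : ℕ) : ℕ := Nat.count (fun j => s j = true) i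

/-- the arrows to the left with index smaller than `N` which come before the `m`-th arrow to the
right -/
def FS (N : ℕ∞) (s : Stk) (m : ℕ∞) : Set ℕ :=
  {i | (i : ℕ∞) < N ∧ s i = false ∧ (T s i : ℕ∞) < m}

/-- their number -/
noncomputable def FN (N : ℕ∞) (s : Stk) (m : ℕ∞) : ℕ∞ := (FS N s m).encard

/-- the number of arrows to the left before the `m`-th arrow to the right -/
noncomputable def F (s : Stk) (m : ℕ∞) : ℕ∞ := FN ⊤ s m

lemma T_zero (s : Stk) : T s 0 = 0 := rfl

lemma T_succ (s : Stk) (i : ℕ) : T s (i + 1) = T s i + if s i = true then 1 else 0 := by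
  unfold T; rw [Nat.count_succ]

lemma T_cons (b : Bool) (s : Stk) (i : ℕ) :
    T (cons (b, s)) (i + 1) = T s i + if b = true then 1 else 0 := by
  induction i with
  | zero => rw [T_succ, T_zero, T_zero, cons_zero]
  | succ i ih => rw [T_succ, ih, T_succ s i, cons_succ]; exact Nat.add_right_comm _ _ _

lemma T_mono (s : Stk) : Monotone (T s) := Nat.count_monotone _

lemma T_le {a b : Stk} (h : ∀ i, b i = true → a i = true) (i : ℕ) : T b i ≤ T a i := by
  induction i with
  | zero => simp [T_zero]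
  | succ i ih =>
    rw [T_succ, T_succ]
    by_cases hb : b i = true
    · rw [if_pos hb, if_pos (h i hb)]; omega
    · rw [if_neg hb]; omega

lemma T_le_self (s : Stk) (i : ℕ) : T s i ≤ i := Nat.count_le _

lemma FS_mono (s : Stk) {N N' m m' : ℕ∞} (hN : N ≤ N') (hm : m ≤ m') : FS N s m ⊆ FS N' s m' :=
  fun _ hi => ⟨lt_of_lt_of_le hi.1 hN, hi.2.1, lt_of_lt_of_le hi.2.2 hm⟩

lemma FN_mono (s : Stk) {N N' m m' : ℕ∞} (hN : N ≤ N') (hm : m ≤ m') : FN N s m ≤ FN N' s m' :=
  encard_le_encard (FS_mono s hN hm)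

lemma F_mono (s : Stk) : Monotone (F s) := fun _ _ h => FN_mono s le_rfl h

lemma FN_zero (N : ℕ∞) (s : Stk) : FN N s 0 = 0 := by
  rw [FN, encard_eq_zero]
  ext i; simp [FS]

lemma FN_zero_left (s : Stk) (m : ℕ∞) : FN 0 s m = 0 := by
  rw [FN, encard_eq_zero]
  ext i; simp [FS]

lemma F_zero (s : Stk) : F s 0 = 0 := FN_zero _ _

/-- more arrows to the right, fewer arrows to the left -/
lemma FN_anti {a b : Stk} (h : ∀ i, b i = true → a i = true) (N m : ℕ∞) : FN N a m ≤ FN N b m := by
  refine encard_le_encard fun i hi => ⟨hi.1, ?_, ?_⟩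
  · by_contra hb
    have : b i = true := by simpa using hb
    have h2 := h i this
    rw [hi.2.1] at h2
    exact absurd h2 (by simp)
  · exact lt_of_le_of_lt (by exact_mod_cast T_le h i) hi.2.2

lemma F_anti {a b : Stk} (h : ∀ i, b i = true → a i = true) (m : ℕ∞) : F a m ≤ F b m :=
  FN_anti h _ m

lemma enat_succ_lt (j : ℕ) (N : ℕ∞) : (((j + 1 : ℕ) : ℕ∞) < N + 1) ↔ ((j : ℕ∞) < N) := by
  induction N using ENat.recTopCoe with
  | top => simp
  | coe n => norm_cast; omega

lemma FN_cons_true (N : ℕ∞) (s : Stk) (m : ℕ∞) :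
    FN (N + 1) (cons (true, s)) (m + 1) = FN N s m := by
  have : FS (N + 1) (cons (true, s)) (m + 1) = Nat.succ '' FS N s m := by
    ext i
    cases i with
    | zero => simp [FS]
    | succ i =>
      simp only [FS, mem_ofPred_eq, cons_succ, T_cons, if_true, mem_image, Nat.succ_eq_add_one,
        Nat.add_right_cancel_iff, exists_eq_right]
      rw [enat_succ_lt, enat_succ_lt]
  rw [FN, this, (Nat.succ_injective).encard_image]
  rfl

lemma FN_cons_false (N : ℕ∞) (s : Stk) {m : ℕ∞} (hm : 0 < m) :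
    FN (N + 1) (cons (false, s)) m = FN N s m + 1 := by
  have : FS (N + 1) (cons (false, s)) m = insert 0 (Nat.succ '' FS N s m) := by
    ext i
    cases i with
    | zero => simp [FS, hm, T_zero]
    | succ i =>
      simp only [FS, mem_ofPred_eq, cons_succ, T_cons, mem_insert_iff, mem_image,
        Nat.succ_eq_add_one, Nat.add_right_cancel_iff, exists_eq_right]
      rw [enat_succ_lt]
      simp
  rw [FN, this, encard_insert_of_notMem (by simp), (Nat.succ_injective).encard_image]
  rfl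

lemma F_cons_true (s : Stk) (m : ℕ∞) : F (cons (true, s)) (m + 1) = F s m := by
  have := FN_cons_true ⊤ s m
  rwa [top_add] at this

lemma F_cons_false (s : Stk) {m : ℕ∞} (hm : 0 < m) : F (cons (false, s)) m = F s m + 1 := by
  have := FN_cons_false ⊤ s hm
  rwa [top_add] at this

/-! ### suprema -/

lemma le_of_forall_nat {x y : ℕ∞} (h : ∀ k : ℕ, (k : ℕ∞) ≤ x → (k : ℕ∞) ≤ y) : x ≤ y := by
  induction x using ENat.recTopCoe with
  | top =>
    rw [top_le_iff]
    by_contra hy
    obtain ⟨n, rfl⟩ := ENat.ne_top_iff_exists.1 hy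
    have := h (n + 1) le_top
    norm_cast at this
    omega
  | coe n => exact h n le_rfl

lemma encard_iUnion_mono {A : ℕ → Set ℕ} (hA : Monotone A) :
    (⋃ n, A n).encard = ⨆ n, (A n).encard := by
  apply le_antisymm
  · refine le_of_forall_nat fun k hk => ?_
    obtain ⟨t, ht, htk⟩ := exists_subset_encard_eq hk
    have htf : t.Finite := finite_of_encard_eq_coe htk
    have : ∃ n, t ⊆ A n := by
      have h1 : ∀ i ∈ t, ∃ n, i ∈ A n := fun i hi => mem_iUnion.1 (ht hi)
      choose! g hg using h1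
      obtain ⟨M, hM⟩ := (htf.image g).bddAbove
      exact ⟨M, fun i hi => hA (hM (mem_image_of_mem g hi)) (hg i hi)⟩
    obtain ⟨n, hn⟩ := this
    rw [← htk]
    exact (encard_le_encard hn).trans (le_iSup (fun n => (A n).encard) n)
  · exact iSup_le fun n => encard_le_encard (subset_iUnion A n)

lemma enat_iSup_cases {x : ℕ → ℕ∞} (hx : Monotone x) :
    (∃ n, ∀ k, n ≤ k → x k = ⨆ n, x n) ∨ ((⨆ n, x n) = ⊤ ∧ ∀ j : ℕ, ∃ n, (j : ℕ∞) ≤ x n) := by
  by_cases h : (⨆ n, x n) = ⊤
  · right
    refine ⟨h, fun j => ?_⟩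
    have h1 : (j : ℕ∞) < ⨆ n, x n := by rw [h]; exact ENat.natCast_lt_top j
    obtain ⟨n, hn⟩ := lt_iSup_iff.1 h1
    exact ⟨n, hn.le⟩
  · left
    obtain ⟨m, hm⟩ := ENat.ne_top_iff_exists.1 h
    rcases Nat.eq_zero_or_pos m with rfl | hpos
    · refine ⟨0, fun k _ => ?_⟩
      rw [← hm]
      have : x k ≤ ((0 : ℕ) : ℕ∞) := by rw [hm]; exact le_iSup x k
      simpa using this
    · have h1 : (((m - 1 : ℕ)) : ℕ∞) < ⨆ n, x n := by
        rw [← hm]; norm_cast; omega
      obtain ⟨n, hn⟩ := lt_iSup_iff.1 h1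
      refine ⟨n, fun k hk => le_antisymm (le_iSup x k) ?_⟩
      rw [← hm]
      have h2 : (((m - 1 : ℕ)) : ℕ∞) + 1 ≤ x k :=
        Order.add_one_le_of_lt (lt_of_lt_of_le hn (hx hk))
      have h3 : (((m - 1 : ℕ)) : ℕ∞) + 1 = (m : ℕ∞) := by
        have : m - 1 + 1 = m := by omega
        exact_mod_cast this
      rwa [h3] at h2

/-- monotone functions continuous at infinity commute with suprema of increasing sequences -/
lemma map_iSup_enat {β : Type*} [CompleteLattice β] {φ : ℕ∞ → β} (hφ : Monotone φ)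
    (ht : φ ⊤ ≤ ⨆ j : ℕ, φ j) {x : ℕ → ℕ∞} (hx : Monotone x) :
    φ (⨆ n, x n) = ⨆ n, φ (x n) := by
  apply le_antisymm
  · rcases enat_iSup_cases hx with ⟨n, hn⟩ | ⟨h1, h2⟩
    · rw [← hn n le_rfl]; exact le_iSup (fun n => φ (x n)) n
    · rw [h1]
      refine ht.trans (iSup_le fun j => ?_)
      obtain ⟨n, hn⟩ := h2 j
      exact (hφ hn).trans (le_iSup (fun n => φ (x n)) n)
  · exact iSup_le fun n => hφ (le_iSup x n)

lemma F_top_le (s : Stk) : F s ⊤ ≤ ⨆ j : ℕ, F s j := by
  have h1 : FS ⊤ s ⊤ = ⋃ j : ℕ, FS ⊤ s (j : ℕ∞) := by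
    ext i
    simp only [mem_iUnion]
    constructor
    · intro h
      refine ⟨T s i + 1, h.1, h.2.1, ?_⟩
      norm_cast; omega
    · rintro ⟨j, h⟩
      exact ⟨h.1, h.2.1, ENat.natCast_lt_top _⟩
  have h2 : Monotone (fun j : ℕ => FS ⊤ s (j : ℕ∞)) := fun i j hij =>
    FS_mono s le_rfl (by exact_mod_cast hij)
  show (FS ⊤ s ⊤).encard ≤ _
  rw [h1, encard_iUnion_mono h2]
  rfl

lemma F_iSup (s : Stk) {x : ℕ → ℕ∞} (hx : Monotone x) : F s (⨆ n, x n) = ⨆ n, F s (x n) :=
  map_iSup_enat (F_mono s) (F_top_le s) hx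

lemma add_one_iSup {x : ℕ → ℕ∞} (hx : Monotone x) : (⨆ n, x n) + 1 = ⨆ n, (x n + 1) := by
  refine map_iSup_enat (φ := fun y : ℕ∞ => y + 1) (fun a b h => by
    show a + 1 ≤ b + 1
    gcongr) ?_ hx
  simp only [top_add]
  rw [top_le_iff, iSup_eq_top]
  intro b hb
  obtain ⟨n, rfl⟩ := ENat.ne_top_iff_exists.1 hb.ne
  exact ⟨n, by norm_cast; omega⟩

lemma F_eq_iSup (s : Stk) (m : ℕ∞) : F s m = ⨆ n : ℕ, FN n s m := by
  have h1 : FS ⊤ s m = ⋃ n : ℕ, FS (n : ℕ∞) s m := by
    ext i
    simp only [mem_iUnion]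
    constructor
    · intro h
      refine ⟨i + 1, ?_, h.2⟩
      norm_cast; omega
    · rintro ⟨j, h⟩
      exact ⟨ENat.natCast_lt_top _, h.2⟩
  have h2 : Monotone (fun n : ℕ => FS (n : ℕ∞) s m) := fun i j hij =>
    FS_mono s (by exact_mod_cast hij) le_rfl
  show (FS ⊤ s m).encard = _
  rw [h1, encard_iUnion_mono h2]
  rfl

/-! ### measurability -/

lemma meas_encard {X : Type*} [MeasurableSpace X] (A : X → Set ℕ)
    (hA : ∀ i, MeasurableSet {x | i ∈ A x}) : Measurable (fun x => (A x).encard) := by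
  have h1 : ∀ x, ((A x).encard : ℝ≥0∞) = ∑' i, (A x).indicator (fun _ => (1 : ℝ≥0∞)) i := by
    intro x
    rw [← tsum_subtype (A x) (fun _ => (1 : ℝ≥0∞)), ENNReal.tsum_set_one]
  have h2 : Measurable (fun x => ((A x).encard : ℝ≥0∞)) := by
    simp_rw [h1]
    refine Measurable.tsum fun i => ?_
    have : (fun x => (A x).indicator (fun _ => (1 : ℝ≥0∞)) i) =
        {x | i ∈ A x}.indicator (fun _ => (1 : ℝ≥0∞)) := by
      funext x
      by_cases hx : i ∈ A x
      · rw [indicator_of_mem hx, indicator_of_mem (by exact hx)]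
      · rw [indicator_of_notMem hx, indicator_of_notMem (by exact hx)]
    rw [this]
    exact measurable_const.indicator (hA i)
  refine measurable_to_countable' fun k => ?_
  have : (fun x => (A x).encard) ⁻¹' {k} = (fun x => ((A x).encard : ℝ≥0∞)) ⁻¹' {(k : ℝ≥0∞)} := by
    ext x
    simp
  rw [this]
  exact h2 (measurableSet_singleton _)

lemma meas_T (i : ℕ) : Measurable (fun s : Stk => T s i) := by
  induction i with
  | zero => simp only [T_zero]; exact measurable_const
  | succ i ih =>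
    simp only [T_succ]
    refine ih.add (Measurable.ite ?_ measurable_const measurable_const)
    exact (measurable_pi_apply i : Measurable fun s : Stk => s i) (measurableSet_singleton true)

lemma meas_FN (N m : ℕ∞) : Measurable (fun s : Stk => FN N s m) := by
  refine meas_encard (fun s => FS N s m) fun i => ?_
  have : {s : Stk | i ∈ FS N s m} = {s : Stk | (i : ℕ∞) < N} ∩ ((fun s : Stk => s i) ⁻¹' {false} ∩
      (fun s : Stk => T s i) ⁻¹' {k | (k : ℕ∞) < m}) := by
    ext s; simp [FS]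
  rw [this]
  exact (MeasurableSet.const _).inter (((measurable_pi_apply i) (measurableSet_singleton false)).inter
    ((meas_T i) MeasurableSet.of_discrete))

lemma meas_F (m : ℕ∞) : Measurable (fun s : Stk => F s m) := meas_FN _ _

lemma meas_F2 : Measurable (fun p : Stk × ℕ∞ => F p.1 p.2) :=
  measurable_from_prod_countable_left fun m => meas_F m

end Pool.Agent.K7.H98.EW
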