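import Pool.Agent.K7.H98.EW.F

set_option autoImplicit false

/-!
Moments of the number of tails before the `m`-th head for a fair coin.
-/

open MeasureTheory Set
open scoped ENNReal

namespace Pool.Agent.K7.H98.EW

open Pool.Agent.Helper964.Cons

/-- the fair coin -/
noncomputable def fair : Measure Bool :=
  (2⁻¹ : ℝ≥0∞) • Measure.dirac true + (2⁻¹ : ℝ≥0∞) • Measure.dirac false

instance : IsProbabilityMeasure fair := by
  constructor
  simp only [fair, Measure.add_apply, Measure.smul_apply, measure_univ, smul_eq_mul, mul_one]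
  exact ENNReal.inv_two_add_inv_two

lemma lint_fair (g : Bool → ℝ≥0∞) :
    ∫⁻ b, g b ∂fair = 2⁻¹ * g true + 2⁻¹ * g false := by
  rw [fair, lintegral_add_measure, lintegral_smul_measure, lintegral_smul_measure,
    lintegral_dirac, lintegral_dirac, smul_eq_mul, smul_eq_mul]

/-- fair coin tosses -/
noncomputable def nu : Measure Stk := Measure.infinitePi (fun _ : ℕ => fair)

instance : IsProbabilityMeasure nu := by unfold nu; infer_instance

/-- the first coordinate of a product measure -/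
lemma lint_cons {S : Type*} [MeasurableSpace S] (ρ : Measure S) [IsProbabilityMeasure ρ]
    {φ : (ℕ → S) → ℝ≥0∞} (hφ : Measurable φ) :
    ∫⁻ s, φ s ∂(Measure.infinitePi fun _ : ℕ => ρ) =
      ∫⁻ b, ∫⁻ s, φ (cons (b, s)) ∂(Measure.infinitePi fun _ : ℕ => ρ) ∂ρ := by
  conv_lhs => rw [← map_cons ρ]
  rw [lintegral_map hφ measurable_cons, lintegral_prod _
    (show Measurable (fun p : S × (ℕ → S) => φ (cons p)) from hφ.comp measurable_cons).aemeasurable]

lemma lint_nu {φ : Stk → ℝ≥0∞} (hφ : Measurable φ) : ∫⁻ s, φ s ∂nu =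
    2⁻¹ * ∫⁻ s, φ (cons (true, s)) ∂nu + 2⁻¹ * ∫⁻ s, φ (cons (false, s)) ∂nu := by
  rw [nu, lint_cons fair hφ, lint_fair]

/-- the function `x ↦ x` -/
noncomputable def p1 (x : ℕ∞) : ℝ≥0∞ := (x : ℝ≥0∞)

/-- the function `x ↦ x (x - 1)` -/
noncomputable def p2 (x : ℕ∞) : ℝ≥0∞ := (x : ℝ≥0∞) * ((x : ℝ≥0∞) - 1)

lemma p1_nat (n : ℕ) : p1 n = n := by simp [p1]

lemma p1_add_one (x : ℕ∞) : p1 (x + 1) = p1 x + 1 := by
  simp [p1]

lemma p2_nat (n : ℕ) : p2 n = ((n * (n - 1) : ℕ) : ℝ≥0∞) := by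
  simp [p2]

lemma p2_add_one (x : ℕ∞) : p2 (x + 1) = p2 x + 2 * p1 x := by
  induction x using ENat.recTopCoe with
  | top => simp [p1, p2]
  | coe n =>
    have : ((n : ℕ∞) + 1) = ((n + 1 : ℕ) : ℕ∞) := by norm_cast
    rw [this, p2_nat, p2_nat, p1_nat]
    norm_cast
    cases n with
    | zero => simp
    | succ n => simp only [Nat.add_sub_cancel]; ring

lemma p1_mono : Monotone p1 := fun _ _ h => by
  simp only [p1]; exact_mod_cast h

lemma p2_mono : Monotone p2 := fun a b h => by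
  have h1 : (a : ℝ≥0∞) ≤ (b : ℝ≥0∞) := by exact_mod_cast h
  simp only [p2]
  gcongr

lemma p1_top_le : p1 ⊤ ≤ ⨆ j : ℕ, p1 j := by
  simp only [p1_nat]
  rw [ENNReal.iSup_natCast]
  exact le_top

lemma p2_top_le : p2 ⊤ ≤ ⨆ j : ℕ, p2 j := by
  have h1 : (⨆ j : ℕ, p2 j) = ⊤ := by
    rw [iSup_eq_top]
    intro b hb
    obtain ⟨n, hn⟩ := ENNReal.exists_nat_gt hb.ne
    refine ⟨n + 2, lt_of_lt_of_le hn ?_⟩
    have : ((n + 2 : ℕ) : ℕ∞) = ((n + 2 : ℕ) : ℕ∞) := rfl
    rw [p2_nat]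
    norm_cast
    have : n + 2 - 1 = n + 1 := by omega
    rw [this]
    nlinarith
  rw [h1]; exact le_top

lemma meas_enat_fun {β : Type*} [MeasurableSpace β] (φ : ℕ∞ → β) : Measurable φ :=
  measurable_of_countable φ

/-! ### recursions -/

lemma half_eq {a b c : ℝ≥0∞} (h : a + b = 2 * c) : 2⁻¹ * a + 2⁻¹ * b = c := by
  rw [← mul_add, h, ← mul_assoc, ENNReal.inv_mul_cancel (by norm_num) (by norm_num), one_mul]

lemma half_le {a b c : ℝ≥0∞} (h : a + b ≤ 2 * c) : 2⁻¹ * a + 2⁻¹ * b ≤ c := by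
  rw [← mul_add]
  calc 2⁻¹ * (a + b) ≤ 2⁻¹ * (2 * c) := by gcongr
    _ = c := by
      rw [← mul_assoc, ENNReal.inv_mul_cancel (by norm_num) (by norm_num), one_mul]

lemma rec_FN (φ : ℕ∞ → ℝ≥0∞) (N m : ℕ∞) :
    ∫⁻ s, φ (FN (N + 1) s (m + 1)) ∂nu =
      2⁻¹ * ∫⁻ s, φ (FN N s m) ∂nu + 2⁻¹ * ∫⁻ s, φ (FN N s (m + 1) + 1) ∂nu := by
  rw [lint_nu (show Measurable (fun s => φ (FN (N + 1) s (m + 1))) from
    (meas_enat_fun φ).comp (meas_FN _ _))]
  have h0 : (0 : ℕ∞) < m + 1 := by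
    exact lt_of_lt_of_le zero_lt_one le_add_self
  simp only [FN_cons_true, FN_cons_false _ _ h0]

lemma rec_F (φ : ℕ∞ → ℝ≥0∞) (m : ℕ∞) :
    ∫⁻ s, φ (F s (m + 1)) ∂nu =
      2⁻¹ * ∫⁻ s, φ (F s m) ∂nu + 2⁻¹ * ∫⁻ s, φ (F s (m + 1) + 1) ∂nu := by
  have := rec_FN φ ⊤ m
  rwa [top_add] at this

lemma meas_p (φ : ℕ∞ → ℝ≥0∞) (N m : ℕ∞) : Measurable (fun s => φ (FN N s m)) :=
  (meas_enat_fun φ).comp (meas_FN _ _)

lemma trunc1 (n : ℕ) : ∀ m : ℕ, ∫⁻ s, p1 (FN n s m) ∂nu ≤ m := by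
  induction n with
  | zero =>
    intro m
    simp only [Nat.cast_zero, FN_zero_left]
    simp [p1]
  | succ n ih =>
    intro m
    cases m with
    | zero => simp [FN_zero, p1]
    | succ m =>
      have e := rec_FN p1 n m
      push_cast at e ⊢
      rw [e]
      simp only [p1_add_one]
      rw [lintegral_add_right _ measurable_const]
      simp only [lintegral_const, measure_univ, mul_one]
      have h1 := ih m
      have h2 := ih (m + 1)
      push_cast at h2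
      refine half_le ?_
      calc ∫⁻ s, p1 (FN n s m) ∂nu + (∫⁻ s, p1 (FN n s (m + 1)) ∂nu + 1)
          ≤ m + ((m + 1) + 1) := by gcongr
        _ = 2 * (m + 1) := by ring

lemma trunc2 (n : ℕ) : ∀ m : ℕ, ∫⁻ s, p2 (FN n s m) ∂nu ≤ m * (m + 1) := by
  induction n with
  | zero =>
    intro m
    simp only [Nat.cast_zero, FN_zero_left]
    simp [p2]
  | succ n ih =>
    intro m
    cases m with
    | zero => simp [FN_zero, p2]
    | succ m =>
      have e := rec_FN p2 n m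
      push_cast at e ⊢
      rw [e]
      simp only [p2_add_one]
      rw [lintegral_add_right _ ((meas_p p1 _ _).const_mul 2), lintegral_const_mul _ (meas_p p1 _ _)]
      have h1 := ih m
      have h2 := ih (m + 1)
      have h3 := trunc1 n (m + 1)
      push_cast at h2 h3
      refine half_le ?_
      calc ∫⁻ s, p2 (FN n s m) ∂nu + (∫⁻ s, p2 (FN n s (m + 1)) ∂nu +
            2 * ∫⁻ s, p1 (FN n s (m + 1)) ∂nu)
          ≤ m * (m + 1) + ((m + 1) * (m + 1 + 1) + 2 * (m + 1)) := by gcongr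
        _ = 2 * ((m + 1) * (m + 1 + 1)) := by ring

/-- monotone limits -/
lemma lint_iSup_F (ρ : Measure Stk) {φ : ℕ∞ → ℝ≥0∞} (hφ : Monotone φ) (ht : φ ⊤ ≤ ⨆ j : ℕ, φ j)
    (m : ℕ∞) : ∫⁻ s, φ (F s m) ∂ρ = ⨆ n : ℕ, ∫⁻ s, φ (FN n s m) ∂ρ := by
  have h1 : ∀ s, φ (F s m) = ⨆ n : ℕ, φ (FN n s m) := by
    intro s
    rw [F_eq_iSup]
    exact map_iSup_enat hφ ht (fun a b hab => FN_mono s (by exact_mod_cast hab) le_rfl)
  simp_rw [h1]
  refine lintegral_iSup (fun n => meas_p φ _ _) ?_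
  intro a b hab s
  exact hφ (FN_mono s (by exact_mod_cast hab) le_rfl)

lemma m1_le (m : ℕ) : ∫⁻ s, p1 (F s m) ∂nu ≤ m := by
  rw [lint_iSup_F nu p1_mono p1_top_le]
  exact iSup_le fun n => trunc1 n m

lemma m2_le (m : ℕ) : ∫⁻ s, p2 (F s m) ∂nu ≤ m * (m + 1) := by
  rw [lint_iSup_F nu p2_mono p2_top_le]
  exact iSup_le fun n => trunc2 n m

lemma solve_half {x a c : ℝ≥0∞} (hx : x ≠ ⊤) (h : x = 2⁻¹ * a + 2⁻¹ * (x + c)) : x = a + c := by
  have h2 : 2 * x = a + (x + c) := by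
    conv_lhs => rw [h]
    rw [← mul_add, ← mul_assoc, ENNReal.mul_inv_cancel (by norm_num) (by norm_num), one_mul]
  have h3 : x + x = x + (a + c) := by rw [← two_mul, h2]; ring
  exact (ENNReal.add_right_inj hx).1 h3

lemma m1_eq (m : ℕ) : ∫⁻ s, p1 (F s m) ∂nu = m := by
  induction m with
  | zero => simp [F_zero, p1]
  | succ m ih =>
    have e := rec_F p1 m
    have hfin : ∫⁻ s, p1 (F s ((m + 1 : ℕ) : ℕ∞)) ∂nu ≠ ⊤ :=
      ne_top_of_le_ne_top (ENNReal.natCast_ne_top _) (m1_le (m + 1))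
    push_cast at hfin ⊢
    simp only [p1_add_one] at e
    rw [lintegral_add_right _ measurable_const] at e
    simp only [lintegral_const, measure_univ, mul_one] at e
    rw [solve_half hfin e, ih]

lemma m2_eq (m : ℕ) : ∫⁻ s, p2 (F s m) ∂nu = m * (m + 1) := by
  induction m with
  | zero => simp [F_zero, p2]
  | succ m ih =>
    have e := rec_F p2 m
    have hfin : ∫⁻ s, p2 (F s ((m + 1 : ℕ) : ℕ∞)) ∂nu ≠ ⊤ :=
      ne_top_of_le_ne_top (by finiteness) (m2_le (m + 1))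
    have h3 := m1_eq (m + 1)
    push_cast at hfin h3 ⊢
    simp only [p2_add_one] at e
    rw [lintegral_add_right _ (show Measurable fun s => 2 * p1 (F s (m + 1)) from
      (meas_p p1 _ _).const_mul 2),
      lintegral_const_mul _ (show Measurable fun s => p1 (F s (m + 1)) from meas_p p1 _ _), h3] at e
    rw [solve_half hfin e, ih]
    ring

/-! ### the generating function -/

open Classical in
/-- the function `x ↦ r ^ x` -/
noncomputable def gs (r : ℝ≥0∞) (x : ℕ∞) : ℝ≥0∞ := if x = ⊤ then 0 else r ^ x.toNat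

lemma gs_nat (r : ℝ≥0∞) (n : ℕ) : gs r n = r ^ n := by simp [gs]

lemma gs_top (r : ℝ≥0∞) : gs r ⊤ = 0 := by simp [gs]

lemma gs_add_one (r : ℝ≥0∞) (x : ℕ∞) : gs r (x + 1) = r * gs r x := by
  induction x using ENat.recTopCoe with
  | top => simp [gs_top]
  | coe n =>
    have : ((n : ℕ∞) + 1) = ((n + 1 : ℕ) : ℕ∞) := by norm_cast
    rw [this, gs_nat, gs_nat, pow_succ, mul_comm]

lemma gs_anti {r : ℝ≥0∞} (hr : r ≤ 1) : Antitone (gs r) := by
  intro a b hab
  induction b using ENat.recTopCoe with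
  | top => rw [gs_top]; exact zero_le
  | coe n =>
    obtain ⟨k, rfl⟩ := ENat.ne_top_iff_exists.1 (ne_top_of_le_ne_top (ENat.natCast_ne_top n) hab)
    rw [gs_nat, gs_nat]
    exact pow_le_pow_of_le_one (zero_le) hr (by exact_mod_cast hab)

lemma gs_le_one {r : ℝ≥0∞} (hr : r ≤ 1) (x : ℕ∞) : gs r x ≤ 1 := by
  have := gs_anti hr (zero_le (a := x))
  have h0 : gs r 0 = 1 := by
    have := gs_nat r 0
    simpa using this
  rwa [h0] at this

lemma gf_eq {r r' : ℝ≥0∞} (hr : r ≤ 1) (hr' : r' * 2 = 1 + r' * r) (hr1 : r' ≤ 1) (m : ℕ) :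
    ∫⁻ s, gs r (F s m) ∂nu = r' ^ m := by
  induction m with
  | zero =>
    have h0 : gs r 0 = 1 := by
      have := gs_nat r 0
      simpa using this
    simp [F_zero, h0]
  | succ m ih =>
    have e := rec_F (gs r) m
    simp only [gs_add_one] at e
    rw [lintegral_const_mul _ (show Measurable fun s => gs r (F s (m + 1)) from meas_p _ _ _), ih] at e
    push_cast
    set x := ∫⁻ s, gs r (F s (m + 1)) ∂nu with hx
    have hx1 : x ≤ 1 := by
      calc x ≤ ∫⁻ _, 1 ∂nu := lintegral_mono fun s => gs_le_one hr _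
        _ = 1 := by simp
    have hxt : x ≠ ⊤ := ne_top_of_le_ne_top ENNReal.one_ne_top hx1
    have hrt : r ≠ ⊤ := ne_top_of_le_ne_top ENNReal.one_ne_top hr
    have hrt' : r' ≠ ⊤ := ne_top_of_le_ne_top ENNReal.one_ne_top hr1
    have h2 : 2 * x = r' ^ m + r * x := by
      conv_lhs => rw [e]
      rw [← mul_add, ← mul_assoc, ENNReal.mul_inv_cancel (by norm_num) (by norm_num), one_mul]
    -- to the reals
    clear hx e
    clear_value x
    lift x to NNReal using hxt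
    lift r to NNReal using hrt
    lift r' to NNReal using hrt'
    norm_cast at h2 hr' ⊢
    have h3 : (2 : ℝ) * x = r' ^ m + r * x := by exact_mod_cast h2
    have h4 : (r' : ℝ) * 2 = 1 + r' * r := by exact_mod_cast hr'
    have h5 : (x : ℝ) = r' ^ (m + 1) := by
      have : (r' : ℝ) * (2 * x) = r' * (r' ^ m + r * x) := by rw [h3]
      have h6 : (r' : ℝ) * 2 * x = r' ^ (m + 1) + r' * r * x := by rw [pow_succ]; linarith
      rw [h4] at h6
      linarith
    exact_mod_cast h5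

end Pool.Agent.K7.H98.EW
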