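import Pool.Agent.K7.H98.EW.OrS

set_option autoImplicit false

/-!
Moments of the number of arrows to the left before the `m`-th arrow to the right, for a fair stack
with random forced arrows.
-/

open MeasureTheory Set Filter Topology
open scoped ENNReal

namespace Pool.Agent.K7.H98.EW

open Pool.Agent.Helper964.Cons

variable (κ : Measure Stk) [IsProbabilityMeasure κ]

lemma meas_orS : Measurable (fun p : Stk × Stk => orS p.1 p.2) := by
  refine measurable_pi_lambda _ fun i => ?_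
  have h1 : Measurable (fun p : Stk × Stk => (p.1 i, p.2 i)) :=
    ((measurable_pi_apply i).comp measurable_fst).prodMk
      ((measurable_pi_apply i).comp measurable_snd)
  exact (measurable_of_countable (fun q : Bool × Bool => q.1 || q.2)).comp h1

omit [IsProbabilityMeasure κ] in
lemma meas_pF (φ : ℕ∞ → ℝ≥0∞) (m : ℕ∞) : Measurable (fun s => φ (F s m)) := meas_p φ ⊤ m

/-- the law of the stack of arrows: forced arrows with law `κ`, otherwise fair coins -/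
noncomputable def rho : Measure Stk := (κ.prod nu).map (fun p => orS p.1 p.2)

instance : IsProbabilityMeasure (rho κ) := Measure.isProbabilityMeasure_map meas_orS.aemeasurable

lemma lint_rho {φ : Stk → ℝ≥0∞} (hφ : Measurable φ) :
    ∫⁻ s, φ s ∂(rho κ) = ∫⁻ B, ∫⁻ b, φ (orS B b) ∂nu ∂κ := by
  rw [rho, lintegral_map hφ meas_orS, lintegral_prod _
    (show Measurable fun p : Stk × Stk => φ (orS p.1 p.2) from hφ.comp meas_orS).aemeasurable]

lemma orS_ge (B b : Stk) (i : ℕ) (h : b i = true) : orS B b i = true := by simp [orS, h]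

/-- (S1) -/
lemma dom_le {φ : ℕ∞ → ℝ≥0∞} (hφ : Monotone φ) (m : ℕ∞) :
    ∫⁻ s, φ (F s m) ∂(rho κ) ≤ ∫⁻ s, φ (F s m) ∂nu := by
  rw [lint_rho κ (meas_pF φ m)]
  calc ∫⁻ B, ∫⁻ b, φ (F (orS B b) m) ∂nu ∂κ ≤ ∫⁻ _, ∫⁻ b, φ (F b m) ∂nu ∂κ := by
        refine lintegral_mono fun B => lintegral_mono fun b => hφ (F_anti (orS_ge B b) m)
    _ = ∫⁻ s, φ (F s m) ∂nu := by simp

lemma dom_ge {φ : ℕ∞ → ℝ≥0∞} (hφ : Antitone φ) (m : ℕ∞) :
    ∫⁻ s, φ (F s m) ∂nu ≤ ∫⁻ s, φ (F s m) ∂(rho κ) := by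
  rw [lint_rho κ (meas_pF φ m)]
  calc ∫⁻ s, φ (F s m) ∂nu = ∫⁻ _, ∫⁻ b, φ (F b m) ∂nu ∂κ := by simp
    _ ≤ ∫⁻ B, ∫⁻ b, φ (F (orS B b) m) ∂nu ∂κ := by
        refine lintegral_mono fun B => lintegral_mono fun b => hφ (F_anti (orS_ge B b) m)

lemma S1a (m : ℕ) : ∫⁻ s, p1 (F s m) ∂(rho κ) ≤ m := (dom_le κ p1_mono m).trans (m1_le m)

lemma S1b (m : ℕ) : ∫⁻ s, p2 (F s m) ∂(rho κ) ≤ m * (m + 1) :=
  (dom_le κ p2_mono m).trans (m2_le m)

/-- (S5) -/
lemma S5 {r r' : ℝ≥0∞} (hr : r ≤ 1) (hr' : r' * 2 = 1 + r' * r) (hr1 : r' ≤ 1) (m : ℕ) :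
    r' ^ m ≤ ∫⁻ s, gs r (F s m) ∂(rho κ) := by
  rw [← gf_eq hr hr' hr1 m]
  exact dom_ge κ (gs_anti hr) m

lemma meas_not : Measurable (fun (b : Stk) i => !b i) :=
  measurable_pi_lambda _ fun i => (measurable_of_countable not).comp (measurable_pi_apply i)

/-- (S7) the reflected stack -/
lemma S7 (m : ℕ) : (m : ℝ≥0∞) ≤ ∫⁻ s, p1 (F s m) ∂((rho κ).map (fun (b : Stk) i => !b i)) := by
  rw [lintegral_map (meas_pF p1 m) meas_not, lint_rho κ
    (show Measurable fun s : Stk => p1 (F (fun i => !s i) m) from (meas_pF p1 m).comp meas_not)]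
  calc (m : ℝ≥0∞) = ∫⁻ s, p1 (F s m) ∂nu := (m1_eq m).symm
    _ = ∫⁻ s, p1 (F (fun i => !s i) m) ∂nu :=
        (lint_not (φ := fun s => p1 (F s m)) (meas_pF p1 m)).symm
    _ = ∫⁻ _, ∫⁻ b, p1 (F (fun i => !b i) m) ∂nu ∂κ := by simp
    _ ≤ ∫⁻ B, ∫⁻ b, p1 (F (fun i => !orS B b i) m) ∂nu ∂κ := by
        refine lintegral_mono fun B => lintegral_mono fun b => p1_mono (F_anti ?_ m)
        intro i h
        have : b i = false := by
          cases hb : b i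
          · rfl
          · simp [orS, hb] at h
        simp [this]

/-- the number of forced arrows -/
noncomputable def uS (B : Stk) : ℕ∞ := {i | B i = true}.encard

lemma meas_uS : Measurable uS := by
  refine meas_encard (fun B : Stk => {i | B i = true}) fun i => ?_
  exact (measurable_pi_apply i : Measurable fun s : Stk => s i) (measurableSet_singleton true)

lemma nat_sq (x : ℕ) : x * (x - 1) + 4 * x = x * (x + 3) := by
  cases x with
  | zero => rfl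
  | succ x => simp only [Nat.add_sub_cancel]; ring

lemma nat_ineq (x U : ℕ) : x * (x - 1) + 4 * x + (if U = 0 then 2 else 0) ≤
    (x + 1 - U) * (x + 1 - U + 1) + 2 * x * U := by
  rw [nat_sq]
  cases U with
  | zero => simp only [if_true, Nat.sub_zero]; nlinarith
  | succ V =>
    rw [if_neg (by omega)]
    rcases Nat.le_total V x with h | h
    · obtain ⟨k, rfl⟩ := Nat.exists_eq_add_of_le' h
      have e : k + V + 1 - (V + 1) = k := by omega
      rw [e]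
      have : V ≤ V * V := Nat.le_mul_self V
      nlinarith
    · have e : x + 1 - (V + 1) = 0 := by omega
      rw [e]
      have h1 : x ≤ x * x := Nat.le_mul_self x
      have h2 : x * x ≤ x * V := Nat.mul_le_mul_left x h
      nlinarith

lemma nat_ineq2 {x U M : ℕ} (h1 : U ≤ M) (h2 : M ≤ x + 1) :
    (x + 1 - U) * (x + 1 - U + 1) + 2 * x * U ≤ x * (x - 1) + 4 * x + (M * M + 2) := by
  rw [nat_sq]
  cases U with
  | zero => simp only [Nat.sub_zero]; nlinarith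
  | succ V =>
    obtain ⟨k, rfl⟩ := Nat.exists_eq_add_of_le' (show V ≤ x by omega)
    have e : k + V + 1 - (V + 1) = k := by omega
    rw [e]
    have : V * V ≤ M * M := Nat.mul_self_le_mul_self (by omega)
    nlinarith

/-- (S2) -/
theorem S2 (hu : ∫⁻ B, (uS B : ℝ≥0∞) ∂κ ≤ 2) (x : ℕ) :
    (x * (x - 1) : ℕ) + 2 * κ {B | uS B = 0} ≤ ∫⁻ s, p2 (F s ((x + 1 : ℕ) : ℕ∞)) ∂(rho κ) := by
  have hfin : ∀ᵐ B ∂κ, uS B ≠ ⊤ := by
    have h1 : ∀ᵐ B ∂κ, (uS B : ℝ≥0∞) < ⊤ :=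
      ae_lt_top ((meas_enat_fun _).comp meas_uS) (ne_top_of_le_ne_top (by norm_num) hu)
    filter_upwards [h1] with B hB h
    rw [h] at hB
    simp at hB
  have hms : MeasurableSet {B | uS B = 0} := meas_uS (measurableSet_singleton 0)
  have hkey : ∀ᵐ B ∂κ, ((x * (x - 1) + 4 * x : ℕ) : ℝ≥0∞) +
      2 * {B | uS B = 0}.indicator (fun _ => (1 : ℝ≥0∞)) B ≤
      (∫⁻ b, p2 (F (orS B b) ((x + 1 : ℕ) : ℕ∞)) ∂nu) + (2 * x : ℕ) * (uS B : ℝ≥0∞) := by
    filter_upwards [hfin] with B hB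
    obtain ⟨U, hU⟩ := ENat.ne_top_iff_exists.1 hB
    have hU' : {i | B i = true}.encard = U := hU.symm
    have h1 : ((x + 1 - U : ℕ) : ℝ≥0∞) * ((x + 1 - U : ℕ) + 1) ≤
        ∫⁻ b, p2 (F (orS B b) ((x + 1 : ℕ) : ℕ∞)) ∂nu := by
      rw [← m2_eq, ← lint_fr (finite_of_encard_eq_coe hU') (meas_pF p2 _)]
      exact lintegral_mono fun b => p2_mono (F_or_ge hU' b (x + 1))
    have h2 : (uS B : ℝ≥0∞) = U := by rw [← hU]; simp
    have h3 : {B | uS B = 0}.indicator (fun _ => (1 : ℝ≥0∞)) B = if U = 0 then 1 else 0 := by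
      by_cases h : U = 0
      · rw [if_pos h, indicator_of_mem]
        show uS B = 0
        rw [← hU, h]; rfl
      · rw [if_neg h, indicator_of_notMem]
        show ¬ uS B = 0
        rw [← hU]
        exact_mod_cast h
    rw [h2, h3]
    refine le_trans ?_ (add_le_add_left h1 _)
    have h4 := nat_ineq x U
    have h5 : ((x * (x - 1) + 4 * x + (if U = 0 then 2 else 0) : ℕ) : ℝ≥0∞) ≤
      (((x + 1 - U) * (x + 1 - U + 1) + 2 * x * U : ℕ) : ℝ≥0∞) := by exact_mod_cast h4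
    have e1 : ((x * (x - 1) + 4 * x + (if U = 0 then 2 else 0) : ℕ) : ℝ≥0∞) =
        ((x * (x - 1) + 4 * x : ℕ) : ℝ≥0∞) + 2 * (if U = 0 then 1 else 0) := by
      split_ifs <;> push_cast <;> ring
    have e2 : (((x + 1 - U) * (x + 1 - U + 1) + 2 * x * U : ℕ) : ℝ≥0∞) =
        ((x + 1 - U : ℕ) : ℝ≥0∞) * ((x + 1 - U : ℕ) + 1) + (2 * x : ℕ) * (U : ℝ≥0∞) := by
      rw [Nat.cast_add, Nat.cast_mul, Nat.cast_mul (2 * x), Nat.cast_add _ 1, Nat.cast_one]
    rwa [e1, e2] at h5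
  have hint := lintegral_mono_ae hkey
  have hus : Measurable (fun B : Stk => (uS B : ℝ≥0∞)) :=
    (meas_enat_fun (fun y : ℕ∞ => (y : ℝ≥0∞))).comp meas_uS
  rw [lintegral_add_left measurable_const, lintegral_const_mul _ (measurable_const.indicator hms),
    lintegral_indicator_const hms, one_mul, lintegral_const, measure_univ, mul_one,
    lintegral_add_right _ (hus.const_mul _), lintegral_const_mul _ hus] at hint
  rw [lint_rho κ (meas_pF p2 _)]
  set A := ∫⁻ B, ∫⁻ b, p2 (F (orS B b) ((x + 1 : ℕ) : ℕ∞)) ∂nu ∂κ with hA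
  have h6 : ((x * (x - 1) : ℕ) + 2 * κ {B | uS B = 0}) + ((4 * x : ℕ) : ℝ≥0∞) ≤
      A + ((4 * x : ℕ) : ℝ≥0∞) := by
    calc ((x * (x - 1) : ℕ) + 2 * κ {B | uS B = 0}) + ((4 * x : ℕ) : ℝ≥0∞)
        = ((x * (x - 1) + 4 * x : ℕ) : ℝ≥0∞) + 2 * κ {B | uS B = 0} := by push_cast; ring
      _ ≤ A + (2 * x : ℕ) * ∫⁻ B, (uS B : ℝ≥0∞) ∂κ := hint
      _ ≤ A + (2 * x : ℕ) * 2 := by gcongr
      _ = A + ((4 * x : ℕ) : ℝ≥0∞) := by push_cast; ring
  exact (ENNReal.add_le_add_iff_right (ENNReal.natCast_ne_top _)).1 h6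

/-- (S3) -/
theorem S3 (M : ℕ) : ∃ C : ℕ, ∀ x : ℕ,
    ∫⁻ s, p2 (F s ((x + 1 : ℕ) : ℕ∞)) ∂(rho κ) + (2 * x : ℕ) * ∫⁻ B, (T B M : ℝ≥0∞) ∂κ ≤
      (x * (x - 1) + 4 * x + C : ℕ) := by
  refine ⟨(M * M + 2) + (M * (M + 1) + 2 * M * M), fun x => ?_⟩
  rw [lint_rho κ (meas_pF p2 _)]
  have hTm : Measurable (fun B : Stk => (T B M : ℝ≥0∞)) :=
    (measurable_of_countable (fun k : ℕ => (k : ℝ≥0∞))).comp (meas_T M)
  rw [← lintegral_const_mul _ hTm, ← lintegral_add_right _ (hTm.const_mul _)]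
  have hkey : ∀ B : Stk, (∫⁻ b, p2 (F (orS B b) ((x + 1 : ℕ) : ℕ∞)) ∂nu) +
      (2 * x : ℕ) * (T B M : ℝ≥0∞) ≤
      ((x * (x - 1) + 4 * x + ((M * M + 2) + (M * (M + 1) + 2 * M * M)) : ℕ) : ℝ≥0∞) := by
    intro B
    rcases Nat.le_total M (x + 1) with h | h
    · have h1 : ∫⁻ b, p2 (F (orS B b) ((x + 1 : ℕ) : ℕ∞)) ∂nu ≤
          ((x + 1 - T B M : ℕ) : ℝ≥0∞) * ((x + 1 - T B M : ℕ) + 1) := by
        rw [← m2_eq, ← lint_fr (fin_trS M B) (meas_pF p2 _)]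
        refine lintegral_mono fun b => p2_mono (le_trans (F_anti ?_ _) (F_or_le M B b h))
        intro i hi
        simp only [orS, trS, Bool.or_eq_true, Bool.and_eq_true] at hi ⊢
        tauto
      have h2 := nat_ineq2 (T_le_self B M) h
      calc _ ≤ ((x + 1 - T B M : ℕ) : ℝ≥0∞) * ((x + 1 - T B M : ℕ) + 1) +
            (2 * x : ℕ) * (T B M : ℝ≥0∞) := by gcongr
        _ = (((x + 1 - T B M) * (x + 1 - T B M + 1) + 2 * x * T B M : ℕ) : ℝ≥0∞) := by
            rw [Nat.cast_add, Nat.cast_mul (x + 1 - T B M), Nat.cast_mul (2 * x),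
              Nat.cast_add (x + 1 - T B M) 1, Nat.cast_one]
        _ ≤ _ := by
            have : (x + 1 - T B M) * (x + 1 - T B M + 1) + 2 * x * T B M ≤
              x * (x - 1) + 4 * x + ((M * M + 2) + (M * (M + 1) + 2 * M * M)) := by omega
            exact_mod_cast this
    · have h1 : ∫⁻ b, p2 (F (orS B b) ((x + 1 : ℕ) : ℕ∞)) ∂nu ≤ (M * (M + 1) : ℕ) := by
        calc _ ≤ ∫⁻ b, p2 (F b ((x + 1 : ℕ) : ℕ∞)) ∂nu :=
              lintegral_mono fun b => p2_mono (F_anti (orS_ge B b) _)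
          _ ≤ ((x + 1 : ℕ) : ℝ≥0∞) * ((x + 1 : ℕ) + 1) := m2_le (x + 1)
          _ = (((x + 1) * (x + 1 + 1) : ℕ) : ℝ≥0∞) := by push_cast; ring
          _ ≤ _ := by
              have : (x + 1) * (x + 1 + 1) ≤ M * (M + 1) := Nat.mul_le_mul h (by omega)
              exact_mod_cast this
      have h2 : ((2 * x : ℕ) : ℝ≥0∞) * (T B M : ℝ≥0∞) ≤ ((2 * M * M : ℕ) : ℝ≥0∞) := by
        have : 2 * x * T B M ≤ 2 * M * M := Nat.mul_le_mul (by omega) (T_le_self B M)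
        exact_mod_cast this
      calc _ ≤ ((M * (M + 1) : ℕ) : ℝ≥0∞) + ((2 * M * M : ℕ) : ℝ≥0∞) := add_le_add h1 h2
        _ ≤ _ := by
            have : M * (M + 1) + 2 * M * M ≤
              x * (x - 1) + 4 * x + ((M * M + 2) + (M * (M + 1) + 2 * M * M)) := by omega
            exact_mod_cast this
  calc _ ≤ ∫⁻ _, ((x * (x - 1) + 4 * x + ((M * M + 2) + (M * (M + 1) + 2 * M * M)) : ℕ) : ℝ≥0∞) ∂κ :=
        lintegral_mono hkey
    _ = _ := by simp

end Pool.Agent.K7.H98.EW
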