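import Mathlib

set_option autoImplicit false

/-!
Deterministic limit lemmas: from hitting times to the speed.
-/

open Filter Topology

namespace Pool.Agent.K7.H98.EW

/-- no positive speed -/
theorem no_speed {w : ℕ → ℤ} (h : ∀ c : ℝ, ∃ n0 : ℕ, ∀ n : ℕ, n0 ≤ n → ∀ t : ℕ, w t = n → c * n ≤ t)
    {ε : ℝ} (hε : 0 < ε) : ∀ᶠ t : ℕ in atTop, (w t : ℝ) ≤ ε * t := by
  obtain ⟨n0, hn0⟩ := h (1 / ε)
  obtain ⟨t0, ht0⟩ := exists_nat_ge ((n0 : ℝ) / ε)
  filter_upwards [eventually_ge_atTop t0] with t ht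
  have h1 : (n0 : ℝ) / ε ≤ t := ht0.trans (by exact_mod_cast ht)
  have h2 : (n0 : ℝ) ≤ ε * t := by
    rw [div_le_iff₀ hε] at h1; linarith
  rcases le_or_gt (w t) (n0 : ℤ) with h3 | h3
  · have : (w t : ℝ) ≤ n0 := by exact_mod_cast h3
    linarith
  · obtain ⟨n, hn⟩ := Int.eq_ofNat_of_zero_le (show 0 ≤ w t by omega)
    have h4 := hn0 n (by omega) t hn
    rw [hn]
    push_cast
    rw [one_div, inv_mul_le_iff₀ hε] at h4
    exact h4

/-- the speed from the hitting times -/
theorem speed_lim {w : ℕ → ℤ} {d : ℝ} (hd : 0 ≤ d)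
    (h0 : w 0 = 0) (hstep : ∀ t, w (t + 1) ≤ w t + 1)
    (h2 : ∀ c : ℝ, c < d → ∃ n0 : ℕ, ∀ n : ℕ, n0 ≤ n → ∀ t : ℕ, w t = n → n + 2 * c * n ≤ t)
    (h1 : ∀ c : ℝ, d < c → ∃ n0 : ℕ, ∀ n : ℕ, n0 ≤ n → ∀ t : ℕ, (∀ s < t, w s ≠ n) →
      (t : ℝ) ≤ w t + 2 * c * n) :
    Tendsto (fun t : ℕ => (w t : ℝ) / t) atTop (𝓝 (1 / (1 + 2 * d))) := by
  -- intermediate values
  have hiv : ∀ t : ℕ, ∀ n : ℕ, (n : ℤ) ≤ w t → ∃ s ≤ t, w s = n := by
    intro t
    induction t with
    | zero =>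
      intro n hn
      rw [h0] at hn
      exact ⟨0, le_rfl, by rw [h0]; omega⟩
    | succ t ih =>
      intro n hn
      rcases eq_or_lt_of_le hn with h | h
      · exact ⟨t + 1, le_rfl, h.symm⟩
      · have := hstep t
        obtain ⟨s, hs, hs2⟩ := ih n (by omega)
        exact ⟨s, by omega, hs2⟩
  -- key: for each `η` the two bounds hold eventually
  have key : ∀ η : ℝ, 0 < η → η < 1 / 4 → ∀ᶠ t : ℕ in atTop,
      (w t : ℝ) / t ≤ 1 / (1 + 2 * (d - η)) ∧
      (1 - 4 * η) / (1 + 2 * (d - η)) - 2 * (d + η) / t ≤ (w t : ℝ) / t := by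
    intro η hη hη4
    obtain ⟨n1, hn1⟩ := h1 (d + η) (by linarith)
    obtain ⟨n2, hn2⟩ := h2 (d - η) (by linarith)
    set n0 := max n1 n2 with hn0
    obtain ⟨t0, ht0⟩ := exists_nat_gt ((n0 : ℝ) + 1 + 2 * (d + η) * (n0 + 1))
    filter_upwards [eventually_ge_atTop t0, eventually_gt_atTop 0] with t ht htpos
    have htp : (0 : ℝ) < t := by exact_mod_cast htpos
    have hden : 0 < 1 + 2 * (d - η) := by linarith
    -- some value `≥ n0` has been reached
    -- the maximum
    have hex : ∃ m : ℕ, (∃ s ≤ t, w s = m) ∧ ∀ s ≤ t, w s ≤ m := by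
      classical
      have hne : ((Finset.range (t + 1)).image w).Nonempty := ⟨w 0, Finset.mem_image_of_mem _ (by simp)⟩
      set m' := ((Finset.range (t + 1)).image w).max' hne with hm'
      have h3 : m' ∈ (Finset.range (t + 1)).image w := Finset.max'_mem _ _
      obtain ⟨s, hs, hs2⟩ := Finset.mem_image.1 h3
      have h4 : ∀ s ≤ t, w s ≤ m' := fun s hs =>
        Finset.le_max' _ _ (Finset.mem_image_of_mem _ (by simp; omega))
      have h5 : 0 ≤ m' := by have := h4 0 (by omega); rwa [h0] at this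
      obtain ⟨m, hm⟩ := Int.eq_ofNat_of_zero_le h5
      refine ⟨m, ⟨s, ?_, by rw [hs2]; exact hm⟩, fun s hs => by rw [← hm]; exact h4 s hs⟩
      simp at hs; omega
    obtain ⟨m, ⟨s, hst, hsm⟩, hmax⟩ := hex
    have hmn : n0 ≤ m := by
      by_contra hlt
      rw [not_le] at hlt
      have h3 := hn1 (n0 + 1) (by omega) t (fun s hs h => by
        have := hmax s hs.le
        rw [h] at this
        push_cast at this
        omega)
      have h4 : (w t : ℝ) ≤ n0 := by
        have := hmax t le_rfl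
        exact_mod_cast this.trans (by exact_mod_cast hlt.le)
      have h5 : (t0 : ℝ) ≤ t := by exact_mod_cast ht
      push_cast at h3
      linarith
    have hA : (m : ℝ) * (1 + 2 * (d - η)) ≤ t := by
      have h3 := hn2 m (by omega) s hsm
      have h4 : (s : ℝ) ≤ t := by exact_mod_cast hst
      nlinarith
    have hB : (t : ℝ) ≤ w t + 2 * (d + η) * (m + 1) := by
      have h3 := hn1 (m + 1) (by omega) t (fun s hs h => by
        have := hmax s hs.le
        rw [h] at this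
        push_cast at this
        omega)
      push_cast at h3
      exact h3
    have hC : (w t : ℝ) ≤ m := by exact_mod_cast hmax t le_rfl
    have hm2 : (m : ℝ) ≤ t / (1 + 2 * (d - η)) := by
      rw [le_div_iff₀ hden]; exact hA
    constructor
    · rw [div_le_div_iff₀ htp hden]
      nlinarith
    · have h3 : (t : ℝ) - 2 * (d + η) * (t / (1 + 2 * (d - η)) + 1) ≤ w t := by
        have : 2 * (d + η) * ((m : ℝ) + 1) ≤ 2 * (d + η) * (t / (1 + 2 * (d - η)) + 1) := by
          gcongr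
        linarith
      rw [le_div_iff₀ htp]
      have h4 : ((1 - 4 * η) / (1 + 2 * (d - η)) - 2 * (d + η) / t) * t =
          (t : ℝ) - 2 * (d + η) * (t / (1 + 2 * (d - η)) + 1) := by
        field_simp
        ring
      rw [h4]
      exact h3
  rw [tendsto_order]
  have hcont1 : Tendsto (fun η : ℝ => 1 / (1 + 2 * (d - η))) (𝓝[>] 0) (𝓝 (1 / (1 + 2 * d))) := by
    have : ContinuousAt (fun η : ℝ => 1 / (1 + 2 * (d - η))) 0 := by
      refine ContinuousAt.div continuousAt_const (by fun_prop) ?_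
      simp; linarith
    have h3 := this.tendsto
    simp only [sub_zero] at h3
    exact h3.mono_left nhdsWithin_le_nhds
  have hcont2 : Tendsto (fun η : ℝ => (1 - 4 * η) / (1 + 2 * (d - η))) (𝓝[>] 0)
      (𝓝 (1 / (1 + 2 * d))) := by
    have : ContinuousAt (fun η : ℝ => (1 - 4 * η) / (1 + 2 * (d - η))) 0 := by
      refine ContinuousAt.div (by fun_prop) (by fun_prop) ?_
      simp; linarith
    have h3 := this.tendsto
    simp only [sub_zero, mul_zero] at h3
    exact h3.mono_left nhdsWithin_le_nhds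
  have hsmall : ∀ᶠ η : ℝ in 𝓝[>] 0, 0 < η ∧ η < 1 / 4 := by
    have : Set.Ioo (0 : ℝ) (1 / 4) ∈ 𝓝[>] (0 : ℝ) := Ioo_mem_nhdsGT (by norm_num)
    filter_upwards [this] with η hη using hη
  constructor
  · intro a ha
    obtain ⟨a', ha1, ha2⟩ := exists_between ha
    obtain ⟨η, hη, hη2⟩ := ((hcont2.eventually (lt_mem_nhds ha2)).and hsmall).exists
    have h3 : Tendsto (fun t : ℕ => (1 - 4 * η) / (1 + 2 * (d - η)) - 2 * (d + η) / (t : ℝ)) atTop
        (𝓝 ((1 - 4 * η) / (1 + 2 * (d - η)) - 0)) :=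
      tendsto_const_nhds.sub (tendsto_const_div_atTop_nhds_zero_nat _)
    rw [sub_zero] at h3
    filter_upwards [key η hη2.1 hη2.2, h3.eventually (lt_mem_nhds (ha1.trans hη))] with t ht ht2
    exact lt_of_lt_of_le ht2 ht.2
  · intro a ha
    obtain ⟨η, hη, hη2⟩ := ((hcont1.eventually (gt_mem_nhds ha)).and hsmall).exists
    filter_upwards [key η hη2.1 hη2.2] with t ht
    exact lt_of_le_of_lt ht.1 hη

end Pool.Agent.K7.H98.EW
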