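import Pool.Agent.K7.H98.EW.Fair

set_option autoImplicit false

/-!
Stacks with forced arrows to the right.
-/

open MeasureTheory Set
open scoped ENNReal

namespace Pool.Agent.K7.H98.EW

open Pool.Agent.Helper964.Cons

/-- the stack `b` with additional arrows to the right at the places where `B` is true -/
def orS (B b : Stk) : Stk := fun i => B i || b i

/-- the places which are not forced -/
noncomputable def fr (B : Stk) : ℕ → ℕ := Nat.nth (fun i => B i = false)

lemma T_add_count (B : Stk) (i : ℕ) : T B i + Nat.count (fun j => B j = false) i = i := by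
  induction i with
  | zero => rfl
  | succ i ih =>
    rw [T_succ, Nat.count_succ]
    cases h : B i <;> simp <;> omega

lemma T_or {B b : Stk} (i : ℕ) :
    T (orS B b) i = T B i + T (b ∘ fr B) (Nat.count (fun j => B j = false) i) := by
  induction i with
  | zero => rfl
  | succ i ih =>
    rw [T_succ, ih, T_succ B i, Nat.count_succ]
    by_cases h : B i = true
    · have h1 : orS B b i = true := by simp [orS, h]
      rw [if_pos h1, if_pos h, if_neg (by simp [h])]
      simp only [Nat.add_zero]
      omega
    · have h0 : B i = false := by simpa using h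
      have h1 : orS B b i = b i := by simp [orS, h0]
      rw [if_neg h, if_pos h0, T_succ, h1]
      have h2 : (b ∘ fr B) (Nat.count (fun j => B j = false) i) = b i := by
        show b (Nat.nth _ (Nat.count _ i)) = b i
        rw [Nat.nth_count h0]
      rw [h2]
      omega

lemma fr_inf {B : Stk} (hB : {i | B i = true}.Finite) : {i | B i = false}.Infinite := by
  intro h
  have h2 : (univ : Set ℕ) = {i | B i = true} ∪ {i | B i = false} := by
    ext i; cases h : B i <;> simp [h]
  exact infinite_univ (h2 ▸ hB.union h)

lemma F_or_ge {B : Stk} {U : ℕ} (hU : {i | B i = true}.encard = U) (b : Stk) (m : ℕ) :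
    F (b ∘ fr B) ((m - U : ℕ) : ℕ∞) ≤ F (orS B b) m := by
  have hfin : {i | B i = true}.Finite := finite_of_encard_eq_coe hU
  have hinf : {i | B i = false}.Infinite := fr_inf hfin
  have hTU : ∀ i, T B i ≤ U := by
    intro i
    have h1 : ((Finset.range i).filter (fun j => B j = true) : Set ℕ).encard ≤
        {i | B i = true}.encard := encard_le_encard (fun j hj => by simpa using (by simpa using hj : j < i ∧ B j = true).2)
    rw [hU, encard_coe_eq_coe_finsetCard] at h1
    rw [T, Nat.count_eq_card_filter_range]
    exact_mod_cast h1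
  have hmem : ∀ j, B (fr B j) = false := fun j => Nat.nth_mem_of_infinite hinf j
  have hcnt : ∀ j, Nat.count (fun i => B i = false) (fr B j) = j := fun j =>
    Nat.count_nth_of_infinite hinf j
  have hinj : Function.Injective (fr B) := Nat.nth_injective hinf
  have hsub : fr B '' FS ⊤ (b ∘ fr B) ((m - U : ℕ) : ℕ∞) ⊆ FS ⊤ (orS B b) m := by
    rintro _ ⟨j, ⟨-, h1, h2⟩, rfl⟩
    refine ⟨ENat.natCast_lt_top _, ?_, ?_⟩
    · have h3 : b (fr B j) = false := h1
      simp [orS, hmem j, h3]
    · rw [T_or, hcnt]
      have h3 : T (b ∘ fr B) j < m - U := by exact_mod_cast h2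
      have h4 := hTU (fr B j)
      norm_cast
      omega
  calc F (b ∘ fr B) ((m - U : ℕ) : ℕ∞) = (fr B '' FS ⊤ (b ∘ fr B) ((m - U : ℕ) : ℕ∞)).encard :=
        (hinj.encard_image _).symm
    _ ≤ F (orS B b) m := encard_le_encard hsub

/-- truncation of the forced arrows -/
def trS (M : ℕ) (B : Stk) : Stk := fun i => B i && decide (i < M)

lemma T_trS (M : ℕ) (B : Stk) {i : ℕ} (hi : i ≤ M) : T (trS M B) i = T B i := by
  induction i with
  | zero => rfl
  | succ i ih =>
    rw [T_succ, T_succ, ih (by omega)]
    have : trS M B i = B i := by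
      have : i < M := by omega
      simp [trS, this]
    rw [this]

lemma T_trS_ge (M : ℕ) (B : Stk) {i : ℕ} (hi : M ≤ i) : T (trS M B) i = T B M := by
  induction i, hi using Nat.le_induction with
  | base => exact T_trS M B le_rfl
  | succ i hi ih =>
    rw [T_succ, ih]
    have : trS M B i = false := by
      have : ¬ i < M := by omega
      simp [trS, this]
    rw [this]; simp

lemma fin_trS (M : ℕ) (B : Stk) : {i | trS M B i = true}.Finite := by
  refine (finite_lt_nat M).subset fun i hi => ?_
  have : trS M B i = true := hi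
  simp only [trS, Bool.and_eq_true, decide_eq_true_eq] at this
  exact this.2

lemma F_or_le (M : ℕ) (B b : Stk) {m : ℕ} (hm : M ≤ m) :
    F (orS (trS M B) b) m ≤ F (b ∘ fr (trS M B)) ((m - T B M : ℕ) : ℕ∞) := by
  set B' := trS M B with hB'
  have hinf : {i | B' i = false}.Infinite := fr_inf (fin_trS M B)
  have hcnt : ∀ j, Nat.count (fun i => B' i = false) (fr B' j) = j := fun j =>
    Nat.count_nth_of_infinite hinf j
  have hinj : Function.Injective (fr B') := Nat.nth_injective hinf
  have hsub : FS ⊤ (orS B' b) m ⊆ fr B' '' FS ⊤ (b ∘ fr B') ((m - T B M : ℕ) : ℕ∞) := by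
    rintro i ⟨-, h1, h2⟩
    have h3 : B' i = false ∧ b i = false := by
      simpa [orS] using h1
    have hfi : fr B' (Nat.count (fun i => B' i = false) i) = i := by
      show Nat.nth _ _ = i
      rw [Nat.nth_count h3.1]
    refine ⟨Nat.count (fun i => B' i = false) i, ⟨ENat.natCast_lt_top _, ?_, ?_⟩, hfi⟩
    · show b (fr B' _) = false
      rw [hfi]; exact h3.2
    · rw [T_or] at h2
      have h4 : T B' i + T (b ∘ fr B') (Nat.count (fun i => B' i = false) i) < m := by
        exact_mod_cast h2
      have h5 := T_add_count B' i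
      norm_cast
      rcases Nat.lt_or_ge i M with h | h
      · have h6 := T_add_count B' (i + 1)
        have h7 := T_add_count B' M
        have h8 : Nat.count (fun i => B' i = false) (i + 1) ≤ Nat.count (fun i => B' i = false) M :=
          Nat.count_monotone _ (by omega)
        rw [Nat.count_succ, if_pos h3.1] at h8
        have h9 : T B' M = T B M := T_trS M B le_rfl
        have h10 := T_le_self (b ∘ fr B') (Nat.count (fun i => B' i = false) i)
        have h11 := T_le_self B M
        omega
      · have h9 : T B' i = T B M := T_trS_ge M B h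
        omega
  calc F (orS B' b) m ≤ (fr B' '' FS ⊤ (b ∘ fr B') ((m - T B M : ℕ) : ℕ∞)).encard :=
        encard_le_encard hsub
    _ = F (b ∘ fr B') ((m - T B M : ℕ) : ℕ∞) := hinj.encard_image _

/-- the unforced tosses are fair -/
lemma lint_fr {B : Stk} (hB : {i | B i = true}.Finite) {φ : Stk → ℝ≥0∞} (hφ : Measurable φ) :
    ∫⁻ b, φ (b ∘ fr B) ∂nu = ∫⁻ b, φ b ∂nu := by
  have hinj : Function.Injective (fr B) := Nat.nth_injective (fr_inf hB)
  have h1 : nu.map (fun (b : Stk) => b ∘ fr B) = nu :=
    Measure.map_infinitePi_infinitePi_of_inj (P := fun _ : ℕ => fair) hinj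
  have hm : Measurable (fun b : Stk => b ∘ fr B) := measurable_pi_lambda _ fun i => measurable_pi_apply _
  conv_rhs => rw [← h1]
  rw [lintegral_map hφ hm]

lemma lint_not {φ : Stk → ℝ≥0∞} (hφ : Measurable φ) :
    ∫⁻ b, φ (fun i => !b i) ∂nu = ∫⁻ b, φ b ∂nu := by
  have h0 : fair.map not = fair := by
    ext s hs
    rw [Measure.map_apply (measurable_of_countable _) hs, fair]
    simp only [Measure.add_apply, Measure.smul_apply, smul_eq_mul]
    rw [Measure.dirac_apply' _ (MeasurableSet.of_discrete), Measure.dirac_apply' _ hs,
      Measure.dirac_apply' _ (MeasurableSet.of_discrete), Measure.dirac_apply' _ hs]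
    rw [add_comm]
    rfl
  have h1 : nu.map (fun (b : Stk) i => !b i) = nu := by
    have := Measure.infinitePi_map_pi (μ := fun _ : ℕ => fair) (f := fun _ : ℕ => not)
      (fun _ => measurable_of_countable _)
    simp only [h0] at this
    exact this
  have hm : Measurable (fun (b : Stk) i => !b i) :=
    measurable_pi_lambda _ fun i => (measurable_of_countable not).comp (measurable_pi_apply i)
  conv_rhs => rw [← h1]
  rw [lintegral_map hφ hm]

end Pool.Agent.K7.H98.EW
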