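import Pool.Agent.K7.H98.EW.Speed
import Pool.Agent.K7.H98.EW.Chain2

set_option autoImplicit false

/-!
Reflection, and the dichotomy for the speed of the walk driven by stacks of arrows.
-/

open MeasureTheory Set Filter Topology
open scoped ENNReal

namespace Pool.Agent.K7.H98.EW

/-- reflected field -/
def refl (ξ : ℤ → Stk) : ℤ → Stk := fun k i => !ξ (-k) i

lemma refl_WC (ξ : ℤ → Stk) (t : ℕ) :
    Wz (refl ξ) t = -Wz ξ t ∧ ∀ k, Cz (refl ξ) t k = Cz ξ t (-k) := by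
  induction t with
  | zero => exact ⟨by simp [Wz_zero], fun k => by rw [Cz_zero, Cz_zero]⟩
  | succ t ih =>
    obtain ⟨h1, h2⟩ := ih
    constructor
    · rw [Wz_succ, Wz_succ, h1, h2, neg_neg]
      simp only [refl, neg_neg]
      cases ξ (Wz ξ t) (Cz ξ t (Wz ξ t)) <;> simp <;> ring
    · intro k
      by_cases hk : k = Wz (refl ξ) t
      · rw [hk, Cz_succ_self, h2, h1, neg_neg, Cz_succ_self]
      · rw [Cz_succ_of_ne _ _ hk, h2, Cz_succ_of_ne _ _ (by rw [h1] at hk; omega)]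

lemma meas_refl : Measurable refl := by
  refine measurable_pi_lambda _ fun k => ?_
  exact meas_not.comp (measurable_pi_apply (-k))

lemma map_refl (ρ : Measure Stk) [IsProbabilityMeasure ρ] :
    (MM ρ).map refl = MM (ρ.map (fun (b : Stk) i => !b i)) := by
  have h1 : (MM ρ).map (fun ξ : ℤ → Stk => fun k => ξ (-k)) = MM ρ :=
    Measure.map_infinitePi_infinitePi_of_inj (P := fun _ : ℤ => ρ)
      (f := fun k : ℤ => -k) (fun a b h => by simpa using h)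
  have h2 : (MM ρ).map (fun ξ : ℤ → Stk => fun k => (fun i => !ξ k i)) =
      MM (ρ.map (fun (b : Stk) i => !b i)) :=
    Measure.infinitePi_map_pi (μ := fun _ : ℤ => ρ) (f := fun _ : ℤ => fun (b : Stk) i => !b i)
      (fun _ => meas_not)
  rw [← h2]
  nth_rw 2 [← h1]
  rw [Measure.map_map]
  · rfl
  · exact measurable_pi_lambda _ fun k => meas_not.comp (measurable_pi_apply k)
  · exact measurable_pi_lambda _ fun k => measurable_pi_apply _

theorem low_ae (κ : Measure Stk) [IsProbabilityMeasure κ] :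
    ∀ᵐ ξ ∂(MM (rho κ)), ∀ ε : ℝ, 0 < ε → ∀ᶠ t : ℕ in atTop, -(ε * t) ≤ (Wz ξ t : ℝ) := by
  have : IsProbabilityMeasure ((rho κ).map (fun (b : Stk) i => !b i)) :=
    Measure.isProbabilityMeasure_map meas_not.aemeasurable
  have h1 := no_speed_ae ((rho κ).map (fun (b : Stk) i => !b i)) (D_inf_refl _ (S7 κ))
  rw [← map_refl] at h1
  have h2 := ae_of_ae_map meas_refl.aemeasurable h1
  filter_upwards [h2] with ξ hξ ε hε
  filter_upwards [hξ ε hε] with t ht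
  rw [(refl_WC ξ t).1] at ht
  push_cast at ht
  linarith

/-- the dichotomy -/
theorem dichotomy (κ : Measure Stk) [IsProbabilityMeasure κ] :
    (∫⁻ η, p1 (D η) ∂(PP (rho κ)) = ⊤ →
      ∀ᵐ ξ ∂(MM (rho κ)), Tendsto (fun t : ℕ => (Wz ξ t : ℝ) / t) atTop (𝓝 0)) ∧
    (∫⁻ η, p1 (D η) ∂(PP (rho κ)) < ⊤ → ∃ v : ℝ, 0 < v ∧
      ∀ᵐ ξ ∂(MM (rho κ)), Tendsto (fun t : ℕ => (Wz ξ t : ℝ) / t) atTop (𝓝 v)) := by
  constructor
  · intro h
    filter_upwards [low_ae κ, no_speed_ae (rho κ) h] with ξ h1 h2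
    rw [Metric.tendsto_atTop]
    intro ε hε
    have h3 := ((h1 (ε / 2) (by positivity)).and (h2 (ε / 2) (by positivity))).and
      (eventually_ge_atTop 1)
    obtain ⟨t0, ht0⟩ := eventually_atTop.1 h3
    refine ⟨t0, fun t ht => ?_⟩
    obtain ⟨⟨h4, h5⟩, h6⟩ := ht0 t ht
    have hp : (0 : ℝ) < t := by exact_mod_cast h6
    rw [Real.dist_eq, sub_zero, abs_div, abs_of_pos hp, div_lt_iff₀ hp]
    have : |(Wz ξ t : ℝ)| ≤ ε / 2 * t := abs_le.2 ⟨by linarith, h5⟩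
    nlinarith
  · intro h
    exact ⟨_, by positivity, speed_ae κ h⟩

/-- the ballisticity criterion for stacks -/
theorem crit (κ : Measure Stk) [IsProbabilityMeasure κ] (hz : 0 < κ {B | uS B = 0}) :
    ∃ v : ℝ, (∀ᵐ ξ ∂(MM (rho κ)), Tendsto (fun t : ℕ => (Wz ξ t : ℝ) / t) atTop (𝓝 v)) ∧
      (∫⁻ B, (uS B : ℝ≥0∞) ∂κ ≤ 2 → v = 0) ∧
      ((∃ M : ℕ, 2 < ∫⁻ B, (T B M : ℝ≥0∞) ∂κ) → 0 < v) := by
  rcases eq_or_ne (∫⁻ η, p1 (D η) ∂(PP (rho κ))) ⊤ with h | h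
  · refine ⟨0, (dichotomy κ).1 h, fun _ => rfl, fun ⟨M, hM⟩ => ?_⟩
    exact absurd h (D_fin κ M hM).ne
  · obtain ⟨v, hv, h2⟩ := (dichotomy κ).2 (lt_top_iff_ne_top.2 h)
    refine ⟨v, h2, fun hu => ?_, fun _ => hv⟩
    exact absurd (D_inf κ hu hz) h

end Pool.Agent.K7.H98.EW
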