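import Mathlib
import Pool.Agent.K7.H98.EW.Refl

set_option autoImplicit false
set_option linter.unusedSectionVars false

/-!
The stack of arrows of a random cookie stack with non-negative drifts.
-/

open MeasureTheory Set Filter Topology ProbabilityTheory
open scoped ENNReal unitInterval

namespace Pool.Agent.K7.H98.EW

/-- the uniform variables -/
noncomputable abbrev un : Measure (ℕ → I) := Measure.infinitePi (fun _ : ℕ => (volume : Measure I))

lemma vol_lt {x : ℝ} (hx : x ∈ Icc (0 : ℝ) 1) : (volume : Measure I) {u : I | (u : ℝ) < x} = ENNReal.ofReal x := by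
  have : {u : I | (u : ℝ) < x} = Iio (⟨x, hx⟩ : I) := by
    ext u; simp [← Subtype.coe_lt_coe]
  rw [this, unitInterval.volume_Iio]

lemma meas_lt (x : ℝ) : MeasurableSet {u : I | (u : ℝ) < x} :=
  measurableSet_lt measurable_subtype_coe measurable_const

lemma vol_ge {x : ℝ} (hx : x ∈ Icc (0 : ℝ) 1) :
    (volume : Measure I) {u : I | (u : ℝ) < x}ᶜ = ENNReal.ofReal (1 - x) := by
  rw [measure_compl (meas_lt x) (measure_ne_top _ _), vol_lt hx, measure_univ,
    ENNReal.ofReal_sub _ hx.1, ENNReal.ofReal_one]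

lemma lint_unit {x : ℝ} (hx : x ∈ Icc (0 : ℝ) 1) (G : Bool → ℝ≥0∞) :
    ∫⁻ u : I, G (decide ((u : ℝ) < x)) = ENNReal.ofReal x * G true + ENNReal.ofReal (1 - x) * G false := by
  rw [← lintegral_add_compl _ (meas_lt x)]
  congr 1
  · rw [setLIntegral_congr_fun (meas_lt x) (g := fun _ => G true) (fun u hu => by
      have : (u : ℝ) < x := hu
      simp [this])]
    rw [setLIntegral_const, vol_lt hx, mul_comm]
  · rw [setLIntegral_congr_fun (meas_lt x).compl (g := fun _ => G false) (fun u hu => by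
      have : ¬ (u : ℝ) < x := hu
      simp [this])]
    rw [setLIntegral_const, vol_ge hx, mul_comm]

lemma meas_dec (x : ℝ) : Measurable (fun u : I => decide ((u : ℝ) < x)) := by
  refine measurable_to_bool ?_
  have : (fun u : I => decide ((u : ℝ) < x)) ⁻¹' {true} = {u : I | (u : ℝ) < x} := by
    ext u; simp
  rw [this]; exact meas_lt x

/-- product formula -/
lemma lint_un {x : ℕ → ℝ} (hx : ∀ i, x i ∈ Icc (0 : ℝ) 1) (G : ℕ → Bool → ℝ≥0∞) (n : ℕ) :
    ∫⁻ v, ∏ k ∈ Finset.range n, G k (decide ((v k : ℝ) < x k)) ∂un =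
      ∏ k ∈ Finset.range n, (ENNReal.ofReal (x k) * G k true + ENNReal.ofReal (1 - x k) * G k false) := by
  have hg : ∀ k, Measurable (fun u : I => G k (decide ((u : ℝ) < x k))) := fun k =>
    (measurable_of_countable (G k)).comp (meas_dec (x k))
  rw [lintegral_prod_eq_prod_lintegral_of_indepFun (Finset.range n)
    (fun k (v : ℕ → I) => G k (decide ((v k : ℝ) < x k)))]
  · refine Finset.prod_congr rfl fun k _ => ?_
    rw [← lint_unit (hx k) (G k)]
    exact (measurePreserving_eval_infinitePi (fun _ : ℕ => (volume : Measure I)) k).lintegral_comp (hg k)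
  · exact iIndepFun_infinitePi (P := fun _ : ℕ => (volume : Measure I))
      (X := fun k (u : I) => G k (decide ((u : ℝ) < x k))) hg
  · intro k
    exact (hg k).comp (measurable_pi_apply k)

/-- the chance of an arrow -/
noncomputable def gw (w β : Bool) : ℝ≥0∞ := fair {c | (β || c) = w}

lemma gw_eq (w : Bool) : gw w true = (if w then 1 else 0) ∧ gw w false = 2⁻¹ := by
  constructor
  · cases w
    · simp [gw]
    · have h : {c : Bool | (true || c) = true} = univ := by ext c; simp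
      rw [gw, h, measure_univ]; simp
  · have h : gw w false = fair {w} := by
      rw [gw]; rfl
    rw [h]
    cases w <;> simp [fair]

lemma nu_or (B w : Stk) (n : ℕ) :
    nu {b | ∀ k < n, orS B b k = w k} = ∏ k ∈ Finset.range n, gw (w k) (B k) := by
  have : {b : Stk | ∀ k < n, orS B b k = w k} =
      Set.pi (Finset.range n : Set ℕ) (fun k => {c | (B k || c) = w k}) := by
    ext b
    simp [Set.mem_pi, orS]
  rw [this, nu, Measure.infinitePi_pi]
  · rfl
  · intro k _
    exact MeasurableSet.of_discrete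

lemma rho_cyl (κ : Measure Stk) [IsProbabilityMeasure κ] (w : Stk) (n : ℕ) :
    (rho κ) {s | ∀ k < n, s k = w k} = ∫⁻ B, ∏ k ∈ Finset.range n, gw (w k) (B k) ∂κ := by
  have hS : MeasurableSet {s : Stk | ∀ k < n, s k = w k} := Pool.H543.ERW.meas_pre w n
  rw [rho, Measure.map_apply meas_orS hS, Measure.prod_apply (meas_orS hS)]
  refine lintegral_congr fun B => ?_
  rw [← nu_or]
  rfl

section
variable {Ω : Type*} [MeasurableSpace Ω] (μ : Measure Ω) [IsProbabilityMeasure μ] (e : Ω → ℕ → ℝ)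

/-- forced arrows -/
noncomputable def Bf (q : Ω × (ℕ → I)) : Stk := fun i => decide ((q.2 i : ℝ) < 2 * e q.1 i - 1)

lemma meas_Bf (he : Measurable e) : Measurable (Bf e) := by
  refine measurable_pi_lambda _ fun i => measurable_to_bool ?_
  have : (fun q : Ω × (ℕ → I) => Bf e q i) ⁻¹' {true} = {q | (q.2 i : ℝ) < 2 * e q.1 i - 1} := by
    ext q; simp [Bf]
  rw [this]
  refine measurableSet_lt ?_ ?_
  · exact measurable_subtype_coe.comp ((measurable_pi_apply i).comp measurable_snd)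
  · exact (((measurable_pi_apply i).comp (he.comp measurable_fst)).const_mul 2).sub_const 1

/-- the law of the forced arrows -/
noncomputable def kap : Measure Stk := (μ.prod un).map (Bf e)

lemma prob_kap (he : Measurable e) : IsProbabilityMeasure (kap μ e) :=
  Measure.isProbabilityMeasure_map (meas_Bf e he).aemeasurable

lemma lint_kap (he : Measurable e) {φ : Stk → ℝ≥0∞} (hφ : Measurable φ) :
    ∫⁻ B, φ B ∂(kap μ e) = ∫⁻ a, ∫⁻ v, φ (Bf e (a, v)) ∂un ∂μ := by
  rw [kap, lintegral_map hφ (meas_Bf e he)]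
  exact lintegral_prod _ (hφ.comp (meas_Bf e he)).aemeasurable

variable {e}

theorem rho_kap (he : Measurable e) (hpos : ∀ᵐ a ∂μ, ∀ i, e a i ∈ Icc (1 / 2 : ℝ) 1) (w : Stk) (n : ℕ) :
    haveI := prob_kap μ e he
    (rho (kap μ e)) {s | ∀ k < n, s k = w k} =
      ∫⁻ a, ∏ k ∈ Finset.range n, ENNReal.ofReal (if w k then e a k else 1 - e a k) ∂μ := by
  have := prob_kap μ e he
  have hm : Measurable (fun B : Stk => ∏ k ∈ Finset.range n, gw (w k) (B k)) :=
    Finset.measurable_prod _ fun k _ => (measurable_of_countable (gw (w k))).comp (measurable_pi_apply k)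
  rw [rho_cyl, lint_kap μ e he hm]
  refine lintegral_congr_ae ?_
  filter_upwards [hpos] with a ha
  have hx : ∀ i, 2 * e a i - 1 ∈ Icc (0 : ℝ) 1 := fun i => by
    have := ha i
    constructor <;> linarith [this.1, this.2]
  have h1 := lint_un hx (fun k b => gw (w k) b) n
  refine Eq.trans h1 (Finset.prod_congr rfl fun k _ => ?_)
  rw [(gw_eq (w k)).1, (gw_eq (w k)).2]
  have h2 := ha k
  have h3 : (2⁻¹ : ℝ≥0∞) = ENNReal.ofReal (1 / 2) := by
    rw [one_div, ENNReal.ofReal_inv_of_pos (by norm_num)]; norm_num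
  rw [h3, ← ENNReal.ofReal_mul (by linarith [(hx k).2])]
  cases w k
  · simp only [Bool.false_eq_true, if_false, mul_zero, zero_add]
    congr 1; ring
  · simp only [if_true, mul_one]
    rw [← ENNReal.ofReal_add (hx k).1 (by nlinarith [(hx k).2])]
    congr 1; ring

lemma kap_coord (he : Measurable e) (hpos : ∀ᵐ a ∂μ, ∀ i, e a i ∈ Icc (1 / 2 : ℝ) 1) (i : ℕ) :
    ∫⁻ B, (if B i then 1 else 0 : ℝ≥0∞) ∂(kap μ e) = ∫⁻ a, ENNReal.ofReal (2 * e a i - 1) ∂μ := by
  rw [lint_kap μ e he (φ := fun B : Stk => (if B i then 1 else 0 : ℝ≥0∞))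
    ((measurable_of_countable (fun b : Bool => (if b then 1 else 0 : ℝ≥0∞))).comp
    (measurable_pi_apply i))]
  refine lintegral_congr_ae ?_
  filter_upwards [hpos] with a ha
  have hx : 2 * e a i - 1 ∈ Icc (0 : ℝ) 1 := by
    have := ha i
    constructor <;> linarith [this.1, this.2]
  have h1 := lint_unit hx (fun b => (if b then 1 else 0 : ℝ≥0∞))
  simp only [if_true, Bool.false_eq_true, if_false, mul_one, mul_zero, add_zero] at h1
  rw [← h1]
  exact (measurePreserving_eval_infinitePi (fun _ : ℕ => (volume : Measure I)) i).lintegral_comp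
    (f := fun u : I => (if decide ((u : ℝ) < 2 * e a i - 1) = true then 1 else 0 : ℝ≥0∞))
    ((measurable_of_countable (fun b : Bool => (if b then 1 else 0 : ℝ≥0∞))).comp (meas_dec _))

lemma uS_tsum (B : Stk) : (uS B : ℝ≥0∞) = ∑' i, (if B i then 1 else 0 : ℝ≥0∞) := by
  rw [uS, ← ENNReal.tsum_set_one, tsum_subtype {i | B i = true} (fun _ => (1 : ℝ≥0∞))]
  refine tsum_congr fun i => ?_
  simp [Set.indicator]

lemma T_sum (B : Stk) (M : ℕ) : ((T B M : ℕ) : ℝ≥0∞) = ∑ i ∈ Finset.range M, (if B i then 1 else 0 : ℝ≥0∞) := by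
  induction M with
  | zero => simp [T_zero]
  | succ M ih =>
    rw [T_succ, Finset.sum_range_succ, ← ih]
    push_cast
    rfl

theorem kap_uS (he : Measurable e) (hpos : ∀ᵐ a ∂μ, ∀ i, e a i ∈ Icc (1 / 2 : ℝ) 1) :
    ∫⁻ B, (uS B : ℝ≥0∞) ∂(kap μ e) = ∫⁻ a, ∑' i, ENNReal.ofReal (2 * e a i - 1) ∂μ := by
  have hm : ∀ i, Measurable (fun B : Stk => (if B i then 1 else 0 : ℝ≥0∞)) := fun i =>
    (measurable_of_countable (fun b : Bool => (if b then 1 else 0 : ℝ≥0∞))).comp (measurable_pi_apply i)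
  have hm2 : ∀ i, Measurable (fun a => ENNReal.ofReal (2 * e a i - 1)) := fun i =>
    ENNReal.measurable_ofReal.comp ((((measurable_pi_apply i).comp he).const_mul 2).sub_const 1)
  simp_rw [uS_tsum]
  rw [lintegral_tsum (fun i => (hm i).aemeasurable), lintegral_tsum (fun i => (hm2 i).aemeasurable)]
  exact tsum_congr fun i => kap_coord μ he hpos i

theorem kap_T (he : Measurable e) (hpos : ∀ᵐ a ∂μ, ∀ i, e a i ∈ Icc (1 / 2 : ℝ) 1)
    (hδ : 2 < ∫⁻ a, ∑' i, ENNReal.ofReal (2 * e a i - 1) ∂μ) :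
    ∃ M : ℕ, 2 < ∫⁻ B, (T B M : ℝ≥0∞) ∂(kap μ e) := by
  have hm : ∀ i, Measurable (fun B : Stk => (if B i then 1 else 0 : ℝ≥0∞)) := fun i =>
    (measurable_of_countable (fun b : Bool => (if b then 1 else 0 : ℝ≥0∞))).comp (measurable_pi_apply i)
  have hm2 : ∀ i, Measurable (fun a => ENNReal.ofReal (2 * e a i - 1)) := fun i =>
    ENNReal.measurable_ofReal.comp ((((measurable_pi_apply i).comp he).const_mul 2).sub_const 1)
  rw [lintegral_tsum (fun i => (hm2 i).aemeasurable), ENNReal.tsum_eq_iSup_nat, lt_iSup_iff] at hδ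
  obtain ⟨M, hM⟩ := hδ
  refine ⟨M, ?_⟩
  simp_rw [T_sum]
  rw [lintegral_finsetSum _ (fun i _ => hm i)]
  refine lt_of_lt_of_eq hM (Finset.sum_congr rfl fun i _ => (kap_coord μ he hpos i).symm)

/-- a product of numbers in the unit interval -/
lemma prod_tail {x : ℕ → ℝ} (hx : ∀ i, x i ∈ Icc (0 : ℝ) 1) (m n : ℕ) :
    1 - ∑ i ∈ Finset.range n, x (m + i) ≤ ∏ i ∈ Finset.range n, (1 - x (m + i)) := by
  induction n with
  | zero => simp
  | succ n ih =>
    rw [Finset.sum_range_succ, Finset.prod_range_succ]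
    have h1 : 0 ≤ ∑ i ∈ Finset.range n, x (m + i) := Finset.sum_nonneg fun i _ => (hx _).1
    have h2 := hx (m + n)
    have h3 : 0 ≤ 1 - x (m + n) := by linarith [h2.2]
    nlinarith [mul_le_mul_of_nonneg_right ih h3, h2.1, mul_nonneg h1 h2.1]

lemma un_pos {x : ℕ → ℝ} (hx : ∀ i, x i ∈ Icc (0 : ℝ) 1) (hx1 : ∀ i, x i < 1)
    (hs : ∑' i, ENNReal.ofReal (x i) ≠ ⊤) : 0 < un {v : ℕ → I | ∀ i, ¬ (v i : ℝ) < x i} := by
  have hsum : Summable x := by
    have := ENNReal.summable_toReal hs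
    refine this.congr fun i => ENNReal.toReal_ofReal (hx i).1
  obtain ⟨m, hm⟩ : ∃ m, ∑' i, x (i + m) < 1 / 2 := by
    have := (tendsto_sum_nat_add x).eventually (gt_mem_nhds (show (0 : ℝ) < 1 / 2 by norm_num))
    exact this.exists
  have hfin : ∀ n, un {v : ℕ → I | ∀ i < n, ¬ (v i : ℝ) < x i} =
      ENNReal.ofReal (∏ i ∈ Finset.range n, (1 - x i)) := by
    intro n
    have : {v : ℕ → I | ∀ i < n, ¬ (v i : ℝ) < x i} =
        Set.pi (Finset.range n : Set ℕ) (fun i => {u : I | (u : ℝ) < x i}ᶜ) := by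
      ext v; simp [Set.mem_pi]
    rw [this, Measure.infinitePi_pi]
    · rw [ENNReal.ofReal_prod_of_nonneg (fun i _ => by linarith [(hx i).2])]
      exact Finset.prod_congr rfl fun i _ => vol_ge (hx i)
    · intro i _
      exact (meas_lt _).compl
  set P : ℝ := ∏ i ∈ Finset.range m, (1 - x i) with hP
  have hPpos : 0 < P := Finset.prod_pos fun i _ => by linarith [hx1 i]
  have hlow : ∀ n, ENNReal.ofReal (P * (1 / 2)) ≤ un {v : ℕ → I | ∀ i < m + n, ¬ (v i : ℝ) < x i} := by
    intro n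
    rw [hfin]
    refine ENNReal.ofReal_le_ofReal ?_
    rw [Finset.prod_range_add]
    refine mul_le_mul_of_nonneg_left ?_ hPpos.le
    refine le_trans ?_ (prod_tail hx m n)
    have h1 : ∑ i ∈ Finset.range n, x (m + i) ≤ ∑' i, x (i + m) := by
      have h2 : Summable (fun i => x (i + m)) := (summable_nat_add_iff m).2 hsum
      refine le_trans (le_of_eq (Finset.sum_congr rfl fun i _ => by rw [add_comm])) (h2.sum_le_tsum _ fun i _ => (hx _).1)
    linarith
  have hlim : Tendsto (fun n => un {v : ℕ → I | ∀ i < m + n, ¬ (v i : ℝ) < x i}) atTop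
      (𝓝 (un (⋂ n, {v : ℕ → I | ∀ i < m + n, ¬ (v i : ℝ) < x i}))) := by
    refine tendsto_measure_iInter_atTop (fun n => ?_) ?_ ⟨0, measure_ne_top _ _⟩
    · refine MeasurableSet.nullMeasurableSet ?_
      have : {v : ℕ → I | ∀ i < m + n, ¬ (v i : ℝ) < x i} =
          ⋂ i ∈ Finset.range (m + n), (fun v : ℕ → I => v i) ⁻¹' {u : I | (u : ℝ) < x i}ᶜ := by
        ext v; simp
      rw [this]
      exact Finset.measurableSet_biInter _ fun i _ => (measurable_pi_apply i) (meas_lt _).compl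
    · intro a b hab v hv i hi
      exact hv i (by omega)
  have he : (⋂ n, {v : ℕ → I | ∀ i < m + n, ¬ (v i : ℝ) < x i}) = {v : ℕ → I | ∀ i, ¬ (v i : ℝ) < x i} := by
    ext v
    simp only [mem_iInter, mem_ofPred_eq]
    exact ⟨fun h i => h (i + 1) i (by omega), fun h n i _ => h i⟩
  rw [he] at hlim
  have := ge_of_tendsto' hlim hlow
  refine lt_of_lt_of_le ?_ this
  rw [ENNReal.ofReal_pos]
  positivity

theorem kap_zero (he : Measurable e) (hpos : ∀ᵐ a ∂μ, ∀ i, e a i ∈ Icc (1 / 2 : ℝ) 1)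
    (hδ : ∫⁻ a, ∑' i, ENNReal.ofReal (2 * e a i - 1) ∂μ ≠ ⊤)
    (hwel : 0 < μ {a | ∀ i, e a i < 1}) : 0 < (kap μ e) {B | uS B = 0} := by
  have hS : MeasurableSet {B : Stk | uS B = 0} := meas_uS (measurableSet_singleton 0)
  have hm2 : ∀ i, Measurable (fun a => ENNReal.ofReal (2 * e a i - 1)) := fun i =>
    ENNReal.measurable_ofReal.comp ((((measurable_pi_apply i).comp he).const_mul 2).sub_const 1)
  rw [kap, Measure.map_apply (meas_Bf e he) hS, Measure.prod_apply (meas_Bf e he hS)]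
  rw [pos_iff_ne_zero]
  intro h0
  have h1 := (lintegral_eq_zero_iff (measurable_measure_prodMk_left (meas_Bf e he hS))).1 h0
  have h2 := ae_lt_top (Measurable.tsum hm2) hδ
  have h3 : ∀ᵐ a ∂μ, ¬ ∀ i, e a i < 1 := by
    filter_upwards [h1, h2, hpos] with a ha1 ha2 ha3 ha4
    have hx : ∀ i, 2 * e a i - 1 ∈ Icc (0 : ℝ) 1 := fun i => by
      have := ha3 i
      constructor <;> linarith [this.1, this.2]
    have h5 := un_pos hx (fun i => by linarith [ha4 i]) ha2.ne
    have h6 : {v : ℕ → I | ∀ i, ¬ (v i : ℝ) < 2 * e a i - 1} = Prod.mk a ⁻¹' (Bf e ⁻¹' {B | uS B = 0}) := by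
      ext v
      simp only [mem_ofPred_eq, mem_preimage, uS, encard_eq_zero]
      rw [Set.eq_empty_iff_forall_notMem]
      refine forall_congr' fun i => ?_
      simp [Bf]
    rw [h6] at h5
    exact absurd ha1 h5.ne'
  rw [ae_iff] at h3
  simp only [not_not] at h3
  exact absurd h3 hwel.ne'

end

end Pool.Agent.K7.H98.EW
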