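import Pool.Agent.K7.H98.EW.Erg
import Pool.Agent.K7.H98.EW.Lim

set_option autoImplicit false

/-!
Speed of the walk on the integers driven by stacks of arrows.
-/

open MeasureTheory Set Filter Topology
open scoped ENNReal

namespace Pool.Agent.K7.H98.EW

section det
variable (ξ : ℤ → Stk)

lemma time_low {n t L : ℕ} (hW : Wz ξ t = n) (hL' : L ≤ n) :
    (n : ℝ) + 2 * ∑ k ∈ Finset.range (n - L), hL L (sk ξ k) ≤ t := by
  have hnt : n ≤ t := by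
    have := (abs_le.1 (Wz_abs ξ t)).2
    rw [hW] at this
    exact_mod_cast this
  have h1 := time_eq ξ t t le_rfl
  rw [hW] at h1
  have h2 : ∀ k ∈ Finset.range (n - L), hL L (sk ξ k) ≤ (Lz ξ t (k : ℤ) : ℝ) := by
    intro k hk
    rw [Finset.mem_range] at hk
    have h3 := low_bound ξ n t hW (n - k) (by omega)
    have e : (n : ℤ) - ((n - k : ℕ) : ℤ) = k := by omega
    rw [e] at h3
    have h4 : gL L (sk ξ k) ≤ (Lz ξ t k : ℕ∞) :=
      (min_le_left _ _).trans ((f_mono (sk ξ k) (show L ≤ n - k by omega)).trans h3)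
    obtain ⟨m, hm⟩ := ENat.ne_top_iff_exists.1 (gL_ne_top L (sk ξ k))
    rw [hL, ← hm]
    rw [← hm] at h4
    simp only [ENat.toNat_natCast]
    exact_mod_cast h4
  have h3 : ∑ k ∈ Finset.range (n - L), (Lz ξ t (k : ℤ) : ℤ) ≤
      ∑ k ∈ Finset.Icc (-(t : ℤ)) t, (Lz ξ t k : ℤ) := by
    rw [show ∑ k ∈ Finset.range (n - L), (Lz ξ t (k : ℤ) : ℤ) =
      ∑ k ∈ (Finset.range (n - L)).map Nat.castEmbedding, (Lz ξ t k : ℤ) by
        rw [Finset.sum_map]; rfl]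
    refine Finset.sum_le_sum_of_subset_of_nonneg ?_ fun _ _ _ => by positivity
    intro k hk
    rw [Finset.mem_map] at hk
    obtain ⟨a, ha, rfl⟩ := hk
    rw [Finset.mem_range] at ha
    rw [Finset.mem_Icc]
    constructor
    · simp only [Nat.castEmbedding_apply]; omega
    · simp only [Nat.castEmbedding_apply]; omega
  have h4 : ∑ k ∈ Finset.range (n - L), hL L (sk ξ k) ≤ ∑ k ∈ Finset.range (n - L), (Lz ξ t (k : ℤ) : ℝ) :=
    Finset.sum_le_sum h2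
  have h5 : (n : ℤ) + 2 * ∑ k ∈ Finset.range (n - L), (Lz ξ t (k : ℤ) : ℤ) ≤ t := by
    rw [h1]
    linarith
  have h6 : (n : ℝ) + 2 * ∑ k ∈ Finset.range (n - L), (Lz ξ t (k : ℤ) : ℝ) ≤ t := by exact_mod_cast h5
  linarith

/-- real version of `D` -/
noncomputable def dd (η : ℕ → Stk) : ℝ := (p1 (D η)).toReal

lemma time_up {n t : ℕ} (hW : ∀ s < t, Wz ξ s ≠ n) (hD : ∀ k : ℕ, D (sk ξ k) ≠ ⊤)
    (hU : ∑' j, (U j (lk ξ) (D (sk ξ 0)) : ℝ≥0∞) < ⊤) :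
    (t : ℝ) ≤ Wz ξ t + 2 * (∑ k ∈ Finset.range n, dd (sk ξ k) +
      (∑' j, (U j (lk ξ) (D (sk ξ 0)) : ℝ≥0∞)).toReal) := by
  have hC : ∀ k : ℤ, (n : ℤ) ≤ k → Cz ξ t k = 0 := by
    rcases not_beyond ξ n t with h | ⟨s, hs, hs2⟩
    · exact h.1
    · exact absurd hs2 (hW s hs)
  have hpos : ∀ k : ℕ, (Lz ξ t (k : ℤ) : ℕ∞) ≤ D (sk ξ k) := by
    intro k
    rcases le_or_gt n k with h | h
    · have : Lz ξ t (k : ℤ) = 0 := by rw [Lz, hC _ (by omega), TF_zero]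
      rw [this]; exact zero_le
    · have h1 := up_bound ξ n t (hC n le_rfl) (n - k) (by omega)
      have e : (n : ℤ) - ((n - k : ℕ) : ℤ) = k := by omega
      rw [e] at h1
      exact h1.trans (f_le_D _ _)
  have hneg : ∀ j : ℕ, (Lz ξ t (-(j : ℤ)) : ℕ∞) ≤ U j (lk ξ) (D (sk ξ 0)) :=
    left_bound ξ t _ (hpos 0)
  have h1 := time_eq ξ t t le_rfl
  -- split the sum
  have key : ∑ k ∈ Finset.Icc (-(t : ℤ)) t, (Lz ξ t k : ℝ≥0∞) ≤
      ∑ k ∈ Finset.range n, p1 (D (sk ξ k)) + ∑' j, (U j (lk ξ) (D (sk ξ 0)) : ℝ≥0∞) := by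
    have e1 : ∑' k : ℤ, (Lz ξ t k : ℝ≥0∞) = ∑' k : ℕ, (Lz ξ t (k : ℤ) : ℝ≥0∞) +
        ∑' k : ℕ, (Lz ξ t (-((k : ℤ) + 1)) : ℝ≥0∞) :=
      (HasSum.of_nat_of_neg_add_one ENNReal.summable.hasSum ENNReal.summable.hasSum).tsum_eq
    refine (ENNReal.sum_le_tsum _).trans ?_
    rw [e1]
    refine add_le_add ?_ ?_
    · rw [tsum_eq_sum (s := Finset.range n) (fun k hk => by
        rw [Finset.mem_range, not_lt] at hk
        rw [Lz, hC _ (by exact_mod_cast hk), TF_zero]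
        simp)]
      refine Finset.sum_le_sum fun k _ => ?_
      have := p1_mono (hpos k)
      rwa [p1_nat] at this
    · refine le_trans (ENNReal.tsum_le_tsum fun j => ?_)
        (ENNReal.tsum_comp_le_tsum_of_injective Nat.succ_injective
          (fun j => (U j (lk ξ) (D (sk ξ 0)) : ℝ≥0∞)))
      have h2 := p1_mono (hneg (j + 1))
      rw [p1_nat] at h2
      push_cast at h2
      exact h2
  have h2 : ((∑ k ∈ Finset.Icc (-(t : ℤ)) t, Lz ξ t k : ℕ) : ℝ) ≤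
      ∑ k ∈ Finset.range n, dd (sk ξ k) + (∑' j, (U j (lk ξ) (D (sk ξ 0)) : ℝ≥0∞)).toReal := by
    have hf : ∀ k ∈ Finset.range n, p1 (D (sk ξ k)) ≠ ⊤ := by
      intro k _
      obtain ⟨m, hm⟩ := ENat.ne_top_iff_exists.1 (hD k)
      rw [← hm, p1_nat]
      exact ENNReal.natCast_ne_top m
    have h3 : (∑ k ∈ Finset.range n, p1 (D (sk ξ k)) + ∑' j, (U j (lk ξ) (D (sk ξ 0)) : ℝ≥0∞)) ≠ ⊤ :=
      ENNReal.add_ne_top.2 ⟨ENNReal.sum_ne_top.2 hf, hU.ne⟩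
    have h4 := ENNReal.toReal_mono h3 key
    rw [ENNReal.toReal_add (ENNReal.sum_ne_top.2 hf) hU.ne, ENNReal.toReal_sum hf] at h4
    refine le_trans (le_of_eq ?_) h4
    rw [← Nat.cast_sum, ENNReal.toReal_natCast]
  have h5 : (t : ℝ) = Wz ξ t + 2 * ((∑ k ∈ Finset.Icc (-(t : ℤ)) t, Lz ξ t k : ℕ) : ℝ) := by
    have : ((t : ℤ) : ℝ) = ((Wz ξ t + 2 * ∑ k ∈ Finset.Icc (-(t : ℤ)) t, (Lz ξ t k : ℤ) : ℤ) : ℝ) := by
      rw [← h1]
    push_cast at this ⊢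
    exact this
  rw [h5]
  linarith

end det

/-- averages and a shift of the number of terms -/
lemma avg_low {a : ℕ → ℝ} {I c : ℝ} (h : Tendsto (fun n : ℕ => (∑ k ∈ Finset.range n, a k) / n) atTop (𝓝 I))
    (hc : c < I) (L : ℕ) : ∃ n0 : ℕ, ∀ n : ℕ, n0 ≤ n → L ≤ n ∧ c * n ≤ ∑ k ∈ Finset.range (n - L), a k := by
  have h1 : Tendsto (fun n : ℕ => (∑ k ∈ Finset.range (n - L), a k) / ((n - L : ℕ) : ℝ)) atTop (𝓝 I) :=
    h.comp (tendsto_sub_atTop_nat L)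
  have h2 : Tendsto (fun n : ℕ => ((n - L : ℕ) : ℝ) / n) atTop (𝓝 1) := by
    have h3 : Tendsto (fun n : ℕ => 1 - (L : ℝ) / n) atTop (𝓝 (1 - 0)) :=
      tendsto_const_nhds.sub (tendsto_const_div_atTop_nhds_zero_nat _)
    rw [sub_zero] at h3
    refine h3.congr' ?_
    filter_upwards [eventually_ge_atTop (L + 1)] with n hn
    have : (0 : ℝ) < n := by exact_mod_cast (by omega : 0 < n)
    rw [Nat.cast_sub (by omega)]
    field_simp
  have h3 := h1.mul h2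
  rw [mul_one] at h3
  have h4 := (h3.eventually (lt_mem_nhds hc)).and (eventually_ge_atTop (L + 1))
  obtain ⟨n0, hn0⟩ := eventually_atTop.1 h4
  refine ⟨n0, fun n hn => ?_⟩
  obtain ⟨h5, h6⟩ := hn0 n hn
  refine ⟨by omega, ?_⟩
  have hp : (0 : ℝ) < n := by exact_mod_cast (by omega : 0 < n)
  have hp2 : (0 : ℝ) < ((n - L : ℕ) : ℝ) := by exact_mod_cast (by omega : 0 < n - L)
  have h7 : (∑ k ∈ Finset.range (n - L), a k) / ((n - L : ℕ) : ℝ) * (((n - L : ℕ) : ℝ) / n) =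
      (∑ k ∈ Finset.range (n - L), a k) / n := by
    field_simp
  rw [h7, lt_div_iff₀ hp] at h5
  exact h5.le

lemma avg_up {a : ℕ → ℝ} {I c Z : ℝ} (h : Tendsto (fun n : ℕ => (∑ k ∈ Finset.range n, a k) / n) atTop (𝓝 I))
    (hc : I < c) : ∃ n0 : ℕ, ∀ n : ℕ, n0 ≤ n → ∑ k ∈ Finset.range n, a k + Z ≤ c * n := by
  have h3 : Tendsto (fun n : ℕ => (∑ k ∈ Finset.range n, a k) / n + Z / n) atTop (𝓝 (I + 0)) :=
    h.add (tendsto_const_div_atTop_nhds_zero_nat _)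
  rw [add_zero] at h3
  have h4 := (h3.eventually (gt_mem_nhds hc)).and (eventually_ge_atTop 1)
  obtain ⟨n0, hn0⟩ := eventually_atTop.1 h4
  refine ⟨n0, fun n hn => ?_⟩
  obtain ⟨h5, h6⟩ := hn0 n hn
  have hp : (0 : ℝ) < n := by exact_mod_cast (by omega : 0 < n)
  rw [← add_div, div_lt_iff₀ hp] at h5
  exact h5.le

section
variable (ρ : Measure Stk) [IsProbabilityMeasure ρ]

theorem no_speed_ae (h : ∫⁻ η, p1 (D η) ∂(PP ρ) = ⊤) :
    ∀ᵐ ξ ∂(MM ρ), ∀ ε : ℝ, 0 < ε → ∀ᶠ t : ℕ in atTop, (Wz ξ t : ℝ) ≤ ε * t := by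
  have h1 : ∀ᵐ ξ ∂(MM ρ), ∀ L : ℕ, Tendsto (fun n : ℕ => (∑ k ∈ Finset.range n, hL L (sk ξ k)) / n) atTop
      (𝓝 (∫ η, hL L η ∂(PP ρ))) := by
    rw [ae_all_iff]
    exact fun L => erg_avg ρ (meas_hL L) (hL_int ρ L)
  filter_upwards [h1] with ξ hξ ε hε
  refine no_speed (fun c => ?_) hε
  have hex : ∃ L, c < ∫ η, hL L η ∂(PP ρ) := by
    by_contra hno
    push Not at hno
    have h2 : ⨆ L, ENNReal.ofReal (∫ η, hL L η ∂(PP ρ)) ≤ ENNReal.ofReal c :=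
      iSup_le fun L => ENNReal.ofReal_le_ofReal (hno L)
    rw [hL_sup, h, top_le_iff] at h2
    exact ENNReal.ofReal_ne_top h2
  obtain ⟨L, hLc⟩ := hex
  obtain ⟨n0, hn0⟩ := avg_low (hξ L) hLc L
  refine ⟨n0, fun n hn t ht => ?_⟩
  obtain ⟨h3, h4⟩ := hn0 n hn
  have h5 := time_low ξ ht h3
  have h6 : (0 : ℝ) ≤ n := Nat.cast_nonneg n
  have h7 : (0 : ℝ) ≤ ∑ k ∈ Finset.range (n - L), hL L (sk ξ k) := Finset.sum_nonneg fun k _ => hL_nonneg L _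
  linarith

end

theorem speed_ae (κ : Measure Stk) [IsProbabilityMeasure κ]
    (h : ∫⁻ η, p1 (D η) ∂(PP (rho κ)) < ⊤) :
    ∀ᵐ ξ ∂(MM (rho κ)), Tendsto (fun t : ℕ => (Wz ξ t : ℝ) / t) atTop
      (𝓝 (1 / (1 + 2 * (∫⁻ η, p1 (D η) ∂(PP (rho κ))).toReal))) := by
  set ρ := rho κ with hρ
  set d := (∫⁻ η, p1 (D η) ∂(PP ρ)).toReal with hd
  have h1 : ∀ᵐ ξ ∂(MM ρ), ∀ L : ℕ, Tendsto (fun n : ℕ => (∑ k ∈ Finset.range n, hL L (sk ξ k)) / n) atTop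
      (𝓝 (∫ η, hL L η ∂(PP ρ))) := by
    rw [ae_all_iff]
    exact fun L => erg_avg ρ (meas_hL L) (hL_int ρ L)
  have hfin : ∀ᵐ η ∂(PP ρ), D η ≠ ⊤ := by
    have := ae_lt_top ((meas_enat_fun p1).comp meas_D) h.ne
    filter_upwards [this] with η hη hη2
    rw [Function.comp, hη2] at hη
    simp [p1] at hη
  have h2 : ∀ᵐ ξ ∂(MM ρ), ∀ k : ℕ, D (sk ξ k) ≠ ⊤ := by
    rw [ae_all_iff]
    intro k
    have h3 := hfin
    rw [← map_sk ρ (k : ℤ)] at h3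
    exact ae_of_ae_map (meas_sk _).aemeasurable h3
  have h3 : ∀ᵐ ξ ∂(MM ρ), ∀ x : ℕ, ∑' j, (U j (lk ξ) x : ℝ≥0∞) < ⊤ := by
    have h4 := sum_fin κ
    rw [← hρ, ← map_lk ρ] at h4
    exact ae_of_ae_map meas_lk.aemeasurable h4
  have hdm : Measurable dd := ((meas_enat_fun p1).comp meas_D).ennreal_toReal
  have hdi : Integrable dd (PP ρ) :=
    integrable_toReal_of_lintegral_ne_top ((meas_enat_fun p1).comp meas_D).aemeasurable h.ne
  have h4 := erg_avg ρ hdm hdi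
  have h5 : ∫ η, dd η ∂(PP ρ) = d := by
    rw [hd]
    unfold dd
    exact integral_toReal (f := fun η => p1 (D η)) ((meas_enat_fun p1).comp meas_D).aemeasurable
      (ae_lt_top ((meas_enat_fun p1).comp meas_D) h.ne)
  rw [h5] at h4
  filter_upwards [h1, h2, h3, h4] with ξ hξ1 hξ2 hξ3 hξ4
  refine speed_lim ENNReal.toReal_nonneg (Wz_zero ξ) (fun t => ?_) (fun c hc => ?_) (fun c hc => ?_)
  · rcases step_cases ξ t with ⟨_, hW, _⟩ | ⟨_, hW, _⟩ <;> omega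
  · have hex : ∃ L, c < ∫ η, hL L η ∂(PP ρ) := by
      by_contra hno
      push Not at hno
      have hc0 : 0 ≤ c := le_trans (integral_nonneg (fun η => hL_nonneg 0 η)) (hno 0)
      have h2 : ⨆ L, ENNReal.ofReal (∫ η, hL L η ∂(PP ρ)) ≤ ENNReal.ofReal c :=
        iSup_le fun L => ENNReal.ofReal_le_ofReal (hno L)
      rw [hL_sup] at h2
      have h6 := ENNReal.toReal_mono ENNReal.ofReal_ne_top h2
      rw [ENNReal.toReal_ofReal hc0] at h6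
      exact absurd hc (not_lt.2 h6)
    obtain ⟨L, hLc⟩ := hex
    obtain ⟨n0, hn0⟩ := avg_low (hξ1 L) hLc L
    refine ⟨n0, fun n hn t ht => ?_⟩
    obtain ⟨h3, h4⟩ := hn0 n hn
    have h5 := time_low ξ ht h3
    linarith
  · obtain ⟨x, hx⟩ := ENat.ne_top_iff_exists.1 (hξ2 0)
    have hU : ∑' j, (U j (lk ξ) (D (sk ξ 0)) : ℝ≥0∞) < ⊤ := by
      have : D (sk ξ 0) = x := by simpa using hx.symm
      rw [this]; exact hξ3 x
    obtain ⟨n0, hn0⟩ := avg_up (Z := (∑' j, (U j (lk ξ) (D (sk ξ 0)) : ℝ≥0∞)).toReal) hξ4 hc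
    refine ⟨n0, fun n hn t ht => ?_⟩
    have h5 := time_up ξ ht hξ2 hU
    have h6 := hn0 n hn
    linarith

end Pool.Agent.K7.H98.EW
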