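import Mathlib
import Pool.Agent.K7.H98.EW.SLaw

set_option autoImplicit false
set_option linter.unusedSectionVars false

/-!
From the stacks of arrows to the excited random walk on the integers.
-/

open MeasureTheory Set Filter Topology ProbabilityTheory
open scoped ENNReal

namespace Pool.Agent.K7.H98.EW

open Pool.H543.ERW (Geo W C W_succ C_succ W_zero C_zero C_card prod_path mu_Cy law_eq meas_W mu)

/-- the space of cookie environments -/
abbrev Env : Type := ℤ → ℕ → ℝ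

/-- the weight of a step -/
def wt (b : Bool) (y : ℝ) : ℝ := if b then y else 1 - y

lemma meas_wt (b : Bool) : Measurable (wt b) := by
  unfold wt
  cases b
  · simp only [Bool.false_eq_true, if_false]; exact measurable_const.sub measurable_id
  · simp only [if_true]; exact measurable_id

lemma wt_nonneg (b : Bool) {y : ℝ} (h : y ∈ Icc (0 : ℝ) 1) : 0 ≤ wt b y := by
  cases b
  · simp only [wt]; simpa using h.2
  · simp only [wt]; simpa using h.1

lemma wt_le (b : Bool) {y : ℝ} (h : y ∈ Icc (0 : ℝ) 1) : wt b y ≤ 1 := by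
  cases b
  · simp only [wt]; simpa using h.1
  · simp only [wt]; simpa using h.2

lemma meas_coord (z : ℤ) (k : ℕ) : Measurable (fun ω : Env => ω z k) :=
  (measurable_pi_apply k).comp (measurable_pi_apply z)

/-- the weight of the first `n` steps of the walk `W gz ξ₀` in the environment `ω` -/
noncomputable def Wgt (ξ₀ : ℤ → ℕ → Bool) (n : ℕ) (ω : Env) : ℝ≥0∞ :=
  ∏ j ∈ Finset.range n, ENNReal.ofReal (wt (ξ₀ (W gz ξ₀ j) (C gz ξ₀ j (W gz ξ₀ j)))
    (ω (W gz ξ₀ j) (C gz ξ₀ j (W gz ξ₀ j))))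

lemma meas_Wgt (ξ₀ : ℤ → ℕ → Bool) (n : ℕ) : Measurable (Wgt ξ₀ n) := by
  refine Finset.measurable_prod _ fun j _ => ?_
  exact ENNReal.measurable_ofReal.comp ((meas_wt _).comp (meas_coord _ _))

section
variable {Ω : Type*} [MeasurableSpace Ω]
  (μ : Measure Ω) [IsProbabilityMeasure μ] (env : Ω → Env) (X : ℕ → Ω → ℤ)

theorem path_law
    (hme : Measurable env) (hmX : ∀ n, Measurable (X n))
    (hun : ∀ᵐ a ∂μ, ∀ z k, env a z k ∈ Icc (0 : ℝ) 1)
    (h0 : ∀ᵐ a ∂μ, X 0 a = 0)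
    (hst : ∀ (n : ℕ) (x : ℕ → ℤ) (b : Bool) (A : Set Env), MeasurableSet A →
      μ.real {a | env a ∈ A ∧ (∀ m ≤ n, X m a = x m) ∧ X (n + 1) a = x n + gz.u b} =
        ∫ a in {a | env a ∈ A ∧ ∀ m ≤ n, X m a = x m},
          wt b (env a (x n) ((Finset.range n).filter (fun m => x m = x n)).card) ∂μ)
    (ξ₀ : ℤ → ℕ → Bool) (n : ℕ) :
    ∀ (A : Set Env), MeasurableSet A →
      μ {a | env a ∈ A ∧ ∀ j ≤ n, X j a = W gz ξ₀ j} = ∫⁻ a in env ⁻¹' A, Wgt ξ₀ n (env a) ∂μ := by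
  induction n with
  | zero =>
    intro A hA
    have : μ {a | env a ∈ A ∧ ∀ j ≤ 0, X j a = W gz ξ₀ j} = μ (env ⁻¹' A) := by
      refine measure_congr ?_
      filter_upwards [h0] with a ha
      refine propext ⟨fun h => h.1, fun h => ⟨h, fun j hj => ?_⟩⟩
      have : j = 0 := by omega
      subst this
      rw [ha, W_zero]
    rw [this]
    simp [Wgt]
  | succ n ih =>
    intro A hA
    set e := ξ₀ (W gz ξ₀ n) (C gz ξ₀ n (W gz ξ₀ n)) with he
    set k := C gz ξ₀ n (W gz ξ₀ n) with hk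
    have hPm : MeasurableSet {a | ∀ j ≤ n, X j a = W gz ξ₀ j} := by
      have : {a | ∀ j ≤ n, X j a = W gz ξ₀ j} = ⋂ j ∈ Finset.range (n + 1), X j ⁻¹' {W gz ξ₀ j} := by
        ext a; simp
      rw [this]
      exact Finset.measurableSet_biInter _ fun i _ => hmX i (measurableSet_singleton _)
    have hset : {a | env a ∈ A ∧ ∀ j ≤ n + 1, X j a = W gz ξ₀ j} =
        {a | env a ∈ A ∧ (∀ m ≤ n, X m a = W gz ξ₀ m) ∧ X (n + 1) a = W gz ξ₀ n + gz.u e} := by
      ext a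
      have hW : W gz ξ₀ (n + 1) = W gz ξ₀ n + gz.u e := by rw [W_succ]
      constructor
      · rintro ⟨h1, h2⟩
        exact ⟨h1, fun m hm => h2 m (by omega), by rw [h2 (n + 1) le_rfl, hW]⟩
      · rintro ⟨h1, h2, h3⟩
        refine ⟨h1, fun j hj => ?_⟩
        rcases Nat.lt_or_ge n j with h | h
        · have : j = n + 1 := by omega
          rw [this, h3, hW]
        · exact h2 j h
    have hcard : ((Finset.range n).filter (fun m => W gz ξ₀ m = W gz ξ₀ n)).card = k := by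
      rw [hk, C_card]
    have hstep := hst n (fun m => W gz ξ₀ m) e A hA
    simp only [hcard] at hstep
    rw [hset]
    have hfin : μ {a | env a ∈ A ∧ (∀ m ≤ n, X m a = W gz ξ₀ m) ∧
        X (n + 1) a = W gz ξ₀ n + gz.u e} = ENNReal.ofReal (∫ a in {a | env a ∈ A ∧ ∀ m ≤ n,
          X m a = W gz ξ₀ m}, wt e (env a (W gz ξ₀ n) k) ∂μ) := by
      rw [← hstep, Measure.real, ENNReal.ofReal_toReal (measure_ne_top _ _)]
    rw [hfin]
    have hmf : Measurable (fun ω : Env => wt e (ω (W gz ξ₀ n) k)) := (meas_wt e).comp (meas_coord _ _)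
    have hle1 : ∀ᵐ a ∂μ, ‖wt e (env a (W gz ξ₀ n) k)‖ ≤ 1 := by
      filter_upwards [hun] with a h1
      rw [Real.norm_eq_abs, abs_of_nonneg (wt_nonneg e (h1 _ _))]
      exact wt_le e (h1 _ _)
    have hint : Integrable (fun a => wt e (env a (W gz ξ₀ n) k))
        (μ.restrict {a | env a ∈ A ∧ ∀ m ≤ n, X m a = W gz ξ₀ m}) := by
      refine Integrable.of_bound (hmf.comp hme).aestronglyMeasurable 1 (ae_restrict_of_ae hle1)
    have hnn' : 0 ≤ᵐ[μ.restrict {a | env a ∈ A ∧ ∀ m ≤ n, X m a = W gz ξ₀ m}]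
        (fun a => wt e (env a (W gz ξ₀ n) k)) := by
      refine ae_restrict_of_ae ?_
      filter_upwards [hun] with a h1
      exact wt_nonneg e (h1 _ _)
    rw [ofReal_integral_eq_lintegral_ofReal hint hnn']
    have hmF : Measurable (fun ω : Env => ENNReal.ofReal (wt e (ω (W gz ξ₀ n) k))) :=
      ENNReal.measurable_ofReal.comp hmf
    -- the two measures
    have hmeq : (μ.restrict {a | ∀ j ≤ n, X j a = W gz ξ₀ j}).map env =
        (μ.map env).withDensity (Wgt ξ₀ n) := by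
      ext B hB
      rw [Measure.map_apply hme hB, Measure.restrict_apply (hme hB), withDensity_apply _ hB,
        setLIntegral_map hB (meas_Wgt ξ₀ n) hme, ← ih B hB]
      rfl
    have e1 : ∫⁻ a in {a | env a ∈ A ∧ ∀ m ≤ n, X m a = W gz ξ₀ m},
        ENNReal.ofReal (wt e (env a (W gz ξ₀ n) k)) ∂μ =
        ∫⁻ ω in A, ENNReal.ofReal (wt e (ω (W gz ξ₀ n) k))
          ∂((μ.restrict {a | ∀ j ≤ n, X j a = W gz ξ₀ j}).map env) := by
      rw [setLIntegral_map hA hmF hme, Measure.restrict_restrict (hme hA)]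
      rfl
    rw [e1, hmeq, setLIntegral_withDensity_eq_setLIntegral_mul _ (meas_Wgt ξ₀ n) hmF hA,
      setLIntegral_map hA ((meas_Wgt ξ₀ n).mul hmF) hme]
    refine lintegral_congr fun a => ?_
    rw [Pi.mul_apply, Wgt, Wgt, Finset.prod_range_succ]

lemma gz_inj : Function.Injective gz.u := by
  intro a b h
  cases a <;> cases b <;> simp [gz_u] at h ⊢

/-- the stack at the origin -/
def e0 (a : Ω) : ℕ → ℝ := env a 0

theorem walk_law
    (hme : Measurable env) (hmX : ∀ n, Measurable (X n))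
    (hun : ∀ᵐ a ∂μ, ∀ z k, env a z k ∈ Icc (1 / 2 : ℝ) 1)
    (h0 : ∀ᵐ a ∂μ, X 0 a = 0)
    (hst : ∀ (n : ℕ) (x : ℕ → ℤ) (b : Bool) (A : Set Env), MeasurableSet A →
      μ.real {a | env a ∈ A ∧ (∀ m ≤ n, X m a = x m) ∧ X (n + 1) a = x n + gz.u b} =
        ∫ a in {a | env a ∈ A ∧ ∀ m ≤ n, X m a = x m},
          wt b (env a (x n) ((Finset.range n).filter (fun m => x m = x n)).card) ∂μ)
    (hind : iIndepFun (fun (z : ℤ) (a : Ω) => env a z) μ)
    (hid : ∀ z, IdentDistrib (fun a => env a z) (fun a => env a 0) μ μ) :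
    μ.map (fun a n => X n a) = (mu ℤ (rho (kap μ (fun a => env a 0)))).map (fun ξ n => W gz ξ n) := by
  have hmz : ∀ z, Measurable (fun a => env a z) := fun z => (measurable_pi_apply z).comp hme
  have hκ := prob_kap μ _ (hmz 0)
  set ρ := rho (kap μ (fun a => env a 0)) with hρ
  have hun' : ∀ᵐ a ∂μ, ∀ z k, env a z k ∈ Icc (0 : ℝ) 1 := by
    filter_upwards [hun] with a ha z k
    exact ⟨by linarith [(ha z k).1], (ha z k).2⟩
  have hρw : ∀ (w : Stk) (n : ℕ), ρ {s | ∀ k < n, s k = w k} =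
      ∫⁻ a, ∏ k ∈ Finset.range n, ENNReal.ofReal (wt (w k) (env a 0 k)) ∂μ := by
    intro w n
    exact rho_kap μ (hmz 0) (by filter_upwards [hun] with a ha using ha 0) w n
  have hmprod : ∀ (w : ℕ → Bool) (n : ℕ), Measurable
      (fun s : ℕ → ℝ => ∏ k ∈ Finset.range n, ENNReal.ofReal (wt (w k) (s k))) := by
    intro w n
    refine Finset.measurable_prod _ fun k _ => ?_
    exact ENNReal.measurable_ofReal.comp ((meas_wt _).comp (measurable_pi_apply k))
  have hmpath : Measurable (fun (a : Ω) (n : ℕ) => X n a) := measurable_pi_lambda _ hmX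
  have : IsProbabilityMeasure (μ.map (fun a n => X n a)) :=
    Measure.isProbabilityMeasure_map hmpath.aemeasurable
  refine law_eq gz ρ _ ?_
  intro ξ₀ n
  have hcyl : MeasurableSet {x : ℕ → ℤ | ∀ j ≤ n, x j = W gz ξ₀ j} := by
    have : {x : ℕ → ℤ | ∀ j ≤ n, x j = W gz ξ₀ j} =
        ⋂ j ∈ Finset.range (n + 1), (fun x => x j) ⁻¹' {W gz ξ₀ j} := by
      ext x; simp
    rw [this]
    exact Finset.measurableSet_biInter _ fun i _ =>
      (measurable_pi_apply i) (measurableSet_singleton _)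
  set s : Finset ℤ := (Finset.range n).image (W gz ξ₀) with hs
  have hsm : ∀ i < n, W gz ξ₀ i ∈ s := fun i hi =>
    Finset.mem_image_of_mem _ (Finset.mem_range.2 hi)
  rw [Measure.map_apply hmpath hcyl]
  have e1 := path_law μ env X hme hmX hun' h0 hst ξ₀ n univ MeasurableSet.univ
  have e2 : (fun (a : Ω) (n : ℕ) => X n a) ⁻¹' {x | ∀ j ≤ n, x j = W gz ξ₀ j} =
      {a | env a ∈ (univ : Set Env) ∧ ∀ j ≤ n, X j a = W gz ξ₀ j} := by
    ext a; simp
  rw [e2, e1, preimage_univ, Measure.restrict_univ]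
  have e3 : ∀ a, Wgt ξ₀ n (env a) = ∏ z ∈ s, ∏ k ∈ Finset.range (C gz ξ₀ n z),
      ENNReal.ofReal (wt (ξ₀ z k) (env a z k)) := by
    intro a
    exact prod_path gz (fun z e k => ENNReal.ofReal (wt e (env a z k))) ξ₀ s n hsm
  simp only [e3]
  have hmf : ∀ z, Measurable (fun s : ℕ → ℝ =>
      ∏ k ∈ Finset.range (C gz ξ₀ n z), ENNReal.ofReal (wt (ξ₀ z k) (s k))) := fun z =>
    hmprod (ξ₀ z) _
  have e4 : ∫⁻ a, ∏ z ∈ s, ∏ k ∈ Finset.range (C gz ξ₀ n z),
      ENNReal.ofReal (wt (ξ₀ z k) (env a z k)) ∂μ = ∏ z ∈ s, ∫⁻ a, ∏ k ∈ Finset.range (C gz ξ₀ n z),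
      ENNReal.ofReal (wt (ξ₀ z k) (env a z k)) ∂μ := by
    have h1 := hind.comp (fun z (s : ℕ → ℝ) =>
      ∏ k ∈ Finset.range (C gz ξ₀ n z), ENNReal.ofReal (wt (ξ₀ z k) (s k))) hmf
    exact lintegral_prod_eq_prod_lintegral_of_indepFun s _ h1
      (fun z => (hmf z).comp (hmz z))
  rw [e4, mu_Cy gz ρ gz_inj ξ₀ s n hsm]
  refine Finset.prod_congr rfl fun z _ => ?_
  rw [hρw]
  exact ((hid z).comp (hmf z)).lintegral_eq

theorem main
    (hme : Measurable env) (hmX : ∀ n, Measurable (X n))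
    (hun : ∀ᵐ a ∂μ, ∀ z k, env a z k ∈ Icc (1 / 2 : ℝ) 1)
    (h0 : ∀ᵐ a ∂μ, X 0 a = 0)
    (hst : ∀ (n : ℕ) (x : ℕ → ℤ) (b : Bool) (A : Set Env), MeasurableSet A →
      μ.real {a | env a ∈ A ∧ (∀ m ≤ n, X m a = x m) ∧ X (n + 1) a = x n + gz.u b} =
        ∫ a in {a | env a ∈ A ∧ ∀ m ≤ n, X m a = x m},
          wt b (env a (x n) ((Finset.range n).filter (fun m => x m = x n)).card) ∂μ)
    (hind : iIndepFun (fun (z : ℤ) (a : Ω) => env a z) μ)
    (hid : ∀ z, IdentDistrib (fun a => env a z) (fun a => env a 0) μ μ)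
    (hwel : 0 < μ {a | ∀ i, env a 0 i < 1}) :
    ∃ v : ℝ, (∀ᵐ a ∂μ, Tendsto (fun n : ℕ => (X n a : ℝ) / n) atTop (𝓝 v)) ∧
      (∫⁻ a, ∑' i, ENNReal.ofReal (2 * env a 0 i - 1) ∂μ ≤ 2 → v = 0) ∧
      (2 < ∫⁻ a, ∑' i, ENNReal.ofReal (2 * env a 0 i - 1) ∂μ → 0 < v) := by
  have hmz : ∀ z, Measurable (fun a => env a z) := fun z => (measurable_pi_apply z).comp hme
  have hκ := prob_kap μ _ (hmz 0)
  have hlaw := walk_law μ env X hme hmX hun h0 hst hind hid
  have hun0 : ∀ᵐ a ∂μ, ∀ k, env a 0 k ∈ Icc (1 / 2 : ℝ) 1 := by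
    filter_upwards [hun] with a ha using ha 0
  -- transfer
  have hmpath : Measurable (fun (a : Ω) (n : ℕ) => X n a) := measurable_pi_lambda _ hmX
  have hmW : Measurable (fun (ξ : ℤ → ℕ → Bool) (n : ℕ) => W gz ξ n) :=
    measurable_pi_lambda _ fun n => meas_W _ n
  have trans : ∀ v : ℝ, (∀ᵐ ξ ∂(MM (rho (kap μ (fun a => env a 0)))),
      Tendsto (fun t : ℕ => (Wz ξ t : ℝ) / t) atTop (𝓝 v)) →
      ∀ᵐ a ∂μ, Tendsto (fun n : ℕ => (X n a : ℝ) / n) atTop (𝓝 v) := by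
    intro v hv
    have hS : MeasurableSet {x : ℕ → ℤ | Tendsto (fun n : ℕ => (x n : ℝ) / n) atTop (𝓝 v)} := by
      refine measurableSet_tendsto (𝓝 v) fun n => ?_
      exact (((measurable_of_countable (fun z : ℤ => (z : ℝ))).comp (measurable_pi_apply n)).div_const _)
    have h1 : ∀ᵐ x ∂(μ.map (fun a n => X n a)), Tendsto (fun n : ℕ => (x n : ℝ) / n) atTop (𝓝 v) := by
      rw [hlaw, ae_map_iff hmW.aemeasurable hS]
      exact hv
    rwa [ae_map_iff hmpath.aemeasurable hS] at h1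
  by_cases hδ : ∫⁻ a, ∑' i, ENNReal.ofReal (2 * env a 0 i - 1) ∂μ ≤ 2
  · have hz := kap_zero μ (hmz 0) hun0 (ne_top_of_le_ne_top (by simp) hδ) hwel
    obtain ⟨v, h1, h2, -⟩ := crit (kap μ (fun a => env a 0)) hz
    refine ⟨v, trans v h1, fun h => h2 ?_, fun h => absurd hδ (not_le.2 h)⟩
    rw [kap_uS μ (hmz 0) hun0]; exact h
  · rw [not_le] at hδ
    obtain ⟨M, hM⟩ := kap_T μ (hmz 0) hun0 hδ
    obtain ⟨v, hv, h2⟩ := (dichotomy (kap μ (fun a => env a 0))).2 (D_fin _ M hM)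
    exact ⟨v, trans v h2, fun h => absurd hδ (not_lt.2 h), fun _ => hv⟩

end

end Pool.Agent.K7.H98.EW
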